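import Pool.Agent.H67.BB.Bohr

set_option autoImplicit false

/-!
Sums of two moved primes in Bohr sets are rare, and the gaps between moved primes in Bohr sets tend to infinity.
-/

namespace Pool.Agent.H67.BB

open Finset Filter Topology

lemma mem_bohr_add {α η : ℝ} {a b : ℕ} (ha : a ∈ bohr α η) (hb : b ∈ bohr α η) : a + b ∈ bohr α (2 * η) := by
  have ha' : Int.fract (α * a) < η := ha
  have hb' : Int.fract (α * b) < η := hb
  show Int.fract (α * ((a + b : ℕ) : ℝ)) < 2 * η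
  push_cast
  rw [mul_add]
  have := Int.fract_add_le (α * a) (α * b)
  linarith

lemma bohr_mono {α η η' : ℝ} (h : η ≤ η') : bohr α η ⊆ bohr α η' := fun _ hm => lt_of_lt_of_le hm h

/-- the sets of the construction -/
noncomputable def TT (j : ℕ) : Set ℕ := bohr (√2) (1 / ((j : ℝ) + 1))

lemma TT_syn (j M : ℕ) (hM : 1 ≤ M) : ∃ K : ℕ, 1 ≤ K ∧ Syn (TT j) M K :=
  bohr_syn irrational_sqrt_two (by positivity) M hM

lemma TT_anti {i j : ℕ} (h : i ≤ j) : TT j ⊆ TT i := by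
  apply bohr_mono
  apply one_div_le_one_div_of_le (by positivity)
  have : (i : ℝ) ≤ j := by exact_mod_cast h
  linarith

section

variable {f : ℕ → ℝ} {φ X : ℕ → ℕ}

/-- the moved primes -/
def PP (φ : ℕ → ℕ) : Set ℕ := φ '' {r | r.Prime}

lemma Out.exists_stage {T : ℕ → Set ℕ} (O : Out T f φ X) {r : ℕ} (hr : X 0 ≤ r) : ∃ j, X j ≤ r ∧ r < X (j + 1) := by
  have hP : ∃ m, r < X m := ⟨r + 1, lt_of_lt_of_le (Nat.lt_succ_self r) O.mono.le_apply⟩
  have h1 := Nat.find_spec hP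
  have h2 : Nat.find hP ≠ 0 := by
    intro h0
    rw [h0] at h1
    omega
  refine ⟨Nat.find hP - 1, ?_, ?_⟩
  · have := Nat.find_min hP (m := Nat.find hP - 1) (by omega)
    omega
  · rw [Nat.sub_add_cancel (by omega)]
    exact h1

/-- elements of `P` beyond `X j` are in the set `T j` -/
lemma Out.mem_of_ge (O : Out TT f φ X) {j a : ℕ} (ha : a ∈ PP φ) (hj : X j ≤ a) : a ∈ TT j := by
  obtain ⟨r, hr, rfl⟩ := ha
  have hr : r.Prime := hr
  rcases lt_or_ge r (X 0) with c | c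
  · exfalso
    rw [O.small r hr c] at hj
    have := O.mono.monotone (Nat.zero_le j)
    omega
  · obtain ⟨i, h1, h2⟩ := O.exists_stage c
    have hs := O.stage i r hr h1 h2
    have hij : j ≤ i := by
      by_contra h
      push Not at h
      have := O.mono.monotone (show i + 1 ≤ j by omega)
      omega
    exact TT_anti hij hs.2.2.2.1

lemma Out.gaps (O : Out TT f φ X) (L : ℕ) : {a : ℕ | a ∈ PP φ ∧ ∃ b ∈ PP φ, a < b ∧ b ≤ a + L}.Finite := by
  obtain ⟨θ, hθ, h⟩ := bohr_spaced irrational_sqrt_two (L + 1)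
  obtain ⟨j, hj⟩ := exists_nat_one_div_lt hθ
  refine (Set.finite_Iio (X j)).subset ?_
  rintro a ⟨ha, b, hb, hab, hbL⟩
  show a < X j
  by_contra hc
  push Not at hc
  have h1 : a ∈ bohr (√2) θ := bohr_mono hj.le (O.mem_of_ge ha hc)
  have h2 : b ∈ bohr (√2) θ := bohr_mono hj.le (O.mem_of_ge hb (by omega))
  have := h a b hab h1 h2
  omega

/-- the number of elements of `P` up to `x` -/
lemma Out.card_le {T : ℕ → Set ℕ} (O : Out T f φ X) : ∃ x₀ : ℕ, 2 ≤ x₀ ∧ ∀ x : ℕ, x₀ ≤ x →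
    ({a | a ≤ x ∧ a ∈ PP φ}.Finite) ∧ ({a | a ≤ x ∧ a ∈ PP φ}.ncard : ℝ) ≤ 6 * x / Real.log x := by
  obtain ⟨Y₀, hY₀, hbt⟩ := bt3
  refine ⟨Y₀, hY₀, fun x hx => ?_⟩
  have hsub : {a | a ≤ x ∧ a ∈ PP φ} ⊆ ↑(((Ioc 0 (0 + 2 * x)).filter Nat.Prime).image φ) := by
    rintro a ⟨ha, r, hr, rfl⟩
    have hr : r.Prime := hr
    have := O.move.low r hr
    rw [coe_image]
    refine ⟨r, ?_, rfl⟩
    rw [mem_coe, mem_filter, mem_Ioc]
    exact ⟨⟨hr.pos, by omega⟩, hr⟩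
  have hfin := (finite_toSet (((Ioc 0 (0 + 2 * x)).filter Nat.Prime).image φ)).subset hsub
  refine ⟨hfin, ?_⟩
  have h1 : {a | a ≤ x ∧ a ∈ PP φ}.ncard ≤ ((Ioc 0 (0 + 2 * x)).filter Nat.Prime).card := by
    refine (Set.ncard_le_ncard hsub (finite_toSet _)).trans ?_
    rw [Set.ncard_coe_finset]
    exact card_image_le
  have h2 := hbt 0 (2 * x) (by omega)
  have hx0 : (2 : ℝ) ≤ x := by exact_mod_cast (by omega : 2 ≤ x)
  have hlog : 0 < Real.log x := Real.log_pos (by linarith)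
  have h3 : Real.log x ≤ Real.log ((2 * x : ℕ) : ℝ) := by
    apply Real.log_le_log (by linarith)
    push_cast
    linarith
  calc ({a | a ≤ x ∧ a ∈ PP φ}.ncard : ℝ) ≤ (((Ioc 0 (0 + 2 * x)).filter Nat.Prime).card : ℝ) := by exact_mod_cast h1
    _ ≤ 3 * ((2 * x : ℕ) : ℝ) / Real.log ((2 * x : ℕ) : ℝ) := h2
    _ ≤ 3 * ((2 * x : ℕ) : ℝ) / Real.log x := by
        apply div_le_div_of_nonneg_left (by positivity) hlog h3
    _ = _ := by push_cast; ring

lemma Out.sums (O : Out TT f φ X) (hg : ∀ j, 3 ^ (j * X j) ≤ X (j + 1)) :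
    Tendsto (fun x : ℕ => ({n : ℕ | n ≤ x ∧ ∃ a ∈ PP φ, ∃ b ∈ PP φ, a + b = n}.ncard : ℝ) / x) atTop (𝓝 0) := by
  obtain ⟨x₀, hx₀, hcard⟩ := O.card_le
  rw [Metric.tendsto_atTop]
  intro ε hε
  obtain ⟨L, hL⟩ : ∃ L : ℕ, 4 / ε < L := exists_nat_gt _
  have hLR : (0 : ℝ) < L := lt_trans (by positivity) hL
  have hL1 : 1 ≤ L := by
    have : (0 : ℝ) < L := hLR
    exact_mod_cast this
  obtain ⟨θ, hθ, hsp⟩ := bohr_spaced irrational_sqrt_two L
  obtain ⟨j, hj⟩ := exists_nat_one_div_lt (show 0 < θ / 2 by positivity)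
  obtain ⟨i₀, hi₀⟩ : ∃ i₀ : ℕ, 24 / ε < i₀ := exists_nat_gt _
  obtain ⟨x₁, hx₁⟩ : ∃ x₁ : ℕ, 4 / ε < x₁ := exists_nat_gt _
  refine ⟨x₀ + X (j + i₀ + 2) + x₁ + 1, fun x hx => ?_⟩
  have hxx0 : x₀ ≤ x := by omega
  have hX0 : X 0 ≤ x := by
    have := O.mono.monotone (Nat.zero_le (j + i₀ + 2))
    omega
  obtain ⟨i, hi1, hi2⟩ := O.exists_stage hX0
  have hii : j + i₀ + 2 ≤ i := by
    by_contra h
    push Not at h
    have := O.mono.monotone (show i + 1 ≤ j + i₀ + 2 by omega)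
    omega
  obtain ⟨m, hm⟩ : ∃ m, i = m + 1 := ⟨i - 1, by omega⟩
  rw [hm] at hi1 hii
  -- the two kinds of sums
  have hfin := (hcard x hxx0).1
  have hcd := (hcard x hxx0).2
  have hsub : {n : ℕ | n ≤ x ∧ ∃ a ∈ PP φ, ∃ b ∈ PP φ, a + b = n} ⊆
      {n | n ≤ x ∧ n ∈ bohr (√2) θ} ∪ (fun z : ℕ × ℕ => z.1 + z.2) '' (↑(range (X m)) ×ˢ {a | a ≤ x ∧ a ∈ PP φ}) := by
    rintro n ⟨hn, a, ha, b, hb, hab⟩
    by_cases hbig : X m ≤ a ∧ X m ≤ b
    · left
      refine ⟨hn, ?_⟩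
      have h1 := O.mem_of_ge ha hbig.1
      have h2 := O.mem_of_ge hb hbig.2
      have h3 := mem_bohr_add h1 h2
      rw [hab] at h3
      refine bohr_mono ?_ h3
      have h4 : 1 / ((m : ℝ) + 1) ≤ 1 / ((j : ℝ) + 1) := by
        apply one_div_le_one_div_of_le (by positivity)
        have : (j : ℝ) ≤ m := by exact_mod_cast (by omega : j ≤ m)
        linarith
      linarith
    · right
      rcases Classical.not_and_iff_not_or_not.1 hbig with h | h
      · exact ⟨(a, b), ⟨by simpa using h, by omega, hb⟩, hab⟩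
      · exact ⟨(b, a), ⟨by simpa using h, by omega, ha⟩, by simp only; omega⟩
  have hfin2 : ((↑(range (X m)) : Set ℕ) ×ˢ {a | a ≤ x ∧ a ∈ PP φ}).Finite := (finite_toSet _).prod hfin
  have hfin1 : {n | n ≤ x ∧ n ∈ bohr (√2) θ}.Finite := (Set.finite_Iic x).subset fun n hn => hn.1
  have h1 : {n : ℕ | n ≤ x ∧ ∃ a ∈ PP φ, ∃ b ∈ PP φ, a + b = n}.ncard ≤
      (x / L + 1) + X m * {a | a ≤ x ∧ a ∈ PP φ}.ncard := by
    refine (Set.ncard_le_ncard hsub (hfin1.union (hfin2.image _))).trans ?_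
    refine (Set.ncard_union_le _ _).trans ?_
    refine add_le_add (card_spaced hL1 (fun a ha b hb hab => hsp a b hab ha hb) x) ?_
    refine (Set.ncard_image_le hfin2).trans ?_
    rw [Set.ncard_prod, Set.ncard_coe_finset, card_range]
  have hxR : (0 : ℝ) < x := by exact_mod_cast (by omega : 0 < x)
  have h2 : ((x / L : ℕ) : ℝ) ≤ x / L := Nat.cast_div_le
  -- the size of `X m`
  have hmpos : (0 : ℝ) < m := by exact_mod_cast (by omega : 0 < m)
  have h3 : (m : ℝ) * X m ≤ Real.log x := by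
    have h4 : 3 ^ (m * X m) ≤ x := (hg m).trans hi1
    have h5 : (3 : ℝ) ^ (m * X m) ≤ x := by exact_mod_cast h4
    have h6 := Real.log_le_log (by positivity) h5
    rw [Real.log_pow] at h6
    push_cast at h6
    have h7 : (1 : ℝ) ≤ Real.log 3 := by
      rw [Real.le_log_iff_exp_le (by norm_num)]
      have := Real.exp_one_lt_d9
      linarith
    have h8 : (0 : ℝ) ≤ (m : ℝ) * X m := by positivity
    nlinarith
  have hlogx : 0 < Real.log x := Real.log_pos (by exact_mod_cast (by omega : 1 < x))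
  have h4 : (X m : ℝ) * ({a | a ≤ x ∧ a ∈ PP φ}.ncard : ℝ) ≤ 6 * x / m := by
    calc (X m : ℝ) * ({a | a ≤ x ∧ a ∈ PP φ}.ncard : ℝ) ≤ X m * (6 * x / Real.log x) := by gcongr
      _ ≤ 6 * x / m := by
          rw [mul_div_assoc', div_le_div_iff₀ hlogx hmpos]
          nlinarith
  rw [dist_zero_right, Real.norm_of_nonneg (by positivity), div_lt_iff₀ hxR]
  have h5 : ({n : ℕ | n ≤ x ∧ ∃ a ∈ PP φ, ∃ b ∈ PP φ, a + b = n}.ncard : ℝ) ≤
      (((x / L : ℕ) : ℝ) + 1) + X m * ({a | a ≤ x ∧ a ∈ PP φ}.ncard : ℝ) := by exact_mod_cast h1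
  have h6 : (x : ℝ) / L ≤ ε / 4 * x := by
    rw [div_le_iff₀ hLR]
    have : 4 < ε * L := by
      rw [div_lt_iff₀ hε] at hL
      linarith
    nlinarith
  have h7 : (1 : ℝ) ≤ ε / 4 * x := by
    have h8 : (x₁ : ℝ) ≤ x := by exact_mod_cast (by omega : x₁ ≤ x)
    have : 4 < ε * x₁ := by
      rw [div_lt_iff₀ hε] at hx₁
      linarith
    nlinarith
  have h8 : 6 * (x : ℝ) / m ≤ ε / 4 * x := by
    rw [div_le_iff₀ hmpos]
    have h9 : (i₀ : ℝ) ≤ m := by exact_mod_cast (by omega : i₀ ≤ m)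
    have : 24 < ε * i₀ := by
      rw [div_lt_iff₀ hε] at hi₀
      linarith
    have h10 : 24 < ε * m := by nlinarith
    nlinarith
  nlinarith

end

end Pool.Agent.H67.BB
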