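import Pool.Agent.H67.BB.Euler

set_option autoImplicit false

/-!
The quotient of the Euler products when all primes are moved, but only by `O(log p)`.
-/

namespace Pool.Agent.H67.BB

open Filter Topology

/-- `φ` moves the primes by little, and preserves almost all residues -/
structure Move2 (φ : ℕ → ℕ) : Prop where
  two : ∀ r : ℕ, r.Prime → 2 ≤ φ r
  low : ∀ r : ℕ, r.Prime → r ≤ 2 * φ r
  disp : ∀ r : ℕ, r.Prime → |(φ r : ℝ) - r| ≤ Real.log r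
  fin : ∀ q : ℕ, 0 < q → {r : ℕ | r.Prime ∧ ¬ φ r ≡ r [MOD q]}.Finite

lemma one_add_ff2 {φ : ℕ → ℕ} (hφ : Move2 φ) {χ : ℕ → ℂ} (hχ : ∀ n, ‖χ n‖ ≤ 1) (r : Nat.Primes) {s : ℂ}
    (hs : 0 < s.re) : 1 + ff φ χ r s = (1 - tm χ r s) / (1 - tm χ (φ r) s) := by
  unfold ff
  have := one_sub_tm_ne hχ (hφ.two r r.2) hs
  field_simp
  ring

lemma one_add_ff_ne2 {φ : ℕ → ℕ} (hφ : Move2 φ) {χ : ℕ → ℂ} (hχ : ∀ n, ‖χ n‖ ≤ 1) (r : Nat.Primes) {s : ℂ}
    (hs : 0 < s.re) : 1 + ff φ χ r s ≠ 0 := by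
  rw [one_add_ff2 hφ hχ r hs]
  exact div_ne_zero (one_sub_tm_ne hχ r.2.two_le hs) (one_sub_tm_ne hχ (hφ.two r r.2) hs)

/-- the majorant -/
noncomputable def vv (σ : ℝ) (r : Nat.Primes) : ℝ := Real.log ((r : ℕ) : ℝ) * (((r : ℕ) : ℝ) / 2) ^ (-σ - 1)

lemma vv_nonneg (σ : ℝ) (r : Nat.Primes) : 0 ≤ vv σ r := by
  unfold vv
  have : (1 : ℝ) ≤ ((r : ℕ) : ℝ) := by exact_mod_cast r.2.one_le
  have := Real.log_nonneg this
  positivity

lemma summable_vv {σ : ℝ} (hσ : 0 < σ) : Summable (vv σ) := by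
  have h1 : Summable (fun n : ℕ => (n : ℝ) ^ (-(1 + σ / 2))) := by
    rw [Real.summable_nat_rpow]
    linarith
  have h2 : Summable (fun r : Nat.Primes => ((r : ℕ) : ℝ) ^ (-(1 + σ / 2))) :=
    h1.comp_injective Subtype.val_injective
  refine (h2.mul_left (2 ^ (σ + 1) * (2 / σ))).of_nonneg_of_le (vv_nonneg σ) fun r => ?_
  unfold vv
  have hr : (0 : ℝ) < ((r : ℕ) : ℝ) := by exact_mod_cast r.2.pos
  have h3 : Real.log ((r : ℕ) : ℝ) ≤ ((r : ℕ) : ℝ) ^ (σ / 2) / (σ / 2) :=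
    Real.log_le_rpow_div hr.le (by positivity)
  have h4 : (((r : ℕ) : ℝ) / 2) ^ (-σ - 1) = 2 ^ (σ + 1) * ((r : ℕ) : ℝ) ^ (-σ - 1) := by
    rw [Real.div_rpow hr.le (by norm_num), div_eq_mul_inv, ← Real.rpow_neg (by norm_num), mul_comm]
    congr 2
    ring
  rw [h4]
  have h5 : (0 : ℝ) ≤ 2 ^ (σ + 1) * ((r : ℕ) : ℝ) ^ (-σ - 1) := by positivity
  calc _ ≤ ((r : ℕ) : ℝ) ^ (σ / 2) / (σ / 2) * (2 ^ (σ + 1) * ((r : ℕ) : ℝ) ^ (-σ - 1)) := by gcongr
    _ = 2 ^ (σ + 1) * (2 / σ) * (((r : ℕ) : ℝ) ^ (σ / 2) * ((r : ℕ) : ℝ) ^ (-σ - 1)) := by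
      field_simp
    _ = _ := by
      rw [← Real.rpow_add hr]
      congr 2
      ring

lemma norm_ff_le2 {φ : ℕ → ℕ} (hφ : Move2 φ) {χ : ℕ → ℂ} (hχ : ∀ n, ‖χ n‖ ≤ 1) (r : Nat.Primes)
    {s : ℂ} {σ B : ℝ} (hσ : 0 < σ) (hs : σ ≤ s.re) (hB : ‖s‖ ≤ B) (hr : χ (φ r) = χ r) :
    ‖ff φ χ r s‖ ≤ (B / (1 - (2 : ℝ) ^ (-σ))) * vv σ r := by
  unfold ff
  have ha := hφ.two r r.2
  have hl := hφ.low r r.2
  have hd := hφ.disp r r.2
  have hr2 := r.2.two_le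
  have hrp : (0 : ℝ) < ((r : ℕ) : ℝ) := by exact_mod_cast r.2.pos
  have h4 := le_norm_one_sub hχ ha hσ.le hs
  have h5 := two_rpow_neg_lt hσ
  have h6 : 0 < 1 - (2 : ℝ) ^ (-σ) := by linarith
  have h7 : 0 < ‖1 - tm χ (φ r) s‖ := by linarith
  have hB0 : 0 ≤ B := (norm_nonneg _).trans hB
  have h8 : ‖tm χ (φ r) s - tm χ r s‖ ≤ B * vv σ r := by
    unfold tm
    rw [hr, ← mul_sub, norm_mul]
    have h9 := cpow_sub_le (m := ((r : ℕ) : ℝ) / 2) (x := (φ r : ℝ)) (y := ((r : ℕ) : ℝ)) (by positivity)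
      (by rw [div_le_iff₀ (by norm_num), mul_comm]; exact_mod_cast hl) (by linarith) (lt_of_lt_of_le hσ hs)
    simp only [Complex.ofReal_natCast] at h9
    have h10 : (((r : ℕ) : ℝ) / 2) ^ (-s.re - 1) ≤ (((r : ℕ) : ℝ) / 2) ^ (-σ - 1) := by
      apply Real.rpow_le_rpow_of_exponent_le
      · rw [le_div_iff₀ (by norm_num), one_mul]; exact_mod_cast hr2
      · linarith
    have h11 : 0 ≤ (((r : ℕ) : ℝ) / 2) ^ (-s.re - 1) := by positivity
    calc _ ≤ 1 * (‖s‖ * (((r : ℕ) : ℝ) / 2) ^ (-s.re - 1) * |(φ r : ℝ) - (r : ℕ)|) :=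
          mul_le_mul (hχ _) h9 (norm_nonneg _) zero_le_one
      _ ≤ 1 * (B * (((r : ℕ) : ℝ) / 2) ^ (-σ - 1) * Real.log ((r : ℕ) : ℝ)) := by
          apply mul_le_mul_of_nonneg_left _ zero_le_one
          apply mul_le_mul _ hd (abs_nonneg _) (by positivity)
          exact mul_le_mul hB h10 h11 hB0
      _ = B * vv σ r := by unfold vv; ring
  rw [norm_div, div_le_iff₀ h7]
  have h13 : 0 ≤ B * vv σ r := mul_nonneg hB0 (vv_nonneg σ r)
  calc _ ≤ B * vv σ r := h8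
    _ = (B / (1 - (2 : ℝ) ^ (-σ))) * vv σ r * (1 - (2 : ℝ) ^ (-σ)) := by
        field_simp
    _ ≤ _ := by
        apply mul_le_mul_of_nonneg_left h4
        have := vv_nonneg σ r
        positivity

lemma differentiableOn_ff2 {φ : ℕ → ℕ} (hφ : Move2 φ) {χ : ℕ → ℂ} (hχ : ∀ n, ‖χ n‖ ≤ 1) (r : Nat.Primes) :
    DifferentiableOn ℂ (ff φ χ r) {s : ℂ | 0 < s.re} := by
  intro s hs
  have h1 := hφ.two r r.2
  have h2 := r.2.pos
  apply DifferentiableAt.differentiableWithinAt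
  unfold ff
  refine DifferentiableAt.div ?_ ?_ (one_sub_tm_ne hχ h1 hs)
  · exact ((differentiable_tm χ (by omega)) s).sub ((differentiable_tm χ h2) s)
  · exact (differentiableAt_const _).sub ((differentiable_tm χ (by omega)) s)

lemma summable_ff2 {φ : ℕ → ℕ} (hφ : Move2 φ) {χ : ℕ → ℂ} (hχ : ∀ n, ‖χ n‖ ≤ 1)
    (hc : ∀ᶠ r : Nat.Primes in cofinite, χ (φ r) = χ r) {s : ℂ} (hs : 0 < s.re) :
    Summable (fun r : Nat.Primes => ‖ff φ χ r s‖) := by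
  refine ((summable_vv hs).mul_left (‖s‖ / (1 - (2 : ℝ) ^ (-s.re)))).of_norm_bounded_eventually ?_
  filter_upwards [hc] with r hr
  rw [norm_norm]
  exact norm_ff_le2 hφ hχ r hs le_rfl le_rfl hr

lemma differentiableOn_GG2 {φ : ℕ → ℕ} (hφ : Move2 φ) {χ : ℕ → ℂ} (hχ : ∀ n, ‖χ n‖ ≤ 1)
    (hc : ∀ᶠ r : Nat.Primes in cofinite, χ (φ r) = χ r) :
    DifferentiableOn ℂ (GG φ χ) {s : ℂ | 0 < s.re} := by
  intro s hs
  have hs : 0 < s.re := hs
  set K : Set ℂ := {z : ℂ | s.re / 2 < z.re} ∩ Metric.ball 0 (‖s‖ + 1) with hK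
  have hKo : IsOpen K := (isOpen_lt continuous_const Complex.continuous_re).inter Metric.isOpen_ball
  have hsK : s ∈ K := by
    refine ⟨?_, ?_⟩
    · show s.re / 2 < s.re
      linarith
    · simp
  have hKsub : K ⊆ {z : ℂ | 0 < z.re} := by
    rintro z ⟨hz, _⟩
    have hz : s.re / 2 < z.re := hz
    show 0 < z.re
    linarith
  have hu := (summable_vv (half_pos hs)).mul_left ((‖s‖ + 1) / (1 - (2 : ℝ) ^ (-(s.re / 2))))
  have hlu := Summable.hasProdLocallyUniformlyOn_one_add (f := fun r : Nat.Primes => ff φ χ r) hKo hu (by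
    filter_upwards [hc] with r hr
    intro z hz
    refine norm_ff_le2 hφ hχ r (half_pos hs) (le_of_lt hz.1) ?_ hr
    have := hz.2
    simp only [Metric.mem_ball, dist_zero_right] at this
    exact this.le) (fun r => ((differentiableOn_ff2 hφ hχ r).mono hKsub).continuousOn)
  rw [hasProdLocallyUniformlyOn_iff_tendstoLocallyUniformlyOn] at hlu
  have hd := hlu.differentiableOn (Eventually.of_forall fun F => by
    refine DifferentiableOn.fun_finsetProd fun r _ => ?_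
    exact (differentiableOn_const _).add ((differentiableOn_ff2 hφ hχ r).mono hKsub)) hKo
  exact (hd.differentiableAt (hKo.mem_nhds hsK)).differentiableWithinAt

/-- **The factor.** -/
theorem euler2 {φ : ℕ → ℕ} (hφ : Move2 φ) (q : ℕ) [NeZero q] (χ : DirichletCharacter ℂ q) :
    ∃ G : ℂ → ℂ, DifferentiableOn ℂ G {s : ℂ | 0 < s.re} ∧ (∀ s : ℂ, 0 < s.re → G s ≠ 0) ∧
      ∀ s : ℂ, 1 < s.re → HasProd (fun r : Nat.Primes => (1 - χ (φ r) * (φ r : ℂ) ^ (-s))⁻¹)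
        (χ.LFunction s * G s) := by
  have hχ : ∀ n : ℕ, ‖(fun n : ℕ => χ (n : ZMod q)) n‖ ≤ 1 := fun n => χ.norm_le_one _
  have hc : ∀ᶠ r : Nat.Primes in cofinite, (fun n : ℕ => χ (n : ZMod q)) (φ r) = (fun n : ℕ => χ (n : ZMod q)) r := by
    have h1 := hφ.fin q (NeZero.pos q)
    have h2 : {r : Nat.Primes | ¬ φ r ≡ r [MOD q]}.Finite := by
      refine Set.Finite.of_finite_image (f := fun r : Nat.Primes => (r : ℕ)) ?_ (Subtype.val_injective.injOn)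
      refine h1.subset ?_
      rintro _ ⟨r, hr, rfl⟩
      exact ⟨r.2, hr⟩
    have h3 := h2.compl_mem_cofinite
    filter_upwards [h3] with r hr
    have hr : φ r ≡ r [MOD q] := by
      by_contra h
      exact hr h
    show χ _ = χ _
    rw [(ZMod.natCast_eq_natCast_iff _ _ _).2 hr]
  refine ⟨GG φ (fun n : ℕ => χ (n : ZMod q)), differentiableOn_GG2 hφ hχ hc,
    fun s hs => tprod_one_add_ne_zero_of_summable (fun r => one_add_ff_ne2 hφ hχ r hs) (summable_ff2 hφ hχ hc hs),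
    fun s hs => ?_⟩
  have h1 := DirichletCharacter.LSeries_eulerProduct_hasProd χ hs
  rw [← DirichletCharacter.LFunction_eq_LSeries χ hs] at h1
  have hG : HasProd (fun r : Nat.Primes => 1 + ff φ (fun n : ℕ => χ (n : ZMod q)) r s)
      (GG φ (fun n : ℕ => χ (n : ZMod q)) s) :=
    (multipliable_one_add_of_summable (summable_ff2 hφ hχ hc (by linarith : 0 < s.re))).hasProd
  have h2 := h1.mul hG
  convert! h2 using 2 with r
  rw [one_add_ff2 hφ hχ r (by linarith)]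
  have h3 := one_sub_tm_ne hχ r.2.two_le (by linarith : 0 < s.re)
  have h4 := one_sub_tm_ne hχ (hφ.two r r.2) (by linarith : 0 < s.re)
  unfold tm at h3 h4 ⊢
  rw [← mul_div_assoc, inv_mul_cancel₀ h3, one_div]

end Pool.Agent.H67.BB
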