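import Pool.Agent.H67.BB.Gen
import Pool.Agent.H67.BB.Euler2

set_option autoImplicit false

/-!
Counting of generalised integers and size of the factor, when the set of the moved primes is thin.
-/

namespace Pool.Agent.H67.BB

open Finset Filter Topology

/-- `T w x = ρ x + O(x ^ σ)` with constant `K` -/
structure GoodS (σ : ℝ) (w : ℕ → ℕ) (ρ K : ℝ) : Prop where
  cube : ∀ p : ℕ, p.Prime → p ≤ (w p) ^ 3
  nonneg : 0 ≤ ρ
  le : ρ ≤ K
  bound : ∀ x : ℝ, 0 ≤ x → |(T w x : ℝ) - ρ * x| ≤ K * x ^ σ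

lemma le_rpow_self {x σ : ℝ} (hx : 0 ≤ x) (hx1 : x ≤ 1) (_hσ : 0 < σ) (hσ1 : σ ≤ 1) : x ≤ x ^ σ := by
  rcases eq_or_lt_of_le hx with h | h
  · rw [← h]; positivity
  · calc x = x ^ (1 : ℝ) := (Real.rpow_one x).symm
      _ ≤ x ^ σ := Real.rpow_le_rpow_of_exponent_ge h hx1 hσ1

lemma goodS_id {σ : ℝ} (hσ : 0 < σ) (hσ1 : σ ≤ 1) : GoodS σ (fun p => p) 1 1 where
  cube := fun p _ => Nat.le_self_pow (by norm_num) p
  nonneg := zero_le_one
  le := le_rfl
  bound := by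
    intro x hx
    have h1 : T (fun p => p) x = ⌊x⌋₊ := by
      unfold T
      have : A (fun p => p) x = ↑(Finset.Icc 1 ⌊x⌋₊) := by
        ext n
        simp only [A, Set.mem_ofPred_eq, Finset.coe_Icc, Set.mem_Icc]
        constructor
        · rintro ⟨h0, h⟩
          rw [gen_id n h0] at h
          exact ⟨by omega, Nat.le_floor h⟩
        · rintro ⟨h0, h⟩
          have h0 : n ≠ 0 := by omega
          refine ⟨h0, ?_⟩
          rw [gen_id n h0]
          exact (Nat.le_floor_iff hx).1 h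
      rw [this, Set.ncard_coe_finset, Nat.card_Icc]
      simp
    rw [h1, one_mul, one_mul]
    have h2 := Nat.floor_le hx
    have h3 := Nat.lt_floor_add_one x
    rw [abs_le]
    rcases lt_or_ge x 1 with h | h
    · have h4 : ⌊x⌋₊ = 0 := Nat.floor_eq_zero.2 h
      rw [h4]
      have h5 := le_rpow_self hx h.le hσ hσ1
      constructor
      · push_cast; linarith
      · push_cast
        linarith
    · have : 1 ≤ x ^ σ := Real.one_le_rpow h hσ.le
      constructor <;> linarith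

lemma goodS_step {σ : ℝ} (hσ : 0 < σ) (hσ1 : σ ≤ 1) {w w' : ℕ → ℕ} {ρ K : ℝ} (hg : GoodS σ w ρ K) {r : ℕ}
    (hr : r.Prime) (hwr : w r = r)
    (h2 : 2 ≤ w' r) (hcube : r ≤ (w' r) ^ 3) (h : ∀ p, p.Prime → p ≠ r → w p = w' p) :
    GoodS σ w' (ρ * ((1 - 1 / (r : ℝ)) / (1 - 1 / (w' r : ℝ))))
      (K * ((1 + 1 / (r : ℝ) ^ σ) / (1 - 1 / (w' r : ℝ) ^ σ))) := by
  obtain ⟨a, ha⟩ : ∃ a : ℕ, a = w' r := ⟨_, rfl⟩
  rw [← ha] at h2 hcube ⊢
  have hcube' : ∀ p : ℕ, p.Prime → p ≤ (w' p) ^ 3 := by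
    intro p hp
    by_cases hpr : p = r
    · subst hpr; rw [← ha]; exact hcube
    · rw [← h p hp hpr]; exact hg.cube p hp
  have hr2 : (2 : ℝ) ≤ r := by exact_mod_cast hr.two_le
  have ha2 : (2 : ℝ) ≤ a := by exact_mod_cast h2
  have hrp : (0 : ℝ) < r := by linarith
  have hap : (0 : ℝ) < a := by linarith
  have hsr : 1 < (r : ℝ) ^ σ := Real.one_lt_rpow (by linarith) hσ
  have hsa : 1 < (a : ℝ) ^ σ := Real.one_lt_rpow (by linarith) hσ
  have h1a : 1 / (a : ℝ) ^ σ < 1 := by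
    rw [div_lt_one (by linarith)]; exact hsa
  have h1r0 : 0 < 1 / (r : ℝ) ^ σ := by positivity
  have h1a0 : 0 < 1 / (a : ℝ) ^ σ := by positivity
  have h2a : 1 / (a : ℝ) ≤ 1 / (a : ℝ) ^ σ := by
    apply one_div_le_one_div_of_le (by linarith)
    calc (a : ℝ) ^ σ ≤ (a : ℝ) ^ (1 : ℝ) := Real.rpow_le_rpow_of_exponent_le (by linarith) hσ1
      _ = a := Real.rpow_one _
  have h2r0 : 0 < 1 / (r : ℝ) := by positivity
  have h2r1 : 1 / (r : ℝ) < 1 := by rw [div_lt_one hrp]; linarith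
  have h2a0 : 0 < 1 / (a : ℝ) := by positivity
  have hK : 0 ≤ K := hg.nonneg.trans hg.le
  set κ := K * ((1 + 1 / (r : ℝ) ^ σ) / (1 - 1 / (a : ℝ) ^ σ)) with hκ
  set ρ' := ρ * ((1 - 1 / (r : ℝ)) / (1 - 1 / (a : ℝ))) with hρ'
  have hfrac : (1 - 1 / (r : ℝ)) / (1 - 1 / (a : ℝ)) ≤ (1 + 1 / (r : ℝ) ^ σ) / (1 - 1 / (a : ℝ) ^ σ) := by
    apply div_le_div₀ <;> linarith
  have hfrac0 : 0 ≤ (1 - 1 / (r : ℝ)) / (1 - 1 / (a : ℝ)) := by
    apply div_nonneg <;> linarith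
  have hle : ρ' ≤ κ := by
    rw [hρ', hκ]
    exact mul_le_mul hg.le hfrac hfrac0 hK
  have hρ0 : 0 ≤ ρ' := mul_nonneg hg.nonneg hfrac0
  have hκ0 : 0 ≤ κ := hρ0.trans hle
  have hκe : κ * (1 / (a : ℝ) ^ σ) + K * (1 + 1 / (r : ℝ) ^ σ) = κ := by
    have : κ * (1 - 1 / (a : ℝ) ^ σ) = K * (1 + 1 / (r : ℝ) ^ σ) := by
      rw [hκ, mul_assoc, div_mul_cancel₀ _ (by linarith)]
    linarith
  have hρe : ρ' * (1 - 1 / (a : ℝ)) = ρ * (1 - 1 / (r : ℝ)) := by
    rw [hρ', mul_assoc, div_mul_cancel₀ _ (by linarith)]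
  refine ⟨hcube', hρ0, hle, ?_⟩
  have key : ∀ N : ℕ, ∀ x : ℝ, 0 ≤ x → x < N + 1 → |(T w' x : ℝ) - ρ' * x| ≤ κ * x ^ σ := by
    intro N
    induction N with
    | zero =>
      intro x hx hx1
      rw [T_eq_zero hcube' (by simpa using hx1)]
      have h5 := le_rpow_self hx (by have : x < 1 := by simpa using hx1
                                     linarith) hσ hσ1
      rw [Nat.cast_zero, zero_sub, abs_neg, abs_of_nonneg (mul_nonneg hρ0 hx)]
      exact mul_le_mul hle h5 hx hκ0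
    | succ N ih =>
      intro x hx hx1
      rcases lt_or_ge x 1 with h1 | h1
      · rw [T_eq_zero hcube' h1]
        have h5 := le_rpow_self hx h1.le hσ hσ1
        rw [Nat.cast_zero, zero_sub, abs_neg, abs_of_nonneg (mul_nonneg hρ0 hx)]
        exact mul_le_mul hle h5 hx hκ0
      have hu := T_update hg.cube hcube' hr h x
      rw [hwr, ← ha] at hu
      have e1 := hg.bound x hx
      have e2 := hg.bound (x / r) (by positivity)
      have e3 := ih (x / a) (by positivity) (by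
        push_cast at hx1
        rw [div_lt_iff₀ hap]
        nlinarith)
      rw [Real.div_rpow hx (by positivity)] at e2 e3
      rw [hu]
      have e4 : (T w x : ℝ) - (T w (x / r) : ℝ) + (T w' (x / a) : ℝ) - ρ' * x =
          ((T w x : ℝ) - ρ * x) - ((T w (x / r) : ℝ) - ρ * (x / r)) + ((T w' (x / a) : ℝ) - ρ' * (x / a)) := by
        have : ρ' * x = ρ' * (x / a) + (ρ' * (1 - 1 / (a : ℝ))) * x := by field_simp; ring
        rw [this, hρe]
        field_simp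
        ring
      rw [e4]
      calc _ ≤ K * x ^ σ + K * (x ^ σ / (r : ℝ) ^ σ) + κ * (x ^ σ / (a : ℝ) ^ σ) := by
            refine (abs_add_le _ _).trans ?_
            refine add_le_add ((abs_sub _ _).trans (add_le_add e1 e2)) e3
        _ = (κ * (1 / (a : ℝ) ^ σ) + K * (1 + 1 / (r : ℝ) ^ σ)) * x ^ σ := by ring
        _ = κ * x ^ σ := by rw [hκe]
  intro x hx
  exact key ⌊x⌋₊ x hx (Nat.lt_floor_add_one x)

/-- the factor of a prime in the constant -/
noncomputable def kfacS (σ : ℝ) (φ : ℕ → ℕ) (r : ℕ) : ℝ :=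
  if φ r = r then 1 else (1 + 1 / (r : ℝ) ^ σ) / (1 - 1 / (φ r : ℝ) ^ σ)

lemma goodS_F {σ : ℝ} (hσ : 0 < σ) (hσ1 : σ ≤ 1) {φ : ℕ → ℕ} (h2 : ∀ r : ℕ, r.Prime → 2 ≤ φ r)
    (hc : ∀ r : ℕ, r.Prime → r ≤ (φ r) ^ 3) (F : Finset Nat.Primes) :
    GoodS σ (wF φ F) (∏ r ∈ F, rfac φ r) (∏ r ∈ F, kfacS σ φ r) := by
  classical
  induction F using Finset.induction_on with
  | empty =>
    have : wF φ ∅ = fun p => p := by
      funext p
      simp [wF]
    rw [this]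
    simpa using goodS_id hσ hσ1
  | insert r F hr ih =>
    rw [Finset.prod_insert hr, Finset.prod_insert hr, mul_comm (rfac φ r), mul_comm (kfacS σ φ r)]
    have hwr : wF φ F r = r := by
      unfold wF
      rw [if_neg]
      rintro ⟨s, hs, hsr⟩
      exact hr (by rwa [← Subtype.ext hsr])
    have hwr' : wF φ (insert r F) r = φ r := by
      unfold wF
      rw [if_pos ⟨r, Finset.mem_insert_self _ _, rfl⟩]
    have hoff : ∀ p : ℕ, p.Prime → p ≠ (r : ℕ) → wF φ F p = wF φ (insert r F) p := by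
      intro p hp hpr
      unfold wF
      have : (∃ s ∈ F, (s : ℕ) = p) ↔ (∃ s ∈ insert r F, (s : ℕ) = p) := by
        constructor
        · rintro ⟨s, hs, h⟩
          exact ⟨s, Finset.mem_insert_of_mem hs, h⟩
        · rintro ⟨s, hs, h⟩
          rcases Finset.mem_insert.1 hs with h1 | h1
          · exfalso
            apply hpr
            rw [← h, h1]
          · exact ⟨s, h1, h⟩
      simp only [this]
    by_cases hfix : φ r = r
    · have e1 : rfac φ r = 1 := by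
        unfold rfac
        rw [hfix]
        have : (2 : ℝ) ≤ (r : ℕ) := by exact_mod_cast r.2.two_le
        have h3 : 1 / ((r : ℕ) : ℝ) < 1 := by rw [div_lt_one (by linarith)]; linarith
        exact div_self (by linarith)
      have e2 : kfacS σ φ r = 1 := by unfold kfacS; rw [if_pos hfix]
      rw [e1, e2, mul_one, mul_one]
      have : wF φ (insert r F) = wF φ F := by
        funext p
        by_cases hpr : p = r
        · rw [hpr, hwr, hwr', hfix]
        · unfold wF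
          have : (∃ s ∈ F, (s : ℕ) = p) ↔ (∃ s ∈ insert r F, (s : ℕ) = p) := by
            constructor
            · rintro ⟨s, hs, h⟩
              exact ⟨s, Finset.mem_insert_of_mem hs, h⟩
            · rintro ⟨s, hs, h⟩
              rcases Finset.mem_insert.1 hs with h1 | h1
              · exfalso
                apply hpr
                rw [← h, h1]
              · exact ⟨s, h1, h⟩
          simp only [this]
      rw [this]
      exact ih
    · have := goodS_step hσ hσ1 (w' := wF φ (insert r F)) ih r.2 hwr (by rw [hwr']; exact h2 r r.2)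
        (by rw [hwr']; exact hc r r.2) hoff
      rw [hwr'] at this
      have e2 : kfacS σ φ r = (1 + 1 / ((r : ℕ) : ℝ) ^ σ) / (1 - 1 / (φ r : ℝ) ^ σ) := by
        unfold kfacS; rw [if_neg hfix]
      rw [e2]
      exact this

/-- `r ^ (-σ)` for the moved primes and `0` for the others -/
noncomputable def uS (σ : ℝ) (φ : ℕ → ℕ) (r : Nat.Primes) : ℝ := if φ r = r then 0 else ((r : ℕ) : ℝ) ^ (-σ)

lemma uS_nonneg (σ : ℝ) (φ : ℕ → ℕ) (r : Nat.Primes) : 0 ≤ uS σ φ r := by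
  unfold uS
  split_ifs
  · exact le_rfl
  · positivity

section

variable {φ : ℕ → ℕ} (hφ : Move2 φ)

include hφ

lemma rpow_phi_le {σ : ℝ} (hσ : 0 ≤ σ) (hσ1 : σ ≤ 1) (r : Nat.Primes) :
    (φ r : ℝ) ^ (-σ) ≤ 2 * ((r : ℕ) : ℝ) ^ (-σ) := by
  have hl := hφ.low r r.2
  have ha := hφ.two r r.2
  have hrp : (0 : ℝ) < ((r : ℕ) : ℝ) := by exact_mod_cast r.2.pos
  have hap : (0 : ℝ) < (φ r : ℝ) := by exact_mod_cast (by omega : 0 < φ r)
  have h1 : ((r : ℕ) : ℝ) / 2 ≤ φ r := by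
    rw [div_le_iff₀ (by norm_num), mul_comm]; exact_mod_cast hl
  calc (φ r : ℝ) ^ (-σ) ≤ (((r : ℕ) : ℝ) / 2) ^ (-σ) :=
        Real.rpow_le_rpow_of_nonpos (by positivity) h1 (by linarith)
    _ = 2 ^ σ * ((r : ℕ) : ℝ) ^ (-σ) := by
        rw [Real.div_rpow hrp.le (by norm_num), div_eq_mul_inv, ← Real.rpow_neg (by norm_num), neg_neg, mul_comm]
    _ ≤ 2 * ((r : ℕ) : ℝ) ^ (-σ) := by
        have h2 : (2 : ℝ) ^ σ ≤ 2 := by
          calc (2 : ℝ) ^ σ ≤ 2 ^ (1 : ℝ) := Real.rpow_le_rpow_of_exponent_le (by norm_num) hσ1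
            _ = 2 := Real.rpow_one _
        gcongr

omit hφ in
lemma two_rpow_neg_le {σ : ℝ} (hσ : 1 / 2 ≤ σ) : (2 : ℝ) ^ (-σ) ≤ 0.7072 := by
  calc (2 : ℝ) ^ (-σ) ≤ 2 ^ (-(1 / 2 : ℝ)) := Real.rpow_le_rpow_of_exponent_le (by norm_num) (by linarith)
    _ = √2 / 2 := by rw [Real.rpow_neg (by norm_num), ← Real.sqrt_eq_rpow, Real.sqrt_div_self', one_div]
    _ ≤ 0.7072 := by
      have : √2 ≤ 1.4144 := by
        rw [Real.sqrt_le_left (by norm_num)]; norm_num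
      linarith

lemma kfacS_le {σ : ℝ} (hσ : 1 / 2 ≤ σ) (hσ1 : σ ≤ 1) (r : Nat.Primes) :
    0 ≤ kfacS σ φ r ∧ kfacS σ φ r ≤ Real.exp (11 * uS σ φ r) := by
  have key : 0 ≤ kfacS σ φ r ∧ kfacS σ φ r ≤ 1 + 11 * uS σ φ r := by
    unfold kfacS uS
    split_ifs with h
    · simp
    · have h1 := rpow_phi_le hφ (by linarith) hσ1 r
      have ha := hφ.two r r.2
      have h2 := rpow_neg_le_two ha (by linarith : 0 ≤ σ)
      have h3 := two_rpow_neg_le hσ
      have hrp : (0 : ℝ) < ((r : ℕ) : ℝ) := by exact_mod_cast r.2.pos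
      have hap : (0 : ℝ) < (φ r : ℝ) := by exact_mod_cast (by omega : 0 < φ r)
      rw [one_div, one_div, ← Real.rpow_neg hrp.le, ← Real.rpow_neg hap.le]
      have h4 : 0 < ((r : ℕ) : ℝ) ^ (-σ) := by positivity
      constructor
      · apply div_nonneg <;> linarith
      · rw [div_le_iff₀ (by linarith)]
        nlinarith
  exact ⟨key.1, by linarith [Real.add_one_le_exp (11 * uS σ φ r)]⟩

lemma prod_kfacS_le {σ : ℝ} (hσ : 1 / 2 ≤ σ) (hσ1 : σ ≤ 1) (hs : Summable (uS σ φ)) (F : Finset Nat.Primes) :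
    ∏ r ∈ F, kfacS σ φ r ≤ Real.exp (11 * ∑' r, uS σ φ r) := by
  calc ∏ r ∈ F, kfacS σ φ r ≤ ∏ r ∈ F, Real.exp (11 * uS σ φ r) :=
        Finset.prod_le_prod (fun r _ => (kfacS_le hφ hσ hσ1 r).1) fun r _ => (kfacS_le hφ hσ hσ1 r).2
    _ = Real.exp (11 * ∑ r ∈ F, uS σ φ r) := by rw [← Real.exp_sum, Finset.mul_sum]
    _ ≤ _ := by
      gcongr
      exact hs.sum_le_tsum F fun r _ => uS_nonneg σ φ r

lemma cube_of_move : ∀ r : ℕ, r.Prime → r ≤ (φ r) ^ 3 := by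
  intro r hr
  have h1 := hφ.two r hr
  have h2 := hφ.low r hr
  nlinarith [Nat.mul_le_mul h1 (le_refl (φ r)), Nat.mul_le_mul h1 (le_refl (φ r * φ r))]

lemma T_eq_of_large2 (x : ℝ) : ∀ᶠ F : Finset Nat.Primes in atTop, T φ x = T (wF φ F) x := by
  classical
  have hc := cube_of_move hφ
  have hfin : {r : Nat.Primes | (r : ℕ) ≤ ⌊x⌋₊ ^ 3}.Finite :=
    Set.Finite.of_finite_image (f := fun r : Nat.Primes => (r : ℕ))
      ((Set.finite_Iic (⌊x⌋₊ ^ 3)).subset (by rintro _ ⟨r, hr, rfl⟩; exact hr)) Subtype.val_injective.injOn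
  filter_upwards [eventually_ge_atTop hfin.toFinset] with F hF
  have hg := goodS_F (σ := 1) one_pos le_rfl hφ.two hc F
  unfold T
  congr 1
  have hgen : ∀ n : ℕ, n ≠ 0 → n ≤ ⌊x⌋₊ ^ 3 → gen φ n = gen (wF φ F) n := by
    intro n h0 hn
    apply gen_congr
    intro p hp hpn
    unfold wF
    rw [if_pos]
    have h5 : (⟨p, hp⟩ : Nat.Primes) ∈ hfin.toFinset :=
      (Set.Finite.mem_toFinset (a := (⟨p, hp⟩ : Nat.Primes)) hfin).2
        ((Nat.le_of_dvd (Nat.pos_of_ne_zero h0) hpn).trans hn)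
    exact ⟨⟨p, hp⟩, hF h5, rfl⟩
  ext n
  constructor
  · rintro ⟨h0, hn⟩
    have h1 : n ≤ ⌊x⌋₊ ^ 3 := (le_gen_cube hc h0).trans (Nat.pow_le_pow_left (Nat.le_floor hn) 3)
    refine ⟨h0, ?_⟩
    rwa [← hgen n h0 h1]
  · rintro ⟨h0, hn⟩
    have h1 : n ≤ ⌊x⌋₊ ^ 3 := (le_gen_cube hg.cube h0).trans (Nat.pow_le_pow_left (Nat.le_floor hn) 3)
    refine ⟨h0, ?_⟩
    rwa [hgen n h0 h1]

lemma rfac_pos (r : Nat.Primes) : 0 < rfac φ r := by
  unfold rfac
  have hr : (2 : ℝ) ≤ ((r : ℕ) : ℝ) := by exact_mod_cast r.2.two_le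
  have ha : (2 : ℝ) ≤ (φ r : ℝ) := by exact_mod_cast hφ.two r r.2
  have h1 : 1 / ((r : ℕ) : ℝ) < 1 := by rw [div_lt_one (by linarith)]; linarith
  have h2 : 1 / (φ r : ℝ) < 1 := by rw [div_lt_one (by linarith)]; linarith
  apply div_pos <;> linarith

lemma summable_rfac : Summable (fun r : Nat.Primes => ‖rfac φ r - 1‖) := by
  have h := summable_ff2 hφ (χ := fun _ => 1) (by simp) (Eventually.of_forall fun _ => rfl) (s := 1) (by norm_num)
  refine h.congr fun r => ?_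
  have h2 := one_add_ff2 hφ (χ := fun _ => 1) (by simp) r (s := 1) (by norm_num)
  have h3 : ((rfac φ r - 1 : ℝ) : ℂ) = ff φ (fun _ => 1) r 1 := by
    have : ff φ (fun _ => 1) r 1 = (1 + ff φ (fun _ => 1) r 1) - 1 := by ring
    rw [this, h2]
    unfold rfac tm
    rw [Complex.cpow_neg_one, Complex.cpow_neg_one]
    push_cast
    simp
  rw [← h3, Complex.norm_real]

theorem countS (hs : ∀ σ : ℝ, 1 / 2 < σ → Summable (uS σ φ)) :
    ∃ ρ : ℝ, 0 < ρ ∧ ∀ σ : ℝ, 1 / 2 < σ → σ ≤ 1 → ∃ K : ℝ, ∀ x : ℝ, 0 ≤ x → |(T φ x : ℝ) - ρ * x| ≤ K * x ^ σ := by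
  have hm : HasProd (fun r : Nat.Primes => 1 + (rfac φ r - 1)) (∏' r : Nat.Primes, (1 + (rfac φ r - 1))) :=
    (multipliable_one_add_of_summable (summable_rfac hφ)).hasProd
  refine ⟨∏' r : Nat.Primes, (1 + (rfac φ r - 1)), ?_, fun σ h1 h2 =>
    ⟨Real.exp (11 * ∑' r, uS σ φ r), fun x hx => ?_⟩⟩
  · have h1 : ∏' r : Nat.Primes, (1 + (rfac φ r - 1)) ≠ 0 :=
      tprod_one_add_ne_zero_of_summable (fun r => by
        have := rfac_pos hφ r
        simpa using this.ne') (summable_rfac hφ)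
    have h2 : 0 ≤ ∏' r : Nat.Primes, (1 + (rfac φ r - 1)) := by
      refine ge_of_tendsto' hm fun F => ?_
      exact Finset.prod_nonneg fun r _ => by
        have := rfac_pos hφ r
        simpa using this.le
    exact lt_of_le_of_ne h2 h1.symm
  · have h3 : Tendsto (fun F : Finset Nat.Primes => |(T φ x : ℝ) - (∏ r ∈ F, (1 + (rfac φ r - 1))) * x|) atTop
        (𝓝 |(T φ x : ℝ) - (∏' r : Nat.Primes, (1 + (rfac φ r - 1))) * x|) :=
      ((hm.mul_const x).const_sub _).abs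
    refine le_of_tendsto h3 ?_
    filter_upwards [T_eq_of_large2 hφ x] with F hF
    have hg := (goodS_F (by linarith : 0 < σ) h2 hφ.two (cube_of_move hφ) F).bound x hx
    simp only [add_sub_cancel]
    rw [hF]
    refine hg.trans ?_
    gcongr
    exact prod_kfacS_le hφ h1.le h2 (hs σ h1) F

lemma norm_tm_sub_le {χ : ℕ → ℂ} (hχ : ∀ n, ‖χ n‖ ≤ 1) (r : Nat.Primes) {s : ℂ} {σ : ℝ} (hσ : 1 / 2 ≤ σ)
    (hσ1 : σ ≤ 1) (hs : σ ≤ s.re) :
    ‖tm χ (φ r) s - tm χ r s‖ ≤ 3 * ((r : ℕ) : ℝ) ^ (-σ) := by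
  have key : ∀ a : ℕ, 2 ≤ a → ‖tm χ a s‖ ≤ (a : ℝ) ^ (-σ) := by
    intro a ha
    have h1 := norm_tm_le hχ (by omega : 0 < a) s
    have h2 : (a : ℝ) ^ (-s.re) ≤ (a : ℝ) ^ (-σ) :=
      Real.rpow_le_rpow_of_exponent_le (by exact_mod_cast (by omega : 1 ≤ a)) (by linarith)
    linarith
  have h1 := key _ (hφ.two r r.2)
  have h2 := key _ r.2.two_le
  have h3 := rpow_phi_le hφ (by linarith : 0 ≤ σ) hσ1 r
  have h4 := norm_sub_le (tm χ (φ r) s) (tm χ r s)
  linarith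

lemma prod_bound {χ : ℕ → ℂ} (hχ : ∀ n, ‖χ n‖ ≤ 1) {s : ℂ} {σ : ℝ} (hσ : 1 / 2 ≤ σ)
    (hσ1 : σ ≤ 1) (hs : σ ≤ s.re) (hsum : Summable (uS σ φ)) (F : Finset Nat.Primes) :
    ‖∏ r ∈ F, (1 + ff φ χ r s)‖ ≤ Real.exp (11 * ∑' r, uS σ φ r) ∧
    ‖(∏ r ∈ F, (1 + ff φ χ r s))⁻¹‖ ≤ Real.exp (11 * ∑' r, uS σ φ r) := by
  have hs0 : 0 < s.re := by linarith
  have h3 := two_rpow_neg_le hσ
  have h1 : ∀ r : Nat.Primes, ‖1 + ff φ χ r s‖ ≤ Real.exp (11 * uS σ φ r) := by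
    intro r
    have : ‖ff φ χ r s‖ ≤ 11 * uS σ φ r := by
      unfold ff uS
      split_ifs with h
      · rw [h]; simp
      · have h4 := norm_tm_sub_le hφ hχ r hσ hσ1 hs
        have h5 := le_norm_one_sub hχ (hφ.two r r.2) (by linarith : 0 ≤ σ) hs
        have h6 : 0 < ((r : ℕ) : ℝ) ^ (-σ) := Real.rpow_pos_of_pos (by exact_mod_cast r.2.pos) _
        rw [norm_div, div_le_iff₀ (by linarith)]
        nlinarith
    have h2 := norm_add_le (1 : ℂ) (ff φ χ r s)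
    rw [norm_one] at h2
    linarith [Real.add_one_le_exp (11 * uS σ φ r)]
  have h2 : ∀ r : Nat.Primes, ‖(1 + ff φ χ r s)⁻¹‖ ≤ Real.exp (11 * uS σ φ r) := by
    intro r
    have hn := one_sub_tm_ne hχ r.2.two_le hs0
    have : (1 + ff φ χ r s)⁻¹ = 1 - (tm χ (φ r) s - tm χ r s) / (1 - tm χ r s) := by
      rw [one_add_ff2 hφ hχ r hs0, inv_div]
      field_simp
      ring
    rw [this]
    have h7 : ‖(tm χ (φ r) s - tm χ r s) / (1 - tm χ r s)‖ ≤ 11 * uS σ φ r := by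
      unfold uS
      split_ifs with h
      · rw [h]; simp
      · have h4 := norm_tm_sub_le hφ hχ r hσ hσ1 hs
        have h5 := le_norm_one_sub hχ r.2.two_le (by linarith : 0 ≤ σ) hs
        have h6 : 0 < ((r : ℕ) : ℝ) ^ (-σ) := Real.rpow_pos_of_pos (by exact_mod_cast r.2.pos) _
        rw [norm_div, div_le_iff₀ (by linarith)]
        nlinarith
    have h8 := norm_sub_le (1 : ℂ) ((tm χ (φ r) s - tm χ r s) / (1 - tm χ r s))
    rw [norm_one] at h8
    linarith [Real.add_one_le_exp (11 * uS σ φ r)]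
  have h4 : Real.exp (∑ r ∈ F, 11 * uS σ φ r) ≤ Real.exp (11 * ∑' r, uS σ φ r) := by
    rw [← Finset.mul_sum]
    gcongr
    exact hsum.sum_le_tsum F fun r _ => uS_nonneg σ φ r
  constructor
  · rw [norm_prod]
    calc ∏ r ∈ F, ‖1 + ff φ χ r s‖ ≤ ∏ r ∈ F, Real.exp (11 * uS σ φ r) :=
          Finset.prod_le_prod (fun _ _ => norm_nonneg _) fun r _ => h1 r
      _ = Real.exp (∑ r ∈ F, 11 * uS σ φ r) := by rw [Real.exp_sum]
      _ ≤ _ := h4
  · rw [← Finset.prod_inv_distrib, norm_prod]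
    calc ∏ r ∈ F, ‖(1 + ff φ χ r s)⁻¹‖ ≤ ∏ r ∈ F, Real.exp (11 * uS σ φ r) :=
          Finset.prod_le_prod (fun _ _ => norm_nonneg _) fun r _ => h2 r
      _ = Real.exp (∑ r ∈ F, 11 * uS σ φ r) := by rw [Real.exp_sum]
      _ ≤ _ := h4

/-- **The factor**, with bounds. -/
theorem euler3 (hsum : ∀ σ : ℝ, 1 / 2 < σ → Summable (uS σ φ)) : ∃ K : ℝ → ℝ, ∀ (q : ℕ) [NeZero q]
    (χ : DirichletCharacter ℂ q), ∃ G : ℂ → ℂ, DifferentiableOn ℂ G {s : ℂ | 0 < s.re} ∧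
      (∀ s : ℂ, 0 < s.re → G s ≠ 0) ∧
      (∀ (σ : ℝ) (s : ℂ), 1 / 2 < σ → σ ≤ s.re → ‖G s‖ ≤ K σ ∧ ‖(G s)⁻¹‖ ≤ K σ) ∧
      ∀ s : ℂ, 1 < s.re → HasProd (fun r : Nat.Primes => (1 - χ (φ r) * (φ r : ℂ) ^ (-s))⁻¹)
        (χ.LFunction s * G s) := by
  refine ⟨fun σ => Real.exp (11 * ∑' r, uS (min σ 1) φ r), fun q _ χ => ?_⟩
  have hχ : ∀ n : ℕ, ‖(fun n : ℕ => χ (n : ZMod q)) n‖ ≤ 1 := fun n => χ.norm_le_one _
  have hc : ∀ᶠ r : Nat.Primes in cofinite, (fun n : ℕ => χ (n : ZMod q)) (φ r) = (fun n : ℕ => χ (n : ZMod q)) r := by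
    have h1 := hφ.fin q (NeZero.pos q)
    have h2 : {r : Nat.Primes | ¬ φ r ≡ r [MOD q]}.Finite := by
      refine Set.Finite.of_finite_image (f := fun r : Nat.Primes => (r : ℕ)) ?_ (Subtype.val_injective.injOn)
      refine h1.subset ?_
      rintro _ ⟨r, hr, rfl⟩
      exact ⟨r.2, hr⟩
    have h3 := h2.compl_mem_cofinite
    filter_upwards [h3] with r hr
    have hr : φ r ≡ r [MOD q] := by
      by_contra h
      exact hr h
    show χ _ = χ _
    rw [(ZMod.natCast_eq_natCast_iff _ _ _).2 hr]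
  have hG : ∀ s : ℂ, 0 < s.re → HasProd (fun r : Nat.Primes => 1 + ff φ (fun n : ℕ => χ (n : ZMod q)) r s)
      (GG φ (fun n : ℕ => χ (n : ZMod q)) s) := fun s hs =>
    (multipliable_one_add_of_summable (summable_ff2 hφ hχ hc hs)).hasProd
  have hne : ∀ s : ℂ, 0 < s.re → GG φ (fun n : ℕ => χ (n : ZMod q)) s ≠ 0 := fun s hs =>
    tprod_one_add_ne_zero_of_summable (fun r => one_add_ff_ne2 hφ hχ r hs) (summable_ff2 hφ hχ hc hs)
  refine ⟨GG φ (fun n : ℕ => χ (n : ZMod q)), differentiableOn_GG2 hφ hχ hc, hne, fun σ s h1 h2 => ?_, fun s hs => ?_⟩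
  · have hs0 : 0 < s.re := by linarith
    have hm1 : 1 / 2 < min σ 1 := lt_min h1 (by norm_num)
    have hb := fun F => prod_bound hφ hχ hm1.le (min_le_right σ 1) ((min_le_left σ 1).trans h2) (hsum _ hm1) F
    constructor
    · exact le_of_tendsto (hG s hs0).norm (Eventually.of_forall fun F => by
        have := (hb F).1
        rw [norm_prod] at this
        exact this)
    · exact le_of_tendsto ((hG s hs0).inv₀ (hne s hs0)).norm (Eventually.of_forall fun F => by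
        have := (hb F).2
        rw [← Finset.prod_inv_distrib, norm_prod] at this
        exact this)
  · have h1 := DirichletCharacter.LSeries_eulerProduct_hasProd χ hs
    rw [← DirichletCharacter.LFunction_eq_LSeries χ hs] at h1
    have h2 := h1.mul (hG s (by linarith))
    convert! h2 using 2 with r
    rw [one_add_ff2 hφ hχ r (by linarith)]
    have h3 := one_sub_tm_ne hχ r.2.two_le (by linarith : 0 < s.re)
    have h4 := one_sub_tm_ne hχ (hφ.two r r.2) (by linarith : 0 < s.re)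
    unfold tm at h3 h4 ⊢
    rw [← mul_div_assoc, inv_mul_cancel₀ h3, one_div]

end

end Pool.Agent.H67.BB
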