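import Pool.Agent.H67.BB.Template
import Pool.Agent.H67.BB.Thin

set_option autoImplicit false

/-!
Avoiding countably many sets of upper Banach density zero.
-/

namespace Pool.Agent.H67.BB

open Finset Filter Topology

/-- upper Banach density zero -/
def BanachZero (V : Set ℕ) : Prop :=
  ∀ ε : ℝ, 0 < ε → ∃ K₀ : ℕ, ∀ K : ℕ, K₀ ≤ K → ∀ x : ℕ, ({m | m ∈ V ∧ x ≤ m ∧ m < x + K}.ncard : ℝ) ≤ ε * K

lemma finite_window (V : Set ℕ) (x K : ℕ) : {m | m ∈ V ∧ x ≤ m ∧ m < x + K}.Finite :=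
  (Set.finite_Iio (x + K)).subset fun _ hm => hm.2.2

lemma BanachZero.union {V W : Set ℕ} (hV : BanachZero V) (hW : BanachZero W) : BanachZero (V ∪ W) := by
  intro ε hε
  obtain ⟨K₁, h1⟩ := hV (ε / 2) (by positivity)
  obtain ⟨K₂, h2⟩ := hW (ε / 2) (by positivity)
  refine ⟨K₁ + K₂, fun K hK x => ?_⟩
  have h3 : {m | m ∈ V ∪ W ∧ x ≤ m ∧ m < x + K} = {m | m ∈ V ∧ x ≤ m ∧ m < x + K} ∪ {m | m ∈ W ∧ x ≤ m ∧ m < x + K} := by
    ext m
    constructor
    · rintro ⟨h | h, h'⟩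
      · exact Or.inl ⟨h, h'⟩
      · exact Or.inr ⟨h, h'⟩
    · rintro (⟨h, h'⟩ | ⟨h, h'⟩)
      · exact ⟨Or.inl h, h'⟩
      · exact ⟨Or.inr h, h'⟩
  rw [h3]
  have h4 := Set.ncard_union_le {m | m ∈ V ∧ x ≤ m ∧ m < x + K} {m | m ∈ W ∧ x ≤ m ∧ m < x + K}
  have h5 : (({m | m ∈ V ∧ x ≤ m ∧ m < x + K} ∪ {m | m ∈ W ∧ x ≤ m ∧ m < x + K}).ncard : ℝ) ≤
      ({m | m ∈ V ∧ x ≤ m ∧ m < x + K}.ncard : ℝ) + ({m | m ∈ W ∧ x ≤ m ∧ m < x + K}.ncard : ℝ) := by exact_mod_cast h4
  have h6 := h1 K (by omega) x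
  have h7 := h2 K (by omega) x
  linarith

lemma banachZero_empty : BanachZero ∅ := by
  intro ε hε
  refine ⟨0, fun K _ x => ?_⟩
  have : {m | m ∈ (∅ : Set ℕ) ∧ x ≤ m ∧ m < x + K} = ∅ := by
    ext m; simp
  rw [this, Set.ncard_empty]
  simp
  positivity

/-- the integers outside the first `j` sets -/
def TV (V : ℕ → Set ℕ) (j : ℕ) : Set ℕ := {m | ∀ i < j, m ∉ V i}

lemma TV_syn {V : ℕ → Set ℕ} (hV : ∀ i, BanachZero (V i)) (j M : ℕ) (hM : 1 ≤ M) :
    ∃ K : ℕ, 1 ≤ K ∧ Syn (TV V j) M K := by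
  -- the union of the first `j` sets
  have hU : ∀ j, BanachZero {m | ∃ i < j, m ∈ V i} := by
    intro j
    induction j with
    | zero =>
      have : {m | ∃ i < 0, m ∈ V i} = ∅ := by ext m; simp
      rw [this]; exact banachZero_empty
    | succ j ih =>
      have : {m | ∃ i < j + 1, m ∈ V i} = {m | ∃ i < j, m ∈ V i} ∪ V j := by
        ext m
        constructor
        · rintro ⟨i, hi, hm⟩
          rcases Nat.lt_succ_iff_lt_or_eq.1 hi with h | h
          · exact Or.inl ⟨i, h, hm⟩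
          · right; rw [← h]; exact hm
        · rintro (⟨i, hi, hm⟩ | hm)
          · exact ⟨i, by omega, hm⟩
          · exact ⟨j, by omega, hm⟩
      rw [this]
      exact ih.union (hV j)
  have hMR : (1 : ℝ) ≤ M := by exact_mod_cast hM
  obtain ⟨K₀, hK₀⟩ := hU j (1 / (4 * M)) (by positivity)
  refine ⟨K₀ + 4 * M, by omega, fun x v => ?_⟩
  obtain ⟨K, hK⟩ : ∃ K, K = K₀ + 4 * M := ⟨_, rfl⟩
  rw [← hK]
  by_contra hcon
  push Not at hcon
  -- all members of the class in the window are in the union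
  rcases Nat.eq_zero_or_pos x with hx0 | hx0
  · -- shift by one
    have h1 := card_modEq_ge x (K - 1) M v hM
    have h2 := hK₀ K (by omega) x
    have h3 : (((Ioc x (x + (K - 1))).filter (fun m => m ≡ v [MOD M])).card : ℝ) ≤
        ({m | m ∈ {m | ∃ i < j, m ∈ V i} ∧ x ≤ m ∧ m < x + K}.ncard : ℝ) := by
      have : ((Ioc x (x + (K - 1))).filter (fun m => m ≡ v [MOD M])).card ≤
          {m | m ∈ {m | ∃ i < j, m ∈ V i} ∧ x ≤ m ∧ m < x + K}.ncard := by
        rw [← Set.ncard_coe_finset]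
        apply Set.ncard_le_ncard _ (finite_window _ x K)
        intro m hm
        rw [mem_coe, mem_filter, mem_Ioc] at hm
        refine ⟨?_, by omega, by omega⟩
        by_contra hno
        refine hcon m ?_ (by omega) (by omega) hm.2
        intro i hi hmi
        exact hno ⟨i, hi, hmi⟩
      exact_mod_cast this
    have h4 : ((K - 1 : ℕ) : ℝ) = (K : ℝ) - 1 := by rw [Nat.cast_sub (by omega)]; simp
    rw [h4] at h1
    have h5 : (4 * (M : ℝ)) ≤ K := by exact_mod_cast (by omega : 4 * M ≤ K)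
    have h6 : ((K : ℝ) - 1) / M - 1 ≤ 1 / (4 * M) * K := by linarith
    have h7 : (((K : ℝ) - 1) / M - 1) * (4 * M) ≤ (1 / (4 * M) * K) * (4 * M) := by gcongr
    have h8 : (((K : ℝ) - 1) / M - 1) * (4 * M) = 4 * K - 4 - 4 * M := by field_simp
    have h9 : (1 / (4 * M) * (K : ℝ)) * (4 * M) = K := by field_simp
    rw [h8, h9] at h7
    linarith
  · have h1 := card_modEq_ge (x - 1) K M v hM
    have h2 := hK₀ K (by omega) x
    have h3 : (((Ioc (x - 1) (x - 1 + K)).filter (fun m => m ≡ v [MOD M])).card : ℝ) ≤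
        ({m | m ∈ {m | ∃ i < j, m ∈ V i} ∧ x ≤ m ∧ m < x + K}.ncard : ℝ) := by
      have : ((Ioc (x - 1) (x - 1 + K)).filter (fun m => m ≡ v [MOD M])).card ≤
          {m | m ∈ {m | ∃ i < j, m ∈ V i} ∧ x ≤ m ∧ m < x + K}.ncard := by
        rw [← Set.ncard_coe_finset]
        apply Set.ncard_le_ncard _ (finite_window _ x K)
        intro m hm
        rw [mem_coe, mem_filter, mem_Ioc] at hm
        refine ⟨?_, by omega, by omega⟩
        by_contra hno
        refine hcon m ?_ (by omega) (by omega) hm.2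
        intro i hi hmi
        exact hno ⟨i, hi, hmi⟩
      exact_mod_cast this
    have h5 : (4 * (M : ℝ)) ≤ K := by exact_mod_cast (by omega : 4 * M ≤ K)
    have h6 : (K : ℝ) / M - 1 ≤ 1 / (4 * M) * K := by linarith
    have h7 : ((K : ℝ) / M - 1) * (4 * M) ≤ (1 / (4 * M) * K) * (4 * M) := by gcongr
    have h8 : ((K : ℝ) / M - 1) * (4 * M) = 4 * K - 4 * M := by field_simp
    have h9 : (1 / (4 * M) * (K : ℝ)) * (4 * M) = K := by field_simp
    rw [h8, h9] at h7
    linarith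

lemma sum_geom' (J : ℕ) : ∑ j ∈ range J, (1 / 2 : ℝ) ^ (j + 1) ≤ 1 := by
  have h1 : ∑ j ∈ range J, (1 / 2 : ℝ) ^ (j + 1) = 1 - (1 / 2) ^ J := by
    induction J with
    | zero => simp
    | succ J ih => rw [sum_range_succ, ih]; ring
  rw [h1]
  have : (0 : ℝ) < (1 / 2) ^ J := by positivity
  linarith

section

variable {V : ℕ → Set ℕ} {f : ℕ → ℝ} {φ X : ℕ → ℕ}

lemma Out.exists_stage' {T : ℕ → Set ℕ} (O : Out T f φ X) {r : ℕ} (hr : X 0 ≤ r) : ∃ j, X j ≤ r ∧ r < X (j + 1) := by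
  have hP : ∃ m, r < X m := ⟨r + 1, lt_of_lt_of_le (Nat.lt_succ_self r) O.mono.le_apply⟩
  have h1 := Nat.find_spec hP
  have h2 : Nat.find hP ≠ 0 := by
    intro h0
    rw [h0] at h1
    omega
  refine ⟨Nat.find hP - 1, ?_, ?_⟩
  · have := Nat.find_min hP (m := Nat.find hP - 1) (by omega)
    omega
  · rw [Nat.sub_add_cancel (by omega)]
    exact h1

/-- each set contains only finitely many moved primes -/
lemma Out.avoid (O : Out (TV V) f φ X) (i : ℕ) : {r : ℕ | r.Prime ∧ φ r ∈ V i}.Finite := by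
  refine (Set.finite_Iio (X (i + 1))).subset ?_
  rintro r ⟨hr, hi⟩
  show r < X (i + 1)
  by_contra hc
  push Not at hc
  have h0 : X 0 ≤ r := (O.mono.monotone (Nat.zero_le (i + 1))).trans hc
  obtain ⟨j, h1, h2⟩ := O.exists_stage' h0
  have hij : i < j := by
    by_contra h
    push Not at h
    have := O.mono.monotone (show j + 1 ≤ i + 1 by omega)
    omega
  exact (O.stage j r hr h1 h2).2.2.2.1 i hij hi

/-- only elements of the sets are moved -/
lemma Out.moved (O : Out (TV V) f φ X) {r : ℕ} (hr : r.Prime) (hm : φ r ≠ r) : ∃ i, r ∈ V i ∧ X (i + 1) ≤ r := by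
  rcases lt_or_ge r (X 0) with c | c
  · exact absurd (O.small r hr c) hm
  · obtain ⟨j, h1, h2⟩ := O.exists_stage' c
    by_contra hno
    push Not at hno
    apply hm
    apply (O.stage j r hr h1 h2).2.2.2.2.1
    intro i hi hri
    have h3 := hno i hri
    have := O.mono.monotone (show i + 1 ≤ j from hi)
    omega

/-- the indicator of `V` times `m ^ (-σ)` -/
noncomputable def wt (V : Set ℕ) (σ : ℝ) : ℕ → ℝ := V.indicator (fun m => (m : ℝ) ^ (-σ))

lemma wt_nonneg (V : Set ℕ) (σ : ℝ) (m : ℕ) : 0 ≤ wt V σ m :=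
  Set.indicator_nonneg (fun _ _ => by positivity) _

lemma Out.summable_uS (O : Out (TV V) f φ X) (hV : ∀ i σ, 1 / 2 < σ → Summable (wt (V i) σ))
    (hX : ∀ i, ∀ F : Finset ℕ, (∀ m ∈ F, X (i + 1) ≤ m) →
      ∑ m ∈ F, wt (V i) (1 / 2 + 1 / ((i : ℝ) + 1)) m ≤ (1 / 2) ^ (i + 1)) (σ : ℝ) (hσ : 1 / 2 < σ) :
    Summable (uS σ φ) := by
  classical
  obtain ⟨i₀, hi₀⟩ := exists_nat_one_div_lt (show 0 < σ - 1 / 2 by linarith)
  refine summable_of_sum_le (c := (∑ i ∈ range i₀, ∑' m, wt (V i) σ m) + 1) (fun r => uS_nonneg σ φ r) fun F => ?_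
  obtain ⟨J, hJ⟩ : ∃ J : ℕ, ∀ r ∈ F, (r : ℕ) < J :=
    ⟨F.sup (fun r => (r : ℕ)) + 1, fun r hr => Nat.lt_succ_of_le (Finset.le_sup (f := fun r : Nat.Primes => (r : ℕ)) hr)⟩
  have hnn : ∀ (r : Nat.Primes) (i : ℕ), 0 ≤ if X (i + 1) ≤ (r : ℕ) then wt (V i) σ r else 0 := by
    intro r i
    split_ifs
    · exact wt_nonneg _ _ _
    · exact le_rfl
  have hpt : ∀ r ∈ F, uS σ φ r ≤ ∑ i ∈ range (i₀ + J), if X (i + 1) ≤ (r : ℕ) then wt (V i) σ r else 0 := by
    intro r hr
    unfold uS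
    split_ifs with h
    · exact Finset.sum_nonneg fun i _ => hnn r i
    · obtain ⟨i, h1, h2⟩ := O.moved r.2 h
      have hiJ : i ∈ range (i₀ + J) := by
        rw [mem_range]
        have h3 : i + 1 ≤ X (i + 1) := O.mono.le_apply
        have h4 := hJ r hr
        omega
      refine le_trans ?_ (Finset.single_le_sum (fun i _ => hnn r i) hiJ)
      rw [if_pos h2]
      unfold wt
      rw [Set.indicator_of_mem h1]
  calc ∑ r ∈ F, uS σ φ r ≤ ∑ r ∈ F, ∑ i ∈ range (i₀ + J), (if X (i + 1) ≤ (r : ℕ) then wt (V i) σ r else 0) :=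
        Finset.sum_le_sum hpt
    _ = ∑ i ∈ range (i₀ + J), ∑ r ∈ F, (if X (i + 1) ≤ (r : ℕ) then wt (V i) σ r else 0) := Finset.sum_comm
    _ ≤ ∑ i ∈ range (i₀ + J), if i < i₀ then ∑' m, wt (V i) σ m else (1 / 2 : ℝ) ^ (i + 1) := by
        refine Finset.sum_le_sum fun i _ => ?_
        rw [← Finset.sum_filter]
        have himg : ∑ r ∈ F.filter (fun r : Nat.Primes => X (i + 1) ≤ (r : ℕ)), wt (V i) σ r =
            ∑ m ∈ (F.filter (fun r : Nat.Primes => X (i + 1) ≤ (r : ℕ))).image (fun r : Nat.Primes => (r : ℕ)), wt (V i) σ m := by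
          rw [Finset.sum_image]
          intro a _ b _ hab
          exact Subtype.ext hab
        rw [himg]
        split_ifs with h
        · exact (hV i σ hσ).sum_le_tsum _ fun m _ => wt_nonneg _ _ _
        · refine le_trans (Finset.sum_le_sum fun m hm => ?_) (hX i _ fun m hm => ?_)
          · -- a smaller exponent gives a larger weight
            rw [mem_image] at hm
            obtain ⟨r, _, rfl⟩ := hm
            unfold wt
            by_cases hrV : (r : ℕ) ∈ V i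
            · rw [Set.indicator_of_mem hrV, Set.indicator_of_mem hrV]
              apply Real.rpow_le_rpow_of_exponent_le (by exact_mod_cast r.2.one_le)
              have h5 : 1 / ((i : ℝ) + 1) ≤ 1 / ((i₀ : ℝ) + 1) := by
                apply one_div_le_one_div_of_le (by positivity)
                have : (i₀ : ℝ) ≤ i := by exact_mod_cast (by omega : i₀ ≤ i)
                linarith
              linarith
            · rw [Set.indicator_of_notMem hrV, Set.indicator_of_notMem hrV]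
          · rw [mem_image] at hm
            obtain ⟨r, hr, rfl⟩ := hm
            exact (mem_filter.1 hr).2
    _ ≤ (∑ i ∈ range i₀, ∑' m, wt (V i) σ m) + 1 := by
        rw [Finset.sum_range_add]
        have e1 : ∑ i ∈ range i₀, (if i < i₀ then ∑' m, wt (V i) σ m else (1 / 2 : ℝ) ^ (i + 1)) =
            ∑ i ∈ range i₀, ∑' m, wt (V i) σ m :=
          Finset.sum_congr rfl fun i hi => by rw [if_pos (mem_range.1 hi)]
        have e2 : ∑ i ∈ range J, (if i₀ + i < i₀ then ∑' m, wt (V (i₀ + i)) σ m else (1 / 2 : ℝ) ^ (i₀ + i + 1)) ≤ 1 := by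
          calc _ ≤ ∑ i ∈ range J, (1 / 2 : ℝ) ^ (i + 1) := by
                refine Finset.sum_le_sum fun i _ => ?_
                rw [if_neg (by omega)]
                apply pow_le_pow_of_le_one (by norm_num) (by norm_num)
                omega
            _ ≤ 1 := by
                exact sum_geom' J
        rw [e1]
        linarith

end

/-- the number of the moved primes -/
lemma card_moved_le {φ : ℕ → ℕ} {σ : ℝ} (hs : Summable (uS σ φ)) (hσ : 0 ≤ σ) {x : ℝ} (hx : 0 ≤ x) :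
    ({p : ℕ | p.Prime ∧ (p : ℝ) ≤ x ∧ φ p ≠ p}.ncard : ℝ) ≤ (∑' r, uS σ φ r) * x ^ σ := by
  classical
  have hfin : {r : Nat.Primes | ((r : ℕ) : ℝ) ≤ x ∧ φ r ≠ r}.Finite := by
    refine Set.Finite.of_finite_image (f := fun r : Nat.Primes => (r : ℕ)) ?_ (Subtype.val_injective.injOn)
    refine (Set.finite_Iic ⌊x⌋₊).subset ?_
    rintro _ ⟨r, hr, rfl⟩
    exact Nat.le_floor hr.1
  have h1 : {p : ℕ | p.Prime ∧ (p : ℝ) ≤ x ∧ φ p ≠ p} =
      (fun r : Nat.Primes => (r : ℕ)) '' {r : Nat.Primes | ((r : ℕ) : ℝ) ≤ x ∧ φ r ≠ r} := by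
    ext p
    constructor
    · rintro ⟨hp, h2, h3⟩
      exact ⟨⟨p, hp⟩, ⟨h2, h3⟩, rfl⟩
    · rintro ⟨r, ⟨h2, h3⟩, rfl⟩
      exact ⟨r.2, h2, h3⟩
  have hinj : Function.Injective (fun r : Nat.Primes => (r : ℕ)) := fun a b h => Subtype.ext h
  rw [h1, Set.ncard_image_of_injective _ hinj, Set.ncard_eq_toFinset_card _ hfin]
  rcases eq_or_lt_of_le hx with h0 | h0
  · have : hfin.toFinset = ∅ := by
      rw [Finset.eq_empty_iff_forall_notMem]
      intro r hr
      rw [Set.Finite.mem_toFinset] at hr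
      have h3 := hr.1
      have : (0 : ℝ) < ((r : ℕ) : ℝ) := by exact_mod_cast r.2.pos
      linarith
    rw [this, card_empty]
    have : 0 ≤ ∑' r, uS σ φ r := tsum_nonneg fun r => uS_nonneg σ φ r
    simp only [Nat.cast_zero]
    positivity
  · have hxs : 0 < x ^ σ := Real.rpow_pos_of_pos h0 _
    have h2 : (hfin.toFinset.card : ℝ) * x ^ (-σ) ≤ ∑' r, uS σ φ r := by
      rw [← nsmul_eq_mul]
      refine le_trans (Finset.card_nsmul_le_sum _ (uS σ φ) _ fun r hr => ?_)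
        (hs.sum_le_tsum _ fun r _ => uS_nonneg σ φ r)
      rw [Set.Finite.mem_toFinset] at hr
      unfold uS
      rw [if_neg hr.2]
      exact Real.rpow_le_rpow_of_nonpos (by exact_mod_cast r.2.pos) hr.1 (by linarith)
    rw [Real.rpow_neg hx, ← div_eq_mul_inv, div_le_iff₀ hxs] at h2
    exact h2

/-- the tail of the weights is small -/
lemma exists_tail {V : Set ℕ} {σ δ : ℝ} (h : Summable (wt V σ)) (hδ : 0 < δ) :
    ∃ N : ℕ, ∀ F : Finset ℕ, (∀ m ∈ F, N ≤ m) → ∑ m ∈ F, wt V σ m ≤ δ := by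
  obtain ⟨s, hs⟩ := summable_iff_vanishing_norm.1 h δ hδ
  refine ⟨s.sup id + 1, fun F hF => ?_⟩
  have hd : Disjoint F s := by
    rw [Finset.disjoint_left]
    intro m hm hms
    have h1 := hF m hm
    have h2 : m ≤ s.sup id := Finset.le_sup (f := id) hms
    omega
  exact (le_abs_self _).trans (hs F hd).le

end Pool.Agent.H67.BB
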