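import Pool.Agent.H67.BB.Template2

set_option autoImplicit false

/-!
The template with sets which depend on the beginning of the previous stage.
-/

namespace Pool.Agent.H67.BB

open Finset Filter Topology

/-- the core of the template -/
theorem template_core (T : ℕ → Set ℕ) (D X : ℕ → ℕ) (f : ℕ → ℝ) (hf0 : ∀ n, 0 ≤ f n)
    (hDdvd : ∀ j, D j ∣ D (j + 1)) (hDpos : ∀ j, 1 ≤ D j) (hXmono : StrictMono X)
    (hX : ∀ j, D j ∣ X j ∧ 1 ≤ X j ∧ ∀ n ≥ X j, (D j : ℝ) ≤ f n ∧ (D j : ℝ) ≤ Real.log n)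
    (hψ : ∀ j u : ℕ, ∃ ψ : ℕ → ℕ, 1 ≤ u → (Set.InjOn ψ {r | r.Prime ∧ D j * u ≤ r ∧ r < D j * u + D j} ∧
      ∀ r, r.Prime → D j * u ≤ r → r < D j * u + D j → ψ r ≡ r [MOD Nat.factorial j] ∧ ¬ (ψ r).Prime ∧
        D j * u ≤ ψ r ∧ ψ r < D j * u + D j ∧ ψ r ∈ T j)) :
    ∃ φ : ℕ → ℕ, Out T f φ X := by
  classical
  choose ψ hψ using hψ
  -- a prime of the stage `j` and its block
  have hblk : ∀ j r, X j ≤ r → r < X (j + 1) → 1 ≤ r / D j ∧ D j * (r / D j) ≤ r ∧ r < D j * (r / D j) + D j ∧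
      X j ≤ D j * (r / D j) ∧ D j * (r / D j) + D j ≤ X (j + 1) := by
    intro j r h1 h2
    have hp := hDpos j
    obtain ⟨c, hc⟩ := (hX j).1
    obtain ⟨c', hc'⟩ := (hDdvd j).trans (hX (j + 1)).1
    have hx1 := (hX j).2.1
    have hc1 : 1 ≤ c := by
      rcases Nat.eq_zero_or_pos c with h | h
      · rw [h] at hc; omega
      · exact h
    have h3 : c ≤ r / D j := by
      rw [Nat.le_div_iff_mul_le hp, mul_comm, ← hc]; exact h1
    have h4 : r / D j < c' := by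
      rw [Nat.div_lt_iff_lt_mul hp, mul_comm, ← hc']; exact h2
    refine ⟨by omega, Nat.mul_div_le r (D j), ?_, ?_, ?_⟩
    · have := Nat.div_add_mod r (D j)
      have := Nat.mod_lt r hp
      omega
    · rw [hc]; exact Nat.mul_le_mul_left _ h3
    · rw [hc']
      calc D j * (r / D j) + D j = D j * (r / D j + 1) := by ring
        _ ≤ D j * c' := Nat.mul_le_mul_left _ h4
  obtain ⟨Ψ, hΨ⟩ : ∃ Ψ : ℕ → ℕ → ℕ, Ψ = fun j r => ψ j (r / D j) r := ⟨_, rfl⟩
  have hΨ1 : ∀ j r, r.Prime → X j ≤ r → r < X (j + 1) → Ψ j r ≡ r [MOD Nat.factorial j] ∧ ¬ (Ψ j r).Prime ∧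
      D j * (r / D j) ≤ Ψ j r ∧ Ψ j r < D j * (r / D j) + D j ∧ Ψ j r ∈ T j := by
    intro j r hr h1 h2
    obtain ⟨a1, a2, a3, a4, a5⟩ := hblk j r h1 h2
    rw [hΨ]
    exact (hψ j (r / D j) a1).2 r hr a2 a3
  have hΨinj : ∀ j r r', r.Prime → r'.Prime → X j ≤ r → r < X (j + 1) → X j ≤ r' → r' < X (j + 1) →
      Ψ j r = Ψ j r' → r = r' := by
    intro j r r' hr hr' h1 h2 h1' h2' h
    have b := hΨ1 j r hr h1 h2
    have b' := hΨ1 j r' hr' h1' h2'
    have hp := hDpos j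
    have e1 : Ψ j r / D j = r / D j := by
      rw [Nat.div_eq_iff hp]
      constructor
      · rw [mul_comm]; exact b.2.2.1
      · have := b.2.2.2.1
        rw [mul_comm]
        omega
    have e2 : Ψ j r' / D j = r' / D j := by
      rw [Nat.div_eq_iff hp]
      constructor
      · rw [mul_comm]; exact b'.2.2.1
      · have := b'.2.2.2.1
        rw [mul_comm]
        omega
    have e3 : r / D j = r' / D j := by rw [← e1, ← e2, h]
    obtain ⟨a1, a2, a3, _, _⟩ := hblk j r h1 h2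
    obtain ⟨_, a2', a3', _, _⟩ := hblk j r' h1' h2'
    rw [hΨ] at h
    simp only at h
    rw [← e3] at h a2' a3'
    exact (hψ j (r / D j) a1).1 ⟨hr, a2, a3⟩ ⟨hr', a2', a3'⟩ h
  have huniq : ∀ i j r, X i ≤ r → r < X (i + 1) → X j ≤ r → r < X (j + 1) → i = j := by
    intro i j r h1 h2 h3 h4
    rcases lt_trichotomy i j with h | h | h
    · exfalso
      have := hXmono.monotone (show i + 1 ≤ j by omega)
      omega
    · exact h
    · exfalso
      have := hXmono.monotone (show j + 1 ≤ i by omega)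
      omega
  have hexst : ∀ r, X 0 ≤ r → ∃ j, X j ≤ r ∧ r < X (j + 1) := by
    intro r hr
    have hP : ∃ m, r < X m := ⟨r + 1, lt_of_lt_of_le (Nat.lt_succ_self r) hXmono.le_apply⟩
    have h1 := Nat.find_spec hP
    have h2 : Nat.find hP ≠ 0 := by
      intro h0
      rw [h0] at h1
      omega
    refine ⟨Nat.find hP - 1, ?_, ?_⟩
    · have := Nat.find_min hP (m := Nat.find hP - 1) (by omega)
      omega
    · rw [Nat.sub_add_cancel (by omega)]
      exact h1
  obtain ⟨φ, hφ⟩ : ∃ φ : ℕ → ℕ, φ = fun r => if h : ∃ j, X j ≤ r ∧ r < X (j + 1) then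
      (if r ∈ T h.choose then r else Ψ h.choose r) else r := ⟨_, rfl⟩
  have hφs : ∀ j r, X j ≤ r → r < X (j + 1) → φ r = if r ∈ T j then r else Ψ j r := by
    intro j r h1 h2
    have h : ∃ j, X j ≤ r ∧ r < X (j + 1) := ⟨j, h1, h2⟩
    have he : h.choose = j := huniq _ _ r h.choose_spec.1 h.choose_spec.2 h1 h2
    rw [hφ]
    simp only [h, dif_pos]
    rw [he]
  have hφ0 : ∀ r, r < X 0 → φ r = r := by
    intro r hr
    rw [hφ]
    simp only
    rw [dif_neg]
    rintro ⟨j, h1, _⟩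
    have := hXmono.monotone (Nat.zero_le j)
    omega
  have hstage : ∀ j r, r.Prime → X j ≤ r → r < X (j + 1) → X j ≤ φ r ∧ φ r < X (j + 1) ∧
      φ r ≡ r [MOD Nat.factorial j] ∧ φ r ∈ T j ∧ (r ∈ T j → φ r = r) ∧ (φ r ≠ r → ¬ (φ r).Prime) := by
    intro j r hr h1 h2
    rw [hφs j r h1 h2]
    obtain ⟨a1, a2, a3, a4, a5⟩ := hblk j r h1 h2
    obtain ⟨b1, b2, b3, b4, b5⟩ := hΨ1 j r hr h1 h2
    split_ifs with h
    · exact ⟨h1, h2, rfl, h, fun _ => rfl, fun h => absurd rfl h⟩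
    · exact ⟨by omega, by omega, b1, b5, fun h' => absurd h' h, fun _ => b2⟩
  have hdisp : ∀ j r, r.Prime → X j ≤ r → r < X (j + 1) → |(φ r : ℝ) - r| ≤ D j := by
    intro j r hr h1 h2
    rw [hφs j r h1 h2]
    obtain ⟨a1, a2, a3, a4, a5⟩ := hblk j r h1 h2
    obtain ⟨b1, b2, b3, b4, b5⟩ := hΨ1 j r hr h1 h2
    split_ifs with h
    · simp
    · rw [abs_le]
      have c1 : Ψ j r ≤ r + D j := by omega
      have c2 : r ≤ Ψ j r + D j := by omega
      have c1' : (Ψ j r : ℝ) ≤ r + D j := by exact_mod_cast c1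
      have c2' : (r : ℝ) ≤ Ψ j r + D j := by exact_mod_cast c2
      constructor <;> linarith
  refine ⟨φ, hXmono, ?_, fun r _ hr => hφ0 r hr, ?_, ?_, hstage⟩
  · intro r hr r' hr' h
    have hr : r.Prime := hr
    have hr' : r'.Prime := hr'
    rcases lt_or_ge r (X 0) with c | c
    · rcases lt_or_ge r' (X 0) with c' | c'
      · rwa [hφ0 r c, hφ0 r' c'] at h
      · exfalso
        obtain ⟨j, h1, h2⟩ := hexst r' c'
        have := (hstage j r' hr' h1 h2).1
        rw [hφ0 r c] at h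
        have := hXmono.monotone (Nat.zero_le j)
        omega
    · obtain ⟨j, h1, h2⟩ := hexst r c
      have s1 := hstage j r hr h1 h2
      rcases lt_or_ge r' (X 0) with c' | c'
      · exfalso
        rw [hφ0 r' c'] at h
        have := hXmono.monotone (Nat.zero_le j)
        omega
      · obtain ⟨i, h1', h2'⟩ := hexst r' c'
        have s2 := hstage i r' hr' h1' h2'
        have hij : i = j := huniq i j (φ r) (by rw [h]; exact s2.1) (by rw [h]; exact s2.2.1) s1.1 s1.2.1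
        subst hij
        by_cases e1 : φ r = r
        · by_cases e2 : φ r' = r'
          · rw [← e1, h, e2]
          · exfalso
            apply s2.2.2.2.2.2 e2
            rw [← h, e1]
            exact hr
        · by_cases e2 : φ r' = r'
          · exfalso
            apply s1.2.2.2.2.2 e1
            rw [h, e2]
            exact hr'
          · apply hΨinj i r r' hr hr' h1 h2 h1' h2'
            have n1 : r ∉ T i := fun h => e1 (s1.2.2.2.2.1 h)
            have n2 : r' ∉ T i := fun h => e2 (s2.2.2.2.2.1 h)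
            rw [hφs i r h1 h2, hφs i r' h1' h2', if_neg n1, if_neg n2] at h
            exact h
  · intro r hr
    rcases lt_or_ge r (X 0) with c | c
    · rw [hφ0 r c]; simpa using hf0 r
    · obtain ⟨j, h1, h2⟩ := hexst r c
      exact (hdisp j r hr h1 h2).trans ((hX j).2.2 r h1).1
  · intro r hr
    rcases lt_or_ge r (X 0) with c | c
    · rw [hφ0 r c]
      simp only [sub_self, abs_zero]
      exact Real.log_nonneg (by exact_mod_cast hr.one_le)
    · obtain ⟨j, h1, h2⟩ := hexst r c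
      exact (hdisp j r hr h1 h2).trans ((hX j).2.2 r h1).2

/-- the beginning of the previous stage -/
def prevX (X : ℕ → ℕ) (j : ℕ) : ℕ := if j = 0 then 0 else X (j - 1)

/-- the sets may depend on the beginning of the previous stage, with no uniformity -/
theorem template3 (T : ℕ → ℕ → Set ℕ) (hT : ∀ j x : ℕ, ∃ K : ℕ, 1 ≤ K ∧ Syn (T j x) (Nat.factorial j) K)
    (f : ℕ → ℝ) (hf0 : ∀ n, 0 ≤ f n) (hf : Tendsto f atTop atTop) (g : ℕ → ℕ → ℕ) :
    ∃ φ X : ℕ → ℕ, (∀ j, g j (X j) ≤ X (j + 1)) ∧ Out (fun j => T j (prevX X j)) f φ X := by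
  classical
  choose K hK1 hK using hT
  choose N₀ hN₀ using fun j x : ℕ => block2' (M := Nat.factorial j) (hK1 j x)
  have hex : ∀ D M : ℕ, 1 ≤ D → ∃ x, M ≤ x ∧ (D ∣ x ∧ 1 ≤ x ∧ ∀ n ≥ x, (D : ℝ) ≤ f n ∧ (D : ℝ) ≤ Real.log n) := by
    intro D M hD
    have h1 : ∀ᶠ n : ℕ in atTop, (D : ℝ) ≤ f n ∧ (D : ℝ) ≤ Real.log n :=
      (hf.eventually_ge_atTop _).and ((Real.tendsto_log_atTop.comp tendsto_natCast_atTop_atTop).eventually_ge_atTop _)
    obtain ⟨n₀, hn₀⟩ := eventually_atTop.1 h1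
    refine ⟨D * (M + n₀ + 1), by nlinarith, dvd_mul_right _ _, by nlinarith, ?_⟩
    intro n hn
    apply hn₀
    nlinarith
  choose xx hxx1 hxx2 using hex
  let xx' : ℕ → ℕ → ℕ := fun D M => if h : 1 ≤ D then xx D M h else 0
  have hxx' : ∀ D M, 1 ≤ D → M ≤ xx' D M ∧ D ∣ xx' D M ∧ 1 ≤ xx' D M ∧
      ∀ n ≥ xx' D M, (D : ℝ) ≤ f n ∧ (D : ℝ) ≤ Real.log n := by
    intro D M h
    simp only [xx', h, dif_pos]
    exact ⟨hxx1 D M h, (hxx2 D M h).1, (hxx2 D M h).2.1, (hxx2 D M h).2.2⟩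
  let dd : ℕ → ℕ → ℕ → ℕ := fun j x D => D * (K j x * (N₀ j x + 1))
  have hdd : ∀ j x D, 1 ≤ D → 1 ≤ dd j x D := by
    intro j x D hD
    have := hK1 j x
    exact Nat.mul_pos hD (Nat.mul_pos this (by omega))
  let S : ℕ → ℕ × ℕ := fun n => Nat.rec (xx' (dd 0 0 1) 1, dd 0 0 1)
    (fun j s => (xx' (dd (j + 1) s.1 s.2) (max (s.1 + 1) (g j s.1)), dd (j + 1) s.1 s.2)) n
  obtain ⟨X, hXdef⟩ : ∃ X : ℕ → ℕ, X = fun j => (S j).1 := ⟨_, rfl⟩
  obtain ⟨D, hDdef⟩ : ∃ D : ℕ → ℕ, D = fun j => (S j).2 := ⟨_, rfl⟩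
  have hX0 : X 0 = xx' (D 0) 1 := by subst hXdef hDdef; rfl
  have hXs : ∀ j, X (j + 1) = xx' (D (j + 1)) (max (X j + 1) (g j (X j))) := by
    intro j; subst hXdef hDdef; rfl
  have hD0 : D 0 = dd 0 0 1 := by subst hDdef; rfl
  have hDs : ∀ j, D (j + 1) = dd (j + 1) (X j) (D j) := by
    intro j; subst hXdef hDdef; rfl
  have hDpos : ∀ j, 1 ≤ D j := by
    intro j
    induction j with
    | zero => rw [hD0]; exact hdd _ _ _ le_rfl
    | succ j ih => rw [hDs]; exact hdd _ _ _ ih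
  have hDdvd : ∀ j, D j ∣ D (j + 1) := by
    intro j; rw [hDs]; exact dvd_mul_right _ _
  have hX : ∀ j, D j ∣ X j ∧ 1 ≤ X j ∧ ∀ n ≥ X j, (D j : ℝ) ≤ f n ∧ (D j : ℝ) ≤ Real.log n := by
    intro j
    cases j with
    | zero => rw [hX0]; exact (hxx' _ _ (hDpos 0)).2
    | succ j => rw [hXs]; exact (hxx' _ _ (hDpos (j + 1))).2
  have hXg : ∀ j, max (X j + 1) (g j (X j)) ≤ X (j + 1) := by
    intro j; rw [hXs]; exact (hxx' _ _ (hDpos (j + 1))).1
  have hXmono : StrictMono X := strictMono_nat_of_lt_succ fun j => by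
    have h1 := hXg j
    have h2 := le_max_left (X j + 1) (g j (X j))
    omega
  have hDN : ∀ j, ∃ N, N₀ j (prevX X j) ≤ N ∧ D j = K j (prevX X j) * N := by
    intro j
    cases j with
    | zero =>
      refine ⟨N₀ 0 0 + 1, by simp [prevX], ?_⟩
      rw [hD0]
      simp [dd, prevX]
    | succ j =>
      refine ⟨D j * (N₀ (j + 1) (X j) + 1), ?_, ?_⟩
      · have := hDpos j
        simp only [prevX, Nat.add_eq_zero_iff, one_ne_zero, and_false, if_false, Nat.add_sub_cancel]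
        nlinarith
      · rw [hDs]
        simp only [dd, prevX, Nat.add_eq_zero_iff, one_ne_zero, and_false, if_false, Nat.add_sub_cancel]
        ring
  choose N hN hDN using hDN
  obtain ⟨φ, O⟩ := template_core (fun j => T j (prevX X j)) D X f hf0 hDdvd hDpos hXmono hX (by
    intro j u
    by_cases hu : 1 ≤ u
    · obtain ⟨ψ, h1, h2⟩ := hN₀ j (prevX X j) (T j (prevX X j)) (hK j (prevX X j)) (N j) (hN j) (D j * u)
        (Nat.mul_pos (hDpos j) hu)
      rw [← hDN j] at h1 h2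
      exact ⟨ψ, fun _ => ⟨h1, h2⟩⟩
    · exact ⟨id, fun h => absurd h hu⟩)
  exact ⟨φ, X, fun j => (le_max_right _ _).trans (hXg j), O⟩

end Pool.Agent.H67.BB
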