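import Pool.Agent.H67.BB.Sums
import Pool.Agent.H67.BB.Template3

set_option autoImplicit false

/-!
Sums of boundedly many moved primes in narrow Bohr sets are rare.
-/

namespace Pool.Agent.H67.BB

open Finset Filter Topology

/-- sums of at most `k` elements of `A` -/
def Sk (A : Set ℕ) (k : ℕ) : Set ℕ := {n | ∃ s : Multiset ℕ, s.card ≤ k ∧ (∀ a ∈ s, a ∈ A) ∧ s.sum = n}

lemma Sk_mono (A : Set ℕ) {k l : ℕ} (h : k ≤ l) : Sk A k ⊆ Sk A l := by
  rintro n ⟨s, h1, h2, h3⟩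
  exact ⟨s, h1.trans h, h2, h3⟩

lemma fract_sum_le {α η : ℝ} (s : Multiset ℕ) (hs : ∀ a ∈ s, a ∈ bohr α η) :
    Int.fract (α * (s.sum : ℕ)) ≤ s.card * η := by
  induction s using Multiset.induction_on with
  | empty => simp
  | cons a s ih =>
    have h1 := ih fun b hb => hs b (Multiset.mem_cons_of_mem hb)
    have h2 : Int.fract (α * a) < η := hs a (Multiset.mem_cons_self a s)
    have h3 := Int.fract_add_le (α * a) (α * (s.sum : ℕ))
    rw [Multiset.sum_cons, Multiset.card_cons]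
    push_cast
    push_cast at h1 h3
    rw [mul_add]
    linarith

/-- the spacing constants -/
noncomputable def Th (L : ℕ) : ℝ := (bohr_spaced irrational_sqrt_two L).choose

lemma Th_pos (L : ℕ) : 0 < Th L := (bohr_spaced irrational_sqrt_two L).choose_spec.1

lemma Th_spec (L : ℕ) : ∀ a b : ℕ, a < b → a ∈ bohr (√2) (Th L) → b ∈ bohr (√2) (Th L) → a + L ≤ b :=
  (bohr_spaced irrational_sqrt_two L).choose_spec.2

/-- the monotone version -/
noncomputable def Tm (N : ℕ) : ℝ := (range (N + 1)).inf' (Finset.nonempty_range_iff.2 (Nat.succ_ne_zero N)) Th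

lemma Tm_pos (N : ℕ) : 0 < Tm N := by
  unfold Tm
  rw [Finset.lt_inf'_iff]
  intro L _
  exact Th_pos L

lemma Tm_anti {N N' : ℕ} (h : N ≤ N') : Tm N' ≤ Tm N := by
  unfold Tm
  exact Finset.inf'_mono _ (range_mono (by omega)) _

lemma Tm_le (N : ℕ) : Tm N ≤ Th N := by
  unfold Tm
  exact Finset.inf'_le _ (by simp)

/-- the sets -/
noncomputable def TB (j x : ℕ) : Set ℕ := bohr (√2) (Tm ((j + 1) * (x + 1) ^ 2) / ((j : ℝ) + 1))

lemma TB_syn (j x : ℕ) : ∃ K : ℕ, 1 ≤ K ∧ Syn (TB j x) (Nat.factorial j) K :=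
  bohr_syn irrational_sqrt_two (div_pos (Tm_pos _) (by positivity)) _ (Nat.factorial_pos j)

lemma TB_anti {i j x y : ℕ} (h : i ≤ j) (hxy : x ≤ y) : TB j y ⊆ TB i x := by
  apply bohr_mono
  have h1 : (i + 1) * (x + 1) ^ 2 ≤ (j + 1) * (y + 1) ^ 2 := by gcongr
  have h2 : (i : ℝ) ≤ j := by exact_mod_cast h
  have h3 := Tm_anti h1
  have h4 := Tm_pos ((j + 1) * (y + 1) ^ 2)
  have h5 := Tm_pos ((i + 1) * (x + 1) ^ 2)
  have h6 := h5.le
  gcongr

lemma prevX_mono {X : ℕ → ℕ} (hX : StrictMono X) {i j : ℕ} (h : i ≤ j) : prevX X i ≤ prevX X j := by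
  unfold prevX
  split_ifs with h1 h2 h2
  · exact le_rfl
  · exact Nat.zero_le _
  · omega
  · exact hX.monotone (by omega)

section

variable {f : ℕ → ℝ} {φ X : ℕ → ℕ}

/-- elements beyond `X j` are in the set of the stage `j` -/
lemma Out.mem_of_ge' (O : Out (fun j => TB j (prevX X j)) f φ X) {j a : ℕ} (ha : a ∈ PP φ) (hj : X j ≤ a) :
    a ∈ TB j (prevX X j) := by
  obtain ⟨r, hr, rfl⟩ := ha
  have hr : r.Prime := hr
  rcases lt_or_ge r (X 0) with c | c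
  · exfalso
    rw [O.small r hr c] at hj
    have := O.mono.monotone (Nat.zero_le j)
    omega
  · obtain ⟨i, h1, h2⟩ := O.exists_stage c
    have hs := O.stage i r hr h1 h2
    have hij : j ≤ i := by
      by_contra h
      push Not at h
      have := O.mono.monotone (show i + 1 ≤ j by omega)
      omega
    exact TB_anti hij (prevX_mono O.mono hij) hs.2.2.2.1

lemma Out.sum_spaced (O : Out (fun j => TB j (prevX X j)) f φ X) {i k : ℕ} (hik : k ≤ i) :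
    ∀ a ∈ Sk {a | a ∈ PP φ ∧ X (i + 1) ≤ a} k, ∀ b ∈ Sk {a | a ∈ PP φ ∧ X (i + 1) ≤ a} k, a < b →
      a + (i + 2) * (X i + 1) ^ 2 ≤ b := by
  have key : ∀ a ∈ Sk {a | a ∈ PP φ ∧ X (i + 1) ≤ a} k, a ∈ bohr (√2) (Th ((i + 2) * (X i + 1) ^ 2)) := by
    rintro a ⟨s, h1, h2, rfl⟩
    have h3 : ∀ b ∈ s, b ∈ bohr (√2) (Tm ((i + 2) * (X i + 1) ^ 2) / ((i : ℝ) + 2)) := by
      intro b hb
      have h4 := O.mem_of_ge' (h2 b hb).1 (h2 b hb).2
      have h5 : prevX X (i + 1) = X i := by simp [prevX]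
      rw [h5] at h4
      refine bohr_mono (le_of_eq ?_) h4
      push_cast
      ring_nf
    have h4 := fract_sum_le s h3
    show Int.fract (√2 * ((s.sum : ℕ) : ℝ)) < _
    have h5 := Tm_pos ((i + 2) * (X i + 1) ^ 2)
    have h6 := Tm_le ((i + 2) * (X i + 1) ^ 2)
    refine lt_of_le_of_lt h4 (lt_of_lt_of_le ?_ h6)
    have h7 : (s.card : ℝ) ≤ i := by exact_mod_cast h1.trans hik
    rw [mul_div_assoc', div_lt_iff₀ (by positivity)]
    nlinarith
  intro a ha b hb hab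
  exact Th_spec _ a b hab (key a ha) (key b hb)

lemma finite_le (x : ℕ) (S : Set ℕ) : {n | n ≤ x ∧ n ∈ S}.Finite := (Set.finite_Iic x).subset fun n hn => hn.1

/-- splitting off a small element -/
lemma card_Sk_succ (A : Set ℕ) (c k x : ℕ) :
    {n | n ≤ x ∧ n ∈ Sk A (k + 1)}.ncard ≤ {n | n ≤ x ∧ n ∈ Sk {a | a ∈ A ∧ c ≤ a} (k + 1)}.ncard +
      c * {n | n ≤ x ∧ n ∈ Sk A k}.ncard := by
  have hsub : {n | n ≤ x ∧ n ∈ Sk A (k + 1)} ⊆ {n | n ≤ x ∧ n ∈ Sk {a | a ∈ A ∧ c ≤ a} (k + 1)} ∪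
      (fun z : ℕ × ℕ => z.1 + z.2) '' (↑(range c) ×ˢ {n | n ≤ x ∧ n ∈ Sk A k}) := by
    rintro n ⟨hn, s, h1, h2, h3⟩
    by_cases hall : ∀ a ∈ s, c ≤ a
    · left
      exact ⟨hn, s, h1, fun a ha => ⟨h2 a ha, hall a ha⟩, h3⟩
    · right
      push Not at hall
      obtain ⟨a, ha, hac⟩ := hall
      obtain ⟨t, rfl⟩ := Multiset.exists_cons_of_mem ha
      rw [Multiset.card_cons] at h1
      rw [Multiset.sum_cons] at h3
      refine ⟨(a, t.sum), ⟨by simpa using hac, by omega, t, by omega,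
        fun b hb => h2 b (Multiset.mem_cons_of_mem hb), rfl⟩, h3⟩
  have hfin2 : ((↑(range c) : Set ℕ) ×ˢ {n | n ≤ x ∧ n ∈ Sk A k}).Finite := (finite_toSet _).prod (finite_le x _)
  refine (Set.ncard_le_ncard hsub ((finite_le x _).union (hfin2.image _))).trans ?_
  refine (Set.ncard_union_le _ _).trans ?_
  refine Nat.add_le_add_left ?_ _
  refine (Set.ncard_image_le hfin2).trans ?_
  rw [Set.ncard_prod, Set.ncard_coe_finset, card_range]

/-- the quantitative claim -/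
lemma Out.claim (O : Out (fun j => TB j (prevX X j)) f φ X)
    (hg : ∀ j, 3 ^ ((j + 1) * (X j + 1) ^ 2) ≤ X (j + 1)) (k : ℕ) (hk : 1 ≤ k) :
    ∀ ε : ℝ, 0 < ε → ∃ i₀ : ℕ, ∀ i : ℕ, i₀ ≤ i → ∀ x : ℕ, X (i + k) ≤ x → x < X (i + k + 1) →
      ((X i : ℝ) + 1) ^ 2 * ({n | n ≤ x ∧ n ∈ Sk (PP φ) k}.ncard : ℝ) ≤ ε * x := by
  -- the growth
  have hgr : ∀ i x : ℕ, X (i + 1) ≤ x → ((i : ℝ) + 1) * ((X i : ℝ) + 1) ^ 2 ≤ Real.log x := by
    intro i x hx
    have h4 : 3 ^ ((i + 1) * (X i + 1) ^ 2) ≤ x := (hg i).trans hx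
    have h5 : (3 : ℝ) ^ ((i + 1) * (X i + 1) ^ 2) ≤ x := by exact_mod_cast h4
    have h6 := Real.log_le_log (by positivity) h5
    rw [Real.log_pow] at h6
    push_cast at h6
    have h7 : (1 : ℝ) ≤ Real.log 3 := by
      rw [Real.le_log_iff_exp_le (by norm_num)]
      have := Real.exp_one_lt_d9
      linarith
    have h8 : (0 : ℝ) ≤ ((i : ℝ) + 1) * ((X i : ℝ) + 1) ^ 2 := by positivity
    nlinarith
  induction k, hk using Nat.le_induction with
  | base =>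
    intro ε hε
    obtain ⟨x₀, hx₀, hcard⟩ := O.card_le
    obtain ⟨i₁, hi₁⟩ : ∃ i₁ : ℕ, 7 / ε < i₁ := exists_nat_gt _
    refine ⟨x₀ + i₁, fun i hi x hx1 hx2 => ?_⟩
    have hix : i + 1 ≤ X (i + 1) := O.mono.le_apply
    have hxx0 : x₀ ≤ x := by omega
    obtain ⟨hfin, hcd⟩ := hcard x hxx0
    have hlogx : 0 < Real.log x := Real.log_pos (by exact_mod_cast (by omega : 1 < x))
    have hxR : (0 : ℝ) < x := by exact_mod_cast (by omega : 0 < x)
    have hN : {n | n ≤ x ∧ n ∈ Sk (PP φ) 1}.ncard ≤ {a | a ≤ x ∧ a ∈ PP φ}.ncard + 1 := by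
      have hsub : {n | n ≤ x ∧ n ∈ Sk (PP φ) 1} ⊆ insert 0 {a | a ≤ x ∧ a ∈ PP φ} := by
        rintro n ⟨hn, s, h1, h2, h3⟩
        rcases Nat.lt_or_ge 0 s.card with h | h
        · have h4 : s.card = 1 := by omega
          obtain ⟨a, rfl⟩ := Multiset.card_eq_one.1 h4
          right
          simp only [Multiset.sum_singleton] at h3
          subst h3
          exact ⟨hn, h2 a (by simp)⟩
        · have h4 : s = 0 := by
            rw [← Multiset.card_eq_zero]; omega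
          left
          rw [h4] at h3
          simpa using h3.symm
      exact (Set.ncard_le_ncard hsub (hfin.insert 0)).trans (Set.ncard_insert_le _ _)
    have hN' : ({n | n ≤ x ∧ n ∈ Sk (PP φ) 1}.ncard : ℝ) ≤ 6 * x / Real.log x + 1 := by
      have : ({n | n ≤ x ∧ n ∈ Sk (PP φ) 1}.ncard : ℝ) ≤ ({a | a ≤ x ∧ a ∈ PP φ}.ncard : ℝ) + 1 := by exact_mod_cast hN
      linarith
    have hgi := hgr i x hx1
    have hipos : (0 : ℝ) < (i : ℝ) + 1 := by positivity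
    have h1 : ((X i : ℝ) + 1) ^ 2 ≤ Real.log x / (i + 1) := by
      rw [le_div_iff₀ hipos]; linarith
    have h2 : Real.log x ≤ x := by
      have := Real.log_le_sub_one_of_pos hxR
      linarith
    have h3 : 7 / ((i : ℝ) + 1) ≤ ε := by
      rw [div_le_iff₀ hipos]
      rw [div_lt_iff₀ hε] at hi₁
      have : (i₁ : ℝ) ≤ i := by exact_mod_cast (by omega : i₁ ≤ i)
      nlinarith
    calc ((X i : ℝ) + 1) ^ 2 * ({n | n ≤ x ∧ n ∈ Sk (PP φ) 1}.ncard : ℝ)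
        ≤ (Real.log x / (i + 1)) * (6 * x / Real.log x + 1) := by gcongr
      _ = 6 * x / (i + 1) + Real.log x / (i + 1) := by
          field_simp
      _ ≤ 6 * x / (i + 1) + x / (i + 1) := by gcongr
      _ = 7 / ((i : ℝ) + 1) * x := by ring
      _ ≤ ε * x := by gcongr
  | succ k hk ih =>
    intro ε hε
    obtain ⟨i₁, hi₁⟩ := ih (ε / 3) (by positivity)
    obtain ⟨i₂, hi₂⟩ : ∃ i₂ : ℕ, 3 / ε < i₂ := exists_nat_gt _
    refine ⟨i₁ + i₂ + k + 1, fun i hi x hx1 hx2 => ?_⟩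
    have hx1' : X ((i + 1) + k) ≤ x := by
      have : (i + 1) + k = i + (k + 1) := by ring
      rw [this]; exact hx1
    have hx2' : x < X ((i + 1) + k + 1) := by
      have : (i + 1) + k + 1 = i + (k + 1) + 1 := by ring
      rw [this]; exact hx2
    have hI := hi₁ (i + 1) (by omega) x hx1' hx2'
    have hXi1 : X (i + 1) ≤ x := (O.mono.monotone (by omega)).trans hx1
    have hix : i + 1 ≤ X (i + 1) := O.mono.le_apply
    have hxR : (0 : ℝ) < x := by exact_mod_cast (by omega : 0 < x)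
    have hgi := hgr i x hXi1
    have hipos : (0 : ℝ) < (i : ℝ) + 1 := by positivity
    have h1 : ((X i : ℝ) + 1) ^ 2 ≤ Real.log x / (i + 1) := by
      rw [le_div_iff₀ hipos]; linarith
    have h2 : Real.log x ≤ x := by
      have := Real.log_le_sub_one_of_pos hxR
      linarith
    have h3 : 1 / ((i : ℝ) + 1) ≤ ε / 3 := by
      rw [div_le_iff₀ hipos]
      rw [div_lt_iff₀ hε] at hi₂
      have : (i₂ : ℝ) ≤ i := by exact_mod_cast (by omega : i₂ ≤ i)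
      nlinarith
    have hN := card_Sk_succ (PP φ) (X (i + 1)) k x
    have hL : 1 ≤ (i + 2) * (X i + 1) ^ 2 := Nat.mul_pos (by omega) (by positivity)
    have hsp := card_spaced hL (O.sum_spaced (i := i) (k := k + 1) (by omega)) x
    have hN' : ({n | n ≤ x ∧ n ∈ Sk (PP φ) (k + 1)}.ncard : ℝ) ≤ x / (((i : ℝ) + 2) * ((X i : ℝ) + 1) ^ 2) + 1 +
        X (i + 1) * ({n | n ≤ x ∧ n ∈ Sk (PP φ) k}.ncard : ℝ) := by
      have h4 : ((x / ((i + 2) * (X i + 1) ^ 2) : ℕ) : ℝ) ≤ x / (((i : ℝ) + 2) * ((X i : ℝ) + 1) ^ 2) := by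
        refine Nat.cast_div_le.trans (le_of_eq ?_)
        push_cast
        rfl
      have h5 : {n | n ≤ x ∧ n ∈ Sk (PP φ) (k + 1)}.ncard ≤ (x / ((i + 2) * (X i + 1) ^ 2) + 1) +
          X (i + 1) * {n | n ≤ x ∧ n ∈ Sk (PP φ) k}.ncard := hN.trans (Nat.add_le_add_right hsp _)
      have h6 : ({n | n ≤ x ∧ n ∈ Sk (PP φ) (k + 1)}.ncard : ℝ) ≤ (((x / ((i + 2) * (X i + 1) ^ 2) : ℕ) : ℝ) + 1) +
          X (i + 1) * ({n | n ≤ x ∧ n ∈ Sk (PP φ) k}.ncard : ℝ) := by exact_mod_cast h5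
      linarith
    obtain ⟨M, hM⟩ : ∃ M : ℝ, M = ((X i : ℝ) + 1) ^ 2 := ⟨_, rfl⟩
    have hM0 : 0 < M := by rw [hM]; positivity
    obtain ⟨c, hc⟩ : ∃ c : ℝ, c = ({n | n ≤ x ∧ n ∈ Sk (PP φ) k}.ncard : ℝ) := ⟨_, rfl⟩
    have hc0 : 0 ≤ c := by rw [hc]; positivity
    rw [← hM] at h1 hN' ⊢
    rw [← hc] at hI hN'
    -- `M ≤ X (i + 1)`
    have h6 : M ≤ (X (i + 1) : ℝ) + 1 := by
      have h7 := hgr i (X (i + 1)) le_rfl
      have h8 : Real.log (X (i + 1)) ≤ (X (i + 1) : ℝ) := by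
        have hp : (0 : ℝ) < X (i + 1) := by exact_mod_cast (by omega : 0 < X (i + 1))
        have := Real.log_le_sub_one_of_pos hp
        linarith
      rw [← hM] at h7
      nlinarith
    have hpush : (((i + 1 : ℕ) : ℝ)) = (i : ℝ) + 1 := by push_cast; ring
    have h7 : M * (X (i + 1) * c) ≤ ε / 3 * x := by
      calc M * (X (i + 1) * c) ≤ ((X (i + 1) : ℝ) + 1) * (((X (i + 1) : ℝ) + 1) * c) := by
            gcongr
            linarith
        _ = ((X (i + 1) : ℝ) + 1) ^ 2 * c := by ring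
        _ ≤ ε / 3 * x := hI
    have h8 : M * (x / (((i : ℝ) + 2) * M)) ≤ ε / 3 * x := by
      have h9 : M * (x / (((i : ℝ) + 2) * M)) = 1 / ((i : ℝ) + 2) * x := by field_simp
      rw [h9]
      have h10 : 1 / ((i : ℝ) + 2) ≤ 1 / ((i : ℝ) + 1) := by
        apply one_div_le_one_div_of_le hipos; linarith
      have h11 : 1 / ((i : ℝ) + 2) ≤ ε / 3 := h10.trans h3
      gcongr
    have h9 : M ≤ ε / 3 * x := by
      calc M ≤ Real.log x / (i + 1) := h1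
        _ ≤ x / (i + 1) := by gcongr
        _ = 1 / ((i : ℝ) + 1) * x := by ring
        _ ≤ ε / 3 * x := by gcongr
    calc M * ({n | n ≤ x ∧ n ∈ Sk (PP φ) (k + 1)}.ncard : ℝ)
        ≤ M * (x / (((i : ℝ) + 2) * M) + 1 + X (i + 1) * c) := by gcongr
      _ = M * (x / (((i : ℝ) + 2) * M)) + M + M * (X (i + 1) * c) := by ring
      _ ≤ ε * x := by linarith

theorem Out.sumsk (O : Out (fun j => TB j (prevX X j)) f φ X)
    (hg : ∀ j, 3 ^ ((j + 1) * (X j + 1) ^ 2) ≤ X (j + 1)) (k : ℕ) :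
    Tendsto (fun x : ℕ => ({n : ℕ | n ≤ x ∧ n ∈ Sk (PP φ) k}.ncard : ℝ) / x) atTop (𝓝 0) := by
  rw [Metric.tendsto_atTop]
  intro ε hε
  obtain ⟨i₀, hi₀⟩ := O.claim hg (k + 1) (by omega) (ε / 2) (by positivity)
  refine ⟨X (i₀ + k + 1) + 1, fun x hx => ?_⟩
  have hX0 : X 0 ≤ x := by
    have := O.mono.monotone (Nat.zero_le (i₀ + k + 1))
    omega
  obtain ⟨J, hJ1, hJ2⟩ := O.exists_stage hX0
  have hJ : i₀ + k + 1 ≤ J := by
    by_contra h
    push Not at h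
    have := O.mono.monotone (show J + 1 ≤ i₀ + k + 1 by omega)
    omega
  obtain ⟨i, hi⟩ : ∃ i, J = i + (k + 1) := ⟨J - (k + 1), by omega⟩
  rw [hi] at hJ1 hJ2
  have h1 := hi₀ i (by omega) x hJ1 hJ2
  have hxR : (0 : ℝ) < x := by exact_mod_cast (by omega : 0 < x)
  have h2 : ({n : ℕ | n ≤ x ∧ n ∈ Sk (PP φ) k}.ncard : ℝ) ≤ ({n : ℕ | n ≤ x ∧ n ∈ Sk (PP φ) (k + 1)}.ncard : ℝ) := by
    have h0 : {n : ℕ | n ≤ x ∧ n ∈ Sk (PP φ) k} ⊆ {n : ℕ | n ≤ x ∧ n ∈ Sk (PP φ) (k + 1)} :=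
      fun n hn => ⟨hn.1, Sk_mono _ (Nat.le_succ k) hn.2⟩
    exact_mod_cast Set.ncard_le_ncard h0 (finite_le x _)
  have h3 : (1 : ℝ) ≤ ((X i : ℝ) + 1) ^ 2 := by
    have : (0 : ℝ) ≤ X i := Nat.cast_nonneg _
    nlinarith
  have h4 : ({n : ℕ | n ≤ x ∧ n ∈ Sk (PP φ) (k + 1)}.ncard : ℝ) ≤ ε / 2 * x := by
    have : (0 : ℝ) ≤ ({n : ℕ | n ≤ x ∧ n ∈ Sk (PP φ) (k + 1)}.ncard : ℝ) := Nat.cast_nonneg _
    nlinarith
  rw [dist_zero_right, Real.norm_of_nonneg (by positivity), div_lt_iff₀ hxR]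
  nlinarith

end

end Pool.Agent.H67.BB
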