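import Pool.Graph.R_pool_sql_team_seeded_620a6dc7.Results.MP_3ec731_nt.OrdersOfBoundedGaps
import Pool.Graph.R_seed8.H902R3.Task469C

set_option autoImplicit false

/-!
One block: between the squares of two close consecutive primes there are few primes, and they can be moved to
composite numbers just below the first square, in the same residue classes.
-/

namespace Pool.Agent.H67.BB

open Finset

/-- consecutive primes with a bounded gap (Zhang, Maynard, Tao) -/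
lemma bounded_gap : ∃ d : ℕ, 1 ≤ d ∧
    {p : ℕ | p.Prime ∧ (p + d).Prime ∧ ∀ c, p < c → c < p + d → ¬ c.Prime}.Infinite := by
  obtain ⟨L, hL⟩ := Pool.Agent.Results.MP_3ec731_nt.OrdersOfBoundedGaps.result 1 le_rfl (fun _ => 0)
  have h1 := hL 1 0 le_rfl (by simp)
  have h2 : (0 : ℝ) < ((Pool.Agent.Results.MP_3ec731_nt.OrdersOfBoundedGaps.Orders 1 0 1 (fun _ => 0) L).ncard : ℝ) :=
    lt_of_lt_of_le (by positivity) h1
  have h3 : 0 < (Pool.Agent.Results.MP_3ec731_nt.OrdersOfBoundedGaps.Orders 1 0 1 (fun _ => 0) L).ncard := by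
    exact_mod_cast h2
  obtain ⟨π, d, _, _, hinf⟩ := Set.nonempty_of_ncard_ne_zero h3.ne'
  have hmono : StrictMono (Nat.nth Nat.Prime) := Nat.nth_strictMono Nat.infinite_setOfPred_prime
  have hstep : ∀ n ∈ {n : ℕ | Pool.Agent.Results.MP_3ec731_nt.OrdersOfBoundedGaps.p n ≡ 0 [MOD 1] ∧
      ∀ i : Fin 1, Pool.Agent.Results.MP_3ec731_nt.OrdersOfBoundedGaps.p (n + i + 1) =
        Pool.Agent.Results.MP_3ec731_nt.OrdersOfBoundedGaps.p (n + i) + 1 * d i},
      Nat.nth Nat.Prime (n + 1) = Nat.nth Nat.Prime n + d 0 := by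
    rintro n ⟨_, hn⟩
    have := hn 0
    simpa [Pool.Agent.Results.MP_3ec731_nt.OrdersOfBoundedGaps.p] using this
  have hd : 1 ≤ d 0 := by
    obtain ⟨n, hn⟩ := hinf.nonempty
    have h4 := hstep n hn
    have h5 : Nat.nth Nat.Prime n < Nat.nth Nat.Prime (n + 1) := hmono (Nat.lt_succ_self n)
    omega
  refine ⟨d 0, hd, ?_⟩
  refine (hinf.image (f := Nat.nth Nat.Prime) hmono.injective.injOn).mono ?_
  rintro _ ⟨n, hn, rfl⟩
  have h4 := hstep n hn
  refine ⟨Nat.prime_nth_prime n, by rw [← h4]; exact Nat.prime_nth_prime (n + 1), ?_⟩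
  intro c h5 h6 hc
  rw [← h4] at h6
  have h7 := Nat.nth_count hc
  rw [← h7] at h5 h6
  have h8 := hmono.lt_iff_lt.1 h5
  have h9 := hmono.lt_iff_lt.1 h6
  omega

/-- Brun-Titchmarsh -/
lemma bt3 : ∃ Y₀ : ℕ, 2 ≤ Y₀ ∧ ∀ A Y : ℕ, Y₀ ≤ Y →
    (((Ioc A (A + Y)).filter Nat.Prime).card : ℝ) ≤ 3 * Y / Real.log Y := by
  obtain ⟨Y₀, h2, h⟩ := Pool.Agent.H902R3.C469.bt2 1 one_pos
  refine ⟨Y₀, h2, fun A Y hY => ?_⟩
  have := h A Y hY
  norm_num at this
  exact this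

lemma card_modEq_ge (A Y M v : ℕ) (hM : 0 < M) :
    (Y : ℝ) / M - 1 ≤ (((Ioc A (A + Y)).filter (fun m => m ≡ v [MOD M])).card : ℝ) := by
  have h := Nat.Ioc_filter_modEq_card A (A + Y) hM v
  have h1 : (⌊(((A + Y : ℕ) : ℚ) - v) / M⌋ - ⌊((A : ℚ) - v) / M⌋ : ℤ) ≤
      (((Ioc A (A + Y)).filter (fun m => m ≡ v [MOD M])).card : ℤ) := by
    rw [h]
    exact le_max_left _ _
  have h2 : ((⌊(((A + Y : ℕ) : ℚ) - v) / M⌋ - ⌊((A : ℚ) - v) / M⌋ : ℤ) : ℚ) ≤
      (((Ioc A (A + Y)).filter (fun m => m ≡ v [MOD M])).card : ℚ) := by exact_mod_cast h1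
  have h3 := Int.lt_floor_add_one ((((A + Y : ℕ) : ℚ) - v) / M)
  have h4 := Int.floor_le (((A : ℚ) - v) / M)
  have h5 : (Y : ℚ) / M - 1 ≤ (((Ioc A (A + Y)).filter (fun m => m ≡ v [MOD M])).card : ℚ) := by
    push_cast at h2 h3 h4
    have : (((A : ℚ) + Y) - v) / M - ((A : ℚ) - v) / M = Y / M := by ring
    linarith
  have h6 := (Rat.cast_le (K := ℝ)).2 h5
  push_cast at h6
  exact h6

theorem block (d : ℕ) (hd : 1 ≤ d) : ∃ C : ℝ, 0 < C ∧ ∀ M : ℕ, 1 ≤ M → ∃ p₀ : ℕ, ∀ p : ℕ, p₀ ≤ p →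
    (((Ioo (p ^ 2) ((p + d) ^ 2)).filter Nat.Prime).card : ℝ) ≤ C * p / Real.log p ∧
    ∃ ψ : ℕ → ℕ, Set.InjOn ψ {r | r.Prime ∧ p ^ 2 < r ∧ r < (p + d) ^ 2} ∧
      ∀ r, r.Prime → p ^ 2 < r → r < (p + d) ^ 2 →
        ψ r ≡ r [MOD M] ∧ ¬ (ψ r).Prime ∧ p ^ 2 - p < ψ r ∧ ψ r < p ^ 2 := by
  classical
  obtain ⟨Y₀, hY₀, hbt⟩ := bt3
  refine ⟨9 * d, by positivity, fun M hM => ?_⟩
  obtain ⟨N, hN⟩ : ∃ N : ℕ, Real.exp (2 * M * (9 * d + 3)) ≤ N := exists_nat_ge _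
  refine ⟨N + Y₀ + d + 2 * M + 4, fun p hp => ?_⟩
  have hp1 : Y₀ ≤ p := by omega
  have hpd : d ≤ p := by omega
  have hpM : 2 * M + 4 ≤ p := by omega
  have hpR : (0 : ℝ) < p := by exact_mod_cast (by omega : 0 < p)
  have hpN : (N : ℝ) ≤ p := by exact_mod_cast (by omega : N ≤ p)
  have hlog : 2 * M * (9 * d + 3) ≤ Real.log p := by
    rw [Real.le_log_iff_exp_le hpR]
    linarith
  have hdR : (1 : ℝ) ≤ d := by exact_mod_cast hd
  have hMR : (1 : ℝ) ≤ M := by exact_mod_cast hM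
  have hlog0 : 0 < Real.log p := by
    have : (0 : ℝ) < 2 * M * (9 * d + 3) := by positivity
    linarith
  -- the number of primes between the squares
  have hB : (((Ioo (p ^ 2) ((p + d) ^ 2)).filter Nat.Prime).card : ℝ) ≤ 9 * d * p / Real.log p := by
    have h1 := hbt (p ^ 2) (2 * d * p + d ^ 2) (by nlinarith)
    have h2 : ((Ioo (p ^ 2) ((p + d) ^ 2)).filter Nat.Prime).card ≤
        ((Ioc (p ^ 2) (p ^ 2 + (2 * d * p + d ^ 2))).filter Nat.Prime).card := by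
      apply card_le_card
      apply filter_subset_filter
      intro x hx
      rw [mem_Ioo] at hx
      rw [mem_Ioc]
      refine ⟨hx.1, ?_⟩
      have := hx.2
      nlinarith
    have h2' : (((Ioo (p ^ 2) ((p + d) ^ 2)).filter Nat.Prime).card : ℝ) ≤
        (((Ioc (p ^ 2) (p ^ 2 + (2 * d * p + d ^ 2))).filter Nat.Prime).card : ℝ) := by exact_mod_cast h2
    have hY : (p : ℝ) ≤ ((2 * d * p + d ^ 2 : ℕ) : ℝ) := by
      push_cast
      nlinarith
    have h3 : Real.log p ≤ Real.log ((2 * d * p + d ^ 2 : ℕ) : ℝ) := Real.log_le_log hpR hY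
    have h4 : ((2 * d * p + d ^ 2 : ℕ) : ℝ) ≤ 3 * d * p := by
      push_cast
      have : (d : ℝ) ≤ p := by exact_mod_cast hpd
      nlinarith
    refine h2'.trans (h1.trans ?_)
    calc 3 * ((2 * d * p + d ^ 2 : ℕ) : ℝ) / Real.log ((2 * d * p + d ^ 2 : ℕ) : ℝ)
        ≤ 3 * (3 * d * p) / Real.log p := by
          apply div_le_div₀ (by positivity) (by linarith) hlog0 h3
      _ = 9 * d * p / Real.log p := by ring
  refine ⟨hB, ?_⟩
  set B := (Ioo (p ^ 2) ((p + d) ^ 2)).filter Nat.Prime with hBdef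
  have hpsq : p ≤ p ^ 2 := by nlinarith
  let t : {r // r ∈ B} → Finset ℕ := fun r =>
    (Ioc (p ^ 2 - p) (p ^ 2 - p + (p - 1))).filter (fun m => m ≡ (r : ℕ) [MOD M] ∧ ¬ m.Prime)
  have ht : ∀ r : {r // r ∈ B}, B.card ≤ (t r).card := by
    intro r
    have h1 := card_modEq_ge (p ^ 2 - p) (p - 1) M (r : ℕ) (by omega)
    have h2 := hbt (p ^ 2 - p) p hp1
    have h3 : ((Ioc (p ^ 2 - p) (p ^ 2 - p + (p - 1))).filter (fun m => m ≡ (r : ℕ) [MOD M])).card ≤
        (t r).card + ((Ioc (p ^ 2 - p) (p ^ 2 - p + p)).filter Nat.Prime).card := by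
      refine le_trans (card_le_card ?_) (card_union_le _ _)
      intro m hm
      rw [mem_filter] at hm
      rw [mem_union]
      by_cases hmp : m.Prime
      · right
        rw [mem_filter]
        refine ⟨?_, hmp⟩
        rw [mem_Ioc] at hm ⊢
        omega
      · left
        rw [mem_filter]
        exact ⟨hm.1, hm.2, hmp⟩
    have h3' : (((Ioc (p ^ 2 - p) (p ^ 2 - p + (p - 1))).filter (fun m => m ≡ (r : ℕ) [MOD M])).card : ℝ) ≤
        ((t r).card : ℝ) + (((Ioc (p ^ 2 - p) (p ^ 2 - p + p)).filter Nat.Prime).card : ℝ) := by exact_mod_cast h3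
    have h4 : ((p - 1 : ℕ) : ℝ) = (p : ℝ) - 1 := by
      rw [Nat.cast_sub (by omega)]; simp
    rw [h4] at h1
    have h5 : (p : ℝ) / (2 * M) ≤ ((p : ℝ) - 1) / M - 1 := by
      rw [div_le_iff₀ (by positivity)]
      have h6 : (((p : ℝ) - 1) / M - 1) * (2 * M) = 2 * (p - 1) - 2 * M := by
        field_simp
      rw [h6]
      have : (2 * M + 4 : ℝ) ≤ p := by exact_mod_cast hpM
      linarith
    have h7 : (9 * d + 3) * p / Real.log p ≤ (p : ℝ) / (2 * M) := by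
      rw [div_le_div_iff₀ hlog0 (by positivity)]
      nlinarith
    have h8 : (9 * d + 3) * p / Real.log p = 9 * d * p / Real.log p + 3 * p / Real.log p := by ring
    have h9 : (B.card : ℝ) ≤ ((t r).card : ℝ) := by linarith
    exact_mod_cast h9
  obtain ⟨f, hf, hft⟩ := (Finset.all_card_le_biUnion_card_iff_exists_injective t).1 (by
    intro s
    rcases s.eq_empty_or_nonempty with h | ⟨r, hr⟩
    · simp [h]
    · calc s.card ≤ Fintype.card {r // r ∈ B} := s.card_le_univ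
        _ = B.card := Fintype.card_coe B
        _ ≤ (t r).card := ht r
        _ ≤ (s.biUnion t).card := card_le_card (subset_biUnion_of_mem t hr))
  have hmem : ∀ r : ℕ, r.Prime → p ^ 2 < r → r < (p + d) ^ 2 → r ∈ B := by
    intro r h1 h2 h3
    rw [hBdef, mem_filter, mem_Ioo]
    exact ⟨⟨h2, h3⟩, h1⟩
  refine ⟨fun r => if h : r ∈ B then f ⟨r, h⟩ else 0, ?_, ?_⟩
  · rintro r ⟨h1, h2, h3⟩ r' ⟨h1', h2', h3'⟩ hrr
    have hr := hmem r h1 h2 h3
    have hr' := hmem r' h1' h2' h3'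
    simp only [hr, hr', dif_pos] at hrr
    have := hf hrr
    exact congrArg Subtype.val this
  · intro r h1 h2 h3
    have hr := hmem r h1 h2 h3
    simp only [hr, dif_pos]
    have h4 := hft ⟨r, hr⟩
    rw [mem_filter, mem_Ioc] at h4
    obtain ⟨⟨h5, h6⟩, h7, h8⟩ := h4
    refine ⟨h7, h8, h5, ?_⟩
    omega

end Pool.Agent.H67.BB
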