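import Pool.Agent.H67.BB.Template

set_option autoImplicit false

/-!
Bohr sets: they meet all intervals of bounded length in all residue classes, and their elements are far apart.
-/

namespace Pool.Agent.H67.BB

open Finset Filter Topology

/-- a Bohr set -/
def bohr (α η : ℝ) : Set ℕ := {m : ℕ | Int.fract (α * m) < η}

lemma exists_step {α : ℝ} (hα : Irrational α) {η : ℝ} (hη : 0 < η) :
    ∃ (k : ℕ) (δ : ℝ) (j : ℤ), 0 < k ∧ α * k = j + δ ∧ δ ≠ 0 ∧ |δ| < η ∧ |δ| < 1 := by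
  obtain ⟨n, hn⟩ := exists_nat_one_div_lt (show 0 < min η 1 by positivity)
  obtain ⟨k, hk0, _, hk⟩ := Real.exists_nat_abs_mul_sub_round_le α (Nat.succ_pos n)
  refine ⟨k, α * k - round (α * k), round (α * k), hk0, by ring, ?_, ?_, ?_⟩
  · intro h
    have h1 : Irrational (α * k) := hα.mul_natCast (by omega)
    apply h1.ne_int (round (α * k))
    linarith
  all_goals
    have h2 : |α * k - round (α * k)| ≤ 1 / ((n : ℝ) + 1) := by
      rw [mul_comm]
      refine hk.trans ?_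
      push_cast
      apply one_div_le_one_div_of_le (by positivity)
      linarith
  · exact lt_of_le_of_lt h2 (lt_of_lt_of_le hn (min_le_left _ _))
  · exact lt_of_le_of_lt h2 (lt_of_lt_of_le hn (min_le_right _ _))

lemma exists_mult (δ : ℝ) (hδ0 : δ ≠ 0) (hδ1 : |δ| < 1) (β : ℝ) :
    ∃ i : ℕ, i ≤ ⌈1 / |δ|⌉₊ ∧ Int.fract (β + i * δ) ≤ |δ| := by
  rcases lt_or_gt_of_ne hδ0 with h | h
  · -- negative
    have ha : |δ| = -δ := abs_of_neg h
    have hd : 0 < |δ| := abs_pos.2 hδ0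
    have h1 := Int.fract_nonneg β
    have h2 := Int.fract_lt_one β
    refine ⟨⌊Int.fract β / |δ|⌋₊, ?_, ?_⟩
    · refine (Nat.floor_le_floor ?_).trans (Nat.floor_le_ceil _)
      exact div_le_div_of_nonneg_right h2.le hd.le
    · have h3 := Nat.floor_le (show 0 ≤ Int.fract β / |δ| by positivity)
      have h4 := Nat.lt_floor_add_one (Int.fract β / |δ|)
      rw [le_div_iff₀ hd] at h3
      rw [div_lt_iff₀ hd] at h4
      have h5 : β + (⌊Int.fract β / |δ|⌋₊ : ℝ) * δ - (⌊β⌋ : ℤ) = Int.fract β - (⌊Int.fract β / |δ|⌋₊ : ℝ) * |δ| := by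
        rw [ha, ← Int.self_sub_floor]; ring
      have h6 : Int.fract (β + (⌊Int.fract β / |δ|⌋₊ : ℝ) * δ) =
          β + (⌊Int.fract β / |δ|⌋₊ : ℝ) * δ - (⌊β⌋ : ℤ) := by
        rw [Int.fract_eq_iff]
        refine ⟨by rw [h5]; linarith, by rw [h5]; linarith, ⌊β⌋, by ring⟩
      rw [h6, h5]
      linarith
  · have ha : |δ| = δ := abs_of_pos h
    rw [ha] at hδ1 ⊢
    have h1 : 0 ≤ (⌈β⌉ : ℝ) - β := by linarith [Int.le_ceil β]
    have h2 : (⌈β⌉ : ℝ) - β < 1 := by linarith [Int.ceil_lt_add_one β]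
    refine ⟨⌈((⌈β⌉ : ℝ) - β) / δ⌉₊, ?_, ?_⟩
    · exact Nat.ceil_le_ceil (div_le_div_of_nonneg_right h2.le h.le)
    · have h3 := Nat.le_ceil (((⌈β⌉ : ℝ) - β) / δ)
      have h4 := Nat.ceil_lt_add_one (show 0 ≤ ((⌈β⌉ : ℝ) - β) / δ by positivity)
      rw [div_le_iff₀ h] at h3
      rw [← sub_lt_iff_lt_add, lt_div_iff₀ h] at h4
      have h6 : Int.fract (β + (⌈((⌈β⌉ : ℝ) - β) / δ⌉₊ : ℝ) * δ) =
          β + (⌈((⌈β⌉ : ℝ) - β) / δ⌉₊ : ℝ) * δ - (⌈β⌉ : ℤ) := by
        rw [Int.fract_eq_iff]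
        refine ⟨by linarith, by nlinarith, ⌈β⌉, by ring⟩
      rw [h6]
      nlinarith

lemma bohr_syn {α : ℝ} (hα : Irrational α) {η : ℝ} (hη : 0 < η) (M : ℕ) (hM : 1 ≤ M) :
    ∃ K : ℕ, 1 ≤ K ∧ Syn (bohr α η) M K := by
  obtain ⟨k, δ, j, hk, hkj, hδ0, hδη, hδ1⟩ := exists_step (hα.mul_natCast (by omega : M ≠ 0)) hη
  refine ⟨M + ⌈1 / |δ|⌉₊ * (k * M) + 1, by omega, fun x v => ?_⟩
  -- the first element of the class after `x`
  obtain ⟨m₀, h1, h2, h3⟩ : ∃ m₀, x ≤ m₀ ∧ m₀ < x + M ∧ m₀ ≡ v [MOD M] := by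
    refine ⟨x + (v + (M - x % M)) % M, Nat.le_add_right _ _, by have := Nat.mod_lt (v + (M - x % M)) hM; omega, ?_⟩
    have hx := Nat.mod_lt x hM
    have h4 : (x + (v + (M - x % M)) % M) ≡ x + (v + (M - x % M)) [MOD M] := Nat.ModEq.add_left _ (Nat.mod_modEq _ _)
    refine h4.trans ?_
    have h5 : x + (v + (M - x % M)) = v + M * (x / M + 1) := by
      have := Nat.div_add_mod x M
      have h6 : M * (x / M + 1) = M * (x / M) + M := by ring
      omega
    rw [h5]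
    show (v + M * (x / M + 1)) % M = v % M
    rw [Nat.add_mul_mod_self_left]
  obtain ⟨i, hi, hfr⟩ := exists_mult δ hδ0 hδ1 (α * m₀)
  refine ⟨m₀ + i * (k * M), ?_, by omega, ?_, ?_⟩
  · show Int.fract (α * ((m₀ + i * (k * M) : ℕ) : ℝ)) < η
    have h4 : α * ((m₀ + i * (k * M) : ℕ) : ℝ) = (α * m₀ + i * δ) + ((i * j : ℤ) : ℝ) := by
      push_cast
      have : α * (i * (k * M)) = i * (α * M * k) := by ring
      rw [mul_add, this, hkj]
      ring
    rw [h4, Int.fract_add_intCast]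
    linarith
  · have : i * (k * M) ≤ ⌈1 / |δ|⌉₊ * (k * M) := Nat.mul_le_mul_right _ hi
    omega
  · have h5 : m₀ + i * (k * M) = m₀ + M * (i * k) := by ring
    rw [h5]
    show (m₀ + M * (i * k)) % M = v % M
    rw [Nat.add_mul_mod_self_left]
    exact h3

/-- elements of narrow Bohr sets are far apart -/
lemma bohr_spaced {α : ℝ} (hα : Irrational α) (L : ℕ) :
    ∃ θ : ℝ, 0 < θ ∧ ∀ a b : ℕ, a < b → a ∈ bohr α θ → b ∈ bohr α θ → a + L ≤ b := by
  induction L with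
  | zero => exact ⟨1, one_pos, fun a b h _ _ => by omega⟩
  | succ L ih =>
    obtain ⟨θ, hθ, h⟩ := ih
    rcases Nat.eq_zero_or_pos L with hL | hL
    · exact ⟨1, one_pos, fun a b h _ _ => by omega⟩
    have hpos : 0 < |α * L - round (α * L)| := by
      rw [abs_pos]
      intro h0
      have h1 : Irrational (α * L) := hα.mul_natCast (by omega)
      apply h1.ne_int (round (α * L))
      linarith
    refine ⟨min θ |α * L - round (α * L)|, lt_min hθ hpos, fun a b hab ha hb => ?_⟩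
    have ha' : Int.fract (α * a) < min θ |α * L - round (α * L)| := ha
    have hb' : Int.fract (α * b) < min θ |α * L - round (α * L)| := hb
    rw [lt_min_iff] at ha' hb'
    have h1 := h a b hab ha'.1 hb'.1
    by_contra hc
    have h2 : b = a + L := by omega
    have h3 : α * L = (Int.fract (α * b) - Int.fract (α * a)) + ((⌊α * b⌋ - ⌊α * a⌋ : ℤ) : ℝ) := by
      rw [h2]
      push_cast
      have e1 := Int.self_sub_floor (α * ((a : ℝ) + L))
      have e2 := Int.self_sub_floor (α * a)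
      rw [← e1, ← e2]
      ring
    have h4 : |α * L - round (α * L)| ≤ |α * L - ((⌊α * b⌋ - ⌊α * a⌋ : ℤ) : ℝ)| := round_le _ _
    have h5 : α * L - ((⌊α * b⌋ - ⌊α * a⌋ : ℤ) : ℝ) = Int.fract (α * b) - Int.fract (α * a) := by
      linarith
    rw [h5] at h4
    have h6 := Int.fract_nonneg (α * a)
    have h7 := Int.fract_nonneg (α * b)
    have h8 : |Int.fract (α * b) - Int.fract (α * a)| < |α * L - round (α * L)| := by
      rw [abs_lt]
      constructor <;> linarith [ha'.2, hb'.2]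
    linarith

lemma card_spaced {S : Set ℕ} {L : ℕ} (hL : 1 ≤ L) (h : ∀ a ∈ S, ∀ b ∈ S, a < b → a + L ≤ b) (X : ℕ) :
    {n | n ≤ X ∧ n ∈ S}.ncard ≤ X / L + 1 := by
  have h1 : Set.InjOn (fun n => n / L) {n | n ≤ X ∧ n ∈ S} := by
    rintro a ⟨_, ha⟩ b ⟨_, hb⟩ hab
    simp only at hab
    by_contra hne
    rcases Nat.lt_or_gt_of_ne hne with hlt | hlt
    · have := h a ha b hb hlt
      have h2 : (a + L) / L ≤ b / L := Nat.div_le_div_right this
      rw [Nat.add_div_right _ hL] at h2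
      omega
    · have := h b hb a ha hlt
      have h2 : (b + L) / L ≤ a / L := Nat.div_le_div_right this
      rw [Nat.add_div_right _ hL] at h2
      omega
  rw [← h1.ncard_image]
  have h2 : (fun n => n / L) '' {n | n ≤ X ∧ n ∈ S} ⊆ ↑(range (X / L + 1)) := by
    rintro _ ⟨n, ⟨hn, _⟩, rfl⟩
    rw [mem_coe, mem_range]
    exact Nat.lt_succ_of_le (Nat.div_le_div_right hn)
  refine (Set.ncard_le_ncard h2 (finite_toSet _)).trans ?_
  rw [Set.ncard_coe_finset, card_range]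

end Pool.Agent.H67.BB
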