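import Mathlib

set_option autoImplicit false

/-!
The quotient of the Euler products over the moved and over the original primes.
-/

namespace Pool.Agent.H67.BB

open Filter Topology

/-- `1 / √r` for the moved primes and `0` for the others -/
noncomputable def uu (φ : ℕ → ℕ) (r : Nat.Primes) : ℝ := if φ r = r then 0 else 1 / √((r : ℕ) : ℝ)

lemma uu_nonneg (φ : ℕ → ℕ) (r : Nat.Primes) : 0 ≤ uu φ r := by
  unfold uu
  split_ifs
  · exact le_rfl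
  · positivity

/-- `φ` moves few primes by little, and preserves almost all residues -/
structure Move (φ : ℕ → ℕ) (C : ℝ) : Prop where
  two : ∀ r : ℕ, r.Prime → 2 ≤ φ r
  low : ∀ r : ℕ, r.Prime → r ≤ 2 * φ r
  disp : ∀ r : ℕ, r.Prime → |(φ r : ℝ) - r| ≤ C * (√(r : ℝ) * Real.log r)
  fin : ∀ q : ℕ, 0 < q → {r : ℕ | r.Prime ∧ ¬ φ r ≡ r [MOD q]}.Finite
  sum : Summable (uu φ)

/-- the Euler term -/
noncomputable def tm (χ : ℕ → ℂ) (a : ℕ) (s : ℂ) : ℂ := χ a * (a : ℂ) ^ (-s)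

lemma norm_tm_le {χ : ℕ → ℂ} (hχ : ∀ n, ‖χ n‖ ≤ 1) {a : ℕ} (ha : 0 < a) (s : ℂ) :
    ‖tm χ a s‖ ≤ (a : ℝ) ^ (-s.re) := by
  unfold tm
  rw [norm_mul, Complex.norm_natCast_cpow_of_pos ha, Complex.neg_re]
  have : (0 : ℝ) ≤ (a : ℝ) ^ (-s.re) := by positivity
  nlinarith [hχ a, norm_nonneg (χ a)]

lemma rpow_neg_le_two {a : ℕ} (ha : 2 ≤ a) {σ : ℝ} (hσ : 0 ≤ σ) : (a : ℝ) ^ (-σ) ≤ (2 : ℝ) ^ (-σ) := by
  apply Real.rpow_le_rpow_of_nonpos (by norm_num) (by exact_mod_cast ha) (by linarith)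

lemma two_rpow_neg_lt {σ : ℝ} (hσ : 0 < σ) : (2 : ℝ) ^ (-σ) < 1 :=
  Real.rpow_lt_one_of_one_lt_of_neg (by norm_num) (by linarith)

lemma le_norm_one_sub {χ : ℕ → ℂ} (hχ : ∀ n, ‖χ n‖ ≤ 1) {a : ℕ} (ha : 2 ≤ a) {s : ℂ} {σ : ℝ} (hσ : 0 ≤ σ)
    (hs : σ ≤ s.re) : 1 - (2 : ℝ) ^ (-σ) ≤ ‖1 - tm χ a s‖ := by
  have h1 := norm_tm_le hχ (by omega : 0 < a) s
  have h2 : (a : ℝ) ^ (-s.re) ≤ (a : ℝ) ^ (-σ) :=
    Real.rpow_le_rpow_of_exponent_le (by exact_mod_cast (by omega : 1 ≤ a)) (by linarith)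
  have h3 := rpow_neg_le_two ha hσ
  have h4 := norm_sub_norm_le (1 : ℂ) (tm χ a s)
  rw [norm_one] at h4
  linarith

lemma one_sub_tm_ne {χ : ℕ → ℂ} (hχ : ∀ n, ‖χ n‖ ≤ 1) {a : ℕ} (ha : 2 ≤ a) {s : ℂ} (hs : 0 < s.re) :
    1 - tm χ a s ≠ 0 := by
  have := le_norm_one_sub hχ ha hs.le le_rfl
  have h2 := two_rpow_neg_lt hs
  rw [← norm_pos_iff]
  linarith

/-- the difference of the two Euler factors -/
noncomputable def ff (φ : ℕ → ℕ) (χ : ℕ → ℂ) (r : Nat.Primes) (s : ℂ) : ℂ :=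
  (tm χ (φ r) s - tm χ r s) / (1 - tm χ (φ r) s)

lemma one_add_ff {φ : ℕ → ℕ} {C : ℝ} (hφ : Move φ C) {χ : ℕ → ℂ} (hχ : ∀ n, ‖χ n‖ ≤ 1) (r : Nat.Primes) {s : ℂ}
    (hs : 0 < s.re) : 1 + ff φ χ r s = (1 - tm χ r s) / (1 - tm χ (φ r) s) := by
  unfold ff
  have := one_sub_tm_ne hχ (hφ.two r r.2) hs
  field_simp
  ring

lemma one_add_ff_ne {φ : ℕ → ℕ} {C : ℝ} (hφ : Move φ C) {χ : ℕ → ℂ} (hχ : ∀ n, ‖χ n‖ ≤ 1) (r : Nat.Primes) {s : ℂ}
    (hs : 0 < s.re) : 1 + ff φ χ r s ≠ 0 := by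
  rw [one_add_ff hφ hχ r hs]
  exact div_ne_zero (one_sub_tm_ne hχ r.2.two_le hs) (one_sub_tm_ne hχ (hφ.two r r.2) hs)

lemma norm_ff_le_half {φ : ℕ → ℕ} {C : ℝ} (hφ : Move φ C) {χ : ℕ → ℂ} (hχ : ∀ n, ‖χ n‖ ≤ 1) (r : Nat.Primes)
    {s : ℂ} (hs : 1 / 2 ≤ s.re) : ‖ff φ χ r s‖ ≤ 9 * uu φ r := by
  unfold ff uu
  split_ifs with h
  · rw [h]; simp
  · have ha := hφ.two r r.2
    have hl := hφ.low r r.2
    have hr2 := r.2.two_le
    have hap : (0 : ℝ) < (φ r : ℝ) := by exact_mod_cast (by omega : 0 < φ r)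
    have hrp : (0 : ℝ) < ((r : ℕ) : ℝ) := by exact_mod_cast r.2.pos
    have key : ∀ a : ℕ, 2 ≤ a → ‖tm χ a s‖ ≤ 1 / √(a : ℝ) := by
      intro a ha
      have h1 := norm_tm_le hχ (by omega : 0 < a) s
      have h2 : (a : ℝ) ^ (-s.re) ≤ (a : ℝ) ^ (-(1 / 2 : ℝ)) :=
        Real.rpow_le_rpow_of_exponent_le (by exact_mod_cast (by omega : 1 ≤ a)) (by linarith)
      have h3 : (a : ℝ) ^ (-(1 / 2 : ℝ)) = 1 / √(a : ℝ) := by
        rw [Real.rpow_neg (by positivity), ← Real.sqrt_eq_rpow, one_div]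
      rw [h3] at h2
      linarith
    have h1 := key _ ha
    have h2 := key _ hr2
    have h3 : 1 / √(φ r : ℝ) ≤ √2 / √((r : ℕ) : ℝ) := by
      rw [div_le_div_iff₀ (Real.sqrt_pos.2 hap) (Real.sqrt_pos.2 hrp), one_mul, ← Real.sqrt_mul (by norm_num)]
      apply Real.sqrt_le_sqrt
      exact_mod_cast hl
    have h4 := le_norm_one_sub hχ ha (by norm_num : (0 : ℝ) ≤ 1 / 2) hs
    have h5 : (2 : ℝ) ^ (-(1 / 2 : ℝ)) = √2 / 2 := by
      rw [Real.rpow_neg (by norm_num), ← Real.sqrt_eq_rpow, Real.sqrt_div_self', one_div]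
    rw [h5] at h4
    have h6 : √2 ≤ 1.4143 := by
      rw [Real.sqrt_le_left (by norm_num)]; norm_num
    have h7 : 0 < ‖1 - tm χ (φ r) s‖ := by linarith
    rw [norm_div, div_le_iff₀ h7]
    have h8 := norm_sub_le (tm χ (φ r) s) (tm χ r s)
    have h9 : 0 < 1 / √((r : ℕ) : ℝ) := by positivity
    have h10 : √2 / √((r : ℕ) : ℝ) = √2 * (1 / √((r : ℕ) : ℝ)) := by ring
    have h11 : ‖tm χ (φ r) s - tm χ r s‖ ≤ (√2 + 1) * (1 / √((r : ℕ) : ℝ)) := by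
      rw [h10] at h3
      linarith
    nlinarith

lemma cpow_sub_le {m x y : ℝ} (hm : 0 < m) (hx : m ≤ x) (hy : m ≤ y) {s : ℂ} (hs : 0 < s.re) :
    ‖(x : ℂ) ^ (-s) - (y : ℂ) ^ (-s)‖ ≤ ‖s‖ * m ^ (-s.re - 1) * |x - y| := by
  have hs0 : s ≠ 0 := by rintro rfl; simp at hs
  have := (convex_Ici m).norm_image_sub_le_of_norm_hasDerivWithin_le (𝕜 := ℝ)
    (f := fun t : ℝ => (t : ℂ) ^ (-s)) (f' := fun t : ℝ => -s * (t : ℂ) ^ (-s - 1))
    (C := ‖s‖ * m ^ (-s.re - 1))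
    (fun t ht => (hasDerivAt_ofReal_cpow_const (lt_of_lt_of_le hm ht).ne' (neg_ne_zero.2 hs0)).hasDerivWithinAt)
    (fun t ht => by
      rw [norm_mul, norm_neg, Complex.norm_cpow_eq_rpow_re_of_pos (lt_of_lt_of_le hm ht)]
      apply mul_le_mul_of_nonneg_left _ (norm_nonneg _)
      simp only [Complex.sub_re, Complex.neg_re, Complex.one_re]
      exact Real.rpow_le_rpow_of_nonpos hm ht (by linarith))
    (show y ∈ Set.Ici m from hy) (show x ∈ Set.Ici m from hx)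
  simpa [Real.norm_eq_abs] using this

/-- the constant in the bound of the terms -/
noncomputable def cst (σ B C : ℝ) : ℝ := B * C * (2 ^ (σ + 1) / σ) / (1 - (2 : ℝ) ^ (-σ))

lemma norm_ff_le {φ : ℕ → ℕ} {C : ℝ} (hφ : Move φ C) {χ : ℕ → ℂ} (hχ : ∀ n, ‖χ n‖ ≤ 1) (r : Nat.Primes)
    {s : ℂ} {σ B : ℝ} (hσ : 0 < σ) (hs : σ ≤ s.re) (hB : ‖s‖ ≤ B) (hr : χ (φ r) = χ r) :
    ‖ff φ χ r s‖ ≤ cst σ B C * uu φ r := by
  unfold ff uu cst
  split_ifs with h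
  · rw [h]; simp
  · have ha := hφ.two r r.2
    have hl := hφ.low r r.2
    have hd := hφ.disp r r.2
    have hr2 := r.2.two_le
    have hrp : (0 : ℝ) < ((r : ℕ) : ℝ) := by exact_mod_cast r.2.pos
    have h4 := le_norm_one_sub hχ ha hσ.le hs
    have h5 := two_rpow_neg_lt hσ
    have h6 : 0 < 1 - (2 : ℝ) ^ (-σ) := by linarith
    have h7 : 0 < ‖1 - tm χ (φ r) s‖ := by linarith
    have hsr : 0 < √((r : ℕ) : ℝ) := Real.sqrt_pos.2 hrp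
    have hlr : 0 < Real.log ((r : ℕ) : ℝ) := Real.log_pos (by exact_mod_cast r.2.one_lt)
    have hC : 0 ≤ C := by
      by_contra hc
      push Not at hc
      have h1 := abs_nonneg ((φ r : ℝ) - (r : ℕ))
      have h2 : 0 < √((r : ℕ) : ℝ) * Real.log ((r : ℕ) : ℝ) := by positivity
      nlinarith
    have hB0 : 0 ≤ B := (norm_nonneg _).trans hB
    have h8 : ‖tm χ (φ r) s - tm χ r s‖ ≤ B * C * (2 ^ (σ + 1) / σ) * (1 / √((r : ℕ) : ℝ)) := by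
      unfold tm
      rw [hr, ← mul_sub, norm_mul]
      have h9 := cpow_sub_le (m := ((r : ℕ) : ℝ) / 2) (x := (φ r : ℝ)) (y := ((r : ℕ) : ℝ)) (by positivity)
        (by rw [div_le_iff₀ (by norm_num), mul_comm]; exact_mod_cast hl) (by linarith) (lt_of_lt_of_le hσ hs)
      simp only [Complex.ofReal_natCast] at h9
      have h10 : (((r : ℕ) : ℝ) / 2) ^ (-s.re - 1) ≤ (((r : ℕ) : ℝ) / 2) ^ (-σ - 1) := by
        apply Real.rpow_le_rpow_of_exponent_le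
        · rw [le_div_iff₀ (by norm_num), one_mul]; exact_mod_cast hr2
        · linarith
      have h10' : (((r : ℕ) : ℝ) / 2) ^ (-σ - 1) = 2 ^ (σ + 1) * (((r : ℕ) : ℝ) ^ (-σ) / ((r : ℕ) : ℝ)) := by
        rw [Real.div_rpow hrp.le (by norm_num), div_eq_mul_inv, ← Real.rpow_neg (by norm_num), mul_comm,
          Real.rpow_sub_one hrp.ne']
        congr 2
        ring
      have h11 : 0 ≤ (((r : ℕ) : ℝ) / 2) ^ (-s.re - 1) := by positivity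
      have h12 : Real.log ((r : ℕ) : ℝ) * ((r : ℕ) : ℝ) ^ (-σ) ≤ 1 / σ := by
        have h13 := Real.log_le_rpow_div hrp.le hσ
        have h14 : ((r : ℕ) : ℝ) ^ σ * ((r : ℕ) : ℝ) ^ (-σ) = 1 := by
          rw [← Real.rpow_add hrp, add_neg_cancel, Real.rpow_zero]
        have h15 : 0 < ((r : ℕ) : ℝ) ^ (-σ) := by positivity
        calc Real.log ((r : ℕ) : ℝ) * ((r : ℕ) : ℝ) ^ (-σ) ≤ ((r : ℕ) : ℝ) ^ σ / σ * ((r : ℕ) : ℝ) ^ (-σ) := by gcongr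
          _ = (((r : ℕ) : ℝ) ^ σ * ((r : ℕ) : ℝ) ^ (-σ)) / σ := by ring
          _ = 1 / σ := by rw [h14]
      have h16 : √((r : ℕ) : ℝ) ^ 2 = ((r : ℕ) : ℝ) := Real.sq_sqrt hrp.le
      have h17 : 0 ≤ C * (√((r : ℕ) : ℝ) * Real.log ((r : ℕ) : ℝ)) := by positivity
      calc _ ≤ 1 * (‖s‖ * (((r : ℕ) : ℝ) / 2) ^ (-s.re - 1) * |(φ r : ℝ) - (r : ℕ)|) :=
            mul_le_mul (hχ _) h9 (norm_nonneg _) zero_le_one
        _ ≤ 1 * (B * (2 ^ (σ + 1) * (((r : ℕ) : ℝ) ^ (-σ) / ((r : ℕ) : ℝ))) *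
              (C * (√((r : ℕ) : ℝ) * Real.log ((r : ℕ) : ℝ)))) := by
            apply mul_le_mul_of_nonneg_left _ zero_le_one
            rw [← h10']
            apply mul_le_mul _ hd (abs_nonneg _) (by positivity)
            exact mul_le_mul hB h10 h11 hB0
        _ = B * C * 2 ^ (σ + 1) * (Real.log ((r : ℕ) : ℝ) * ((r : ℕ) : ℝ) ^ (-σ)) * (√((r : ℕ) : ℝ) / ((r : ℕ) : ℝ)) := by
            ring
        _ ≤ B * C * 2 ^ (σ + 1) * (1 / σ) * (√((r : ℕ) : ℝ) / ((r : ℕ) : ℝ)) := by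
            gcongr
        _ = B * C * (2 ^ (σ + 1) / σ) * (1 / √((r : ℕ) : ℝ)) := by
            have h18 : √((r : ℕ) : ℝ) / ((r : ℕ) : ℝ) = 1 / √((r : ℕ) : ℝ) := by
              rw [div_eq_div_iff hrp.ne' hsr.ne', ← sq, h16, one_mul]
            rw [h18]
            ring
    rw [norm_div, div_le_iff₀ h7]
    have h13 : 0 ≤ B * C * (2 ^ (σ + 1) / σ) * (1 / √((r : ℕ) : ℝ)) := (norm_nonneg _).trans h8
    have h14 : B * C * (2 ^ (σ + 1) / σ) / (1 - (2 : ℝ) ^ (-σ)) * (1 / √((r : ℕ) : ℝ)) =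
        (B * C * (2 ^ (σ + 1) / σ) * (1 / √((r : ℕ) : ℝ))) / (1 - (2 : ℝ) ^ (-σ)) := by ring
    rw [h14]
    calc _ ≤ B * C * (2 ^ (σ + 1) / σ) * (1 / √((r : ℕ) : ℝ)) := h8
      _ = (B * C * (2 ^ (σ + 1) / σ) * (1 / √((r : ℕ) : ℝ))) / (1 - (2 : ℝ) ^ (-σ)) * (1 - (2 : ℝ) ^ (-σ)) := by
          rw [div_mul_cancel₀ _ h6.ne']
      _ ≤ _ := mul_le_mul_of_nonneg_left h4 (div_nonneg h13 h6.le)

/-- the quotient of the Euler products -/
noncomputable def GG (φ : ℕ → ℕ) (χ : ℕ → ℂ) (s : ℂ) : ℂ := ∏' r : Nat.Primes, (1 + ff φ χ r s)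

lemma differentiable_tm (χ : ℕ → ℂ) {a : ℕ} (ha : 0 < a) : Differentiable ℂ (tm χ a) := by
  unfold tm
  have : (a : ℂ) ≠ 0 := by exact_mod_cast ha.ne'
  intro s
  refine (differentiableAt_const _).mul ?_
  exact DifferentiableAt.const_cpow differentiableAt_id.neg (Or.inl this)

lemma differentiableOn_ff {φ : ℕ → ℕ} {C : ℝ} (hφ : Move φ C) {χ : ℕ → ℂ} (hχ : ∀ n, ‖χ n‖ ≤ 1) (r : Nat.Primes) :
    DifferentiableOn ℂ (ff φ χ r) {s : ℂ | 0 < s.re} := by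
  intro s hs
  have h1 := hφ.two r r.2
  have h2 := r.2.pos
  apply DifferentiableAt.differentiableWithinAt
  unfold ff
  refine DifferentiableAt.div ?_ ?_ (one_sub_tm_ne hχ h1 hs)
  · exact ((differentiable_tm χ (by omega)) s).sub ((differentiable_tm χ h2) s)
  · exact (differentiableAt_const _).sub ((differentiable_tm χ (by omega)) s)

lemma summable_ff {φ : ℕ → ℕ} {C : ℝ} (hφ : Move φ C) {χ : ℕ → ℂ} (hχ : ∀ n, ‖χ n‖ ≤ 1)
    (hc : ∀ᶠ r : Nat.Primes in cofinite, χ (φ r) = χ r) {s : ℂ} (hs : 0 < s.re) :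
    Summable (fun r : Nat.Primes => ‖ff φ χ r s‖) := by
  refine (hφ.sum.mul_left (cst s.re ‖s‖ C)).of_norm_bounded_eventually ?_
  filter_upwards [hc] with r hr
  rw [norm_norm]
  exact norm_ff_le hφ hχ r hs le_rfl le_rfl hr

lemma differentiableOn_GG {φ : ℕ → ℕ} {C : ℝ} (hφ : Move φ C) {χ : ℕ → ℂ} (hχ : ∀ n, ‖χ n‖ ≤ 1)
    (hc : ∀ᶠ r : Nat.Primes in cofinite, χ (φ r) = χ r) :
    DifferentiableOn ℂ (GG φ χ) {s : ℂ | 0 < s.re} := by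
  intro s hs
  have hs : 0 < s.re := hs
  set K : Set ℂ := {z : ℂ | s.re / 2 < z.re} ∩ Metric.ball 0 (‖s‖ + 1) with hK
  have hKo : IsOpen K := (isOpen_lt continuous_const Complex.continuous_re).inter Metric.isOpen_ball
  have hsK : s ∈ K := by
    refine ⟨?_, ?_⟩
    · show s.re / 2 < s.re
      linarith
    · simp
  have hKsub : K ⊆ {z : ℂ | 0 < z.re} := by
    rintro z ⟨hz, _⟩
    have hz : s.re / 2 < z.re := hz
    show 0 < z.re
    linarith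
  have hu := hφ.sum.mul_left (cst (s.re / 2) (‖s‖ + 1) C)
  have hlu := Summable.hasProdLocallyUniformlyOn_one_add (f := fun r : Nat.Primes => ff φ χ r) hKo hu (by
    filter_upwards [hc] with r hr
    intro z hz
    refine norm_ff_le hφ hχ r (half_pos hs) (le_of_lt hz.1) ?_ hr
    have := hz.2
    simp only [Metric.mem_ball, dist_zero_right] at this
    exact this.le) (fun r => ((differentiableOn_ff hφ hχ r).mono hKsub).continuousOn)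
  rw [hasProdLocallyUniformlyOn_iff_tendstoLocallyUniformlyOn] at hlu
  have hd := hlu.differentiableOn (Eventually.of_forall fun F => by
    refine DifferentiableOn.fun_finsetProd fun r _ => ?_
    exact (differentiableOn_const _).add ((differentiableOn_ff hφ hχ r).mono hKsub)) hKo
  exact (hd.differentiableAt (hKo.mem_nhds hsK)).differentiableWithinAt

lemma GG_ne_zero {φ : ℕ → ℕ} {C : ℝ} (hφ : Move φ C) {χ : ℕ → ℂ} (hχ : ∀ n, ‖χ n‖ ≤ 1)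
    (hc : ∀ᶠ r : Nat.Primes in cofinite, χ (φ r) = χ r) {s : ℂ} (hs : 0 < s.re) : GG φ χ s ≠ 0 :=
  tprod_one_add_ne_zero_of_summable (fun r => one_add_ff_ne hφ hχ r hs) (summable_ff hφ hχ hc hs)

lemma hasProd_GG {φ : ℕ → ℕ} {C : ℝ} (hφ : Move φ C) {χ : ℕ → ℂ} (hχ : ∀ n, ‖χ n‖ ≤ 1)
    (hc : ∀ᶠ r : Nat.Primes in cofinite, χ (φ r) = χ r) {s : ℂ} (hs : 0 < s.re) :
    HasProd (fun r : Nat.Primes => 1 + ff φ χ r s) (GG φ χ s) :=
  (multipliable_one_add_of_summable (summable_ff hφ hχ hc hs)).hasProd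

lemma norm_GG_sub_one_le {φ : ℕ → ℕ} {C : ℝ} (hφ : Move φ C) {χ : ℕ → ℂ} (hχ : ∀ n, ‖χ n‖ ≤ 1)
    (hc : ∀ᶠ r : Nat.Primes in cofinite, χ (φ r) = χ r) {s : ℂ} (hs : 1 / 2 ≤ s.re) :
    ‖GG φ χ s - 1‖ ≤ Real.exp (9 * ∑' r, uu φ r) - 1 := by
  have h := hasProd_GG hφ hχ hc (by linarith : 0 < s.re)
  have h1 : Tendsto (fun F : Finset Nat.Primes => ‖∏ r ∈ F, (1 + ff φ χ r s) - 1‖) atTop (𝓝 ‖GG φ χ s - 1‖) :=
    (h.sub_const 1).norm
  refine le_of_tendsto h1 (Eventually.of_forall fun F => ?_)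
  refine (F.norm_prod_one_add_sub_one_le _).trans ?_
  gcongr
  calc ∑ r ∈ F, ‖ff φ χ r s‖ ≤ ∑ r ∈ F, 9 * uu φ r := Finset.sum_le_sum fun r _ => norm_ff_le_half hφ hχ r hs
    _ = 9 * ∑ r ∈ F, uu φ r := by rw [Finset.mul_sum]
    _ ≤ _ := by
      gcongr
      exact hφ.sum.sum_le_tsum F fun r _ => uu_nonneg φ r

/-- **The factor.** -/
theorem euler {φ : ℕ → ℕ} {C : ℝ} (hφ : Move φ C) (q : ℕ) [NeZero q] (χ : DirichletCharacter ℂ q) :
    ∃ G : ℂ → ℂ, DifferentiableOn ℂ G {s : ℂ | 0 < s.re} ∧ (∀ s : ℂ, 0 < s.re → G s ≠ 0) ∧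
      (∀ s : ℂ, 1 / 2 ≤ s.re → ‖G s - 1‖ ≤ Real.exp (9 * ∑' r, uu φ r) - 1) ∧
      ∀ s : ℂ, 1 < s.re → HasProd (fun r : Nat.Primes => (1 - χ (φ r) * (φ r : ℂ) ^ (-s))⁻¹)
        (χ.LFunction s * G s) := by
  have hχ : ∀ n : ℕ, ‖(fun n : ℕ => χ (n : ZMod q)) n‖ ≤ 1 := fun n => χ.norm_le_one _
  have hc : ∀ᶠ r : Nat.Primes in cofinite, (fun n : ℕ => χ (n : ZMod q)) (φ r) = (fun n : ℕ => χ (n : ZMod q)) r := by
    have h1 := hφ.fin q (NeZero.pos q)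
    have h2 : {r : Nat.Primes | ¬ φ r ≡ r [MOD q]}.Finite := by
      refine Set.Finite.of_finite_image (f := fun r : Nat.Primes => (r : ℕ)) ?_ (Subtype.val_injective.injOn)
      refine h1.subset ?_
      rintro _ ⟨r, hr, rfl⟩
      exact ⟨r.2, hr⟩
    have h3 := h2.compl_mem_cofinite
    filter_upwards [h3] with r hr
    have hr : φ r ≡ r [MOD q] := by
      by_contra h
      exact hr h
    show χ _ = χ _
    rw [(ZMod.natCast_eq_natCast_iff _ _ _).2 hr]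
  refine ⟨GG φ (fun n : ℕ => χ (n : ZMod q)), differentiableOn_GG hφ hχ hc, fun s hs => GG_ne_zero hφ hχ hc hs,
    fun s hs => norm_GG_sub_one_le hφ hχ hc hs, fun s hs => ?_⟩
  have h1 := DirichletCharacter.LSeries_eulerProduct_hasProd χ hs
  rw [← DirichletCharacter.LFunction_eq_LSeries χ hs] at h1
  have h2 := h1.mul (hasProd_GG hφ hχ hc (by linarith : 0 < s.re))
  convert! h2 using 2 with r
  rw [one_add_ff hφ hχ r (by linarith)]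
  have h3 := one_sub_tm_ne hχ r.2.two_le (by linarith : 0 < s.re)
  have h4 := one_sub_tm_ne hχ (hφ.two r r.2) (by linarith : 0 < s.re)
  unfold tm at h3 h4 ⊢
  rw [← mul_div_assoc, inv_mul_cancel₀ h3, one_div]

end Pool.Agent.H67.BB
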