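import Pool.Agent.H67.BB.Gen
import Pool.Agent.H67.BB.Euler

set_option autoImplicit false

/-!
The number of generalised integers up to `x`.
-/

namespace Pool.Agent.H67.BB

open Filter Topology

lemma abs_rfac_sub_one_le {φ : ℕ → ℕ} {C : ℝ} (hφ : Move φ C) (r : Nat.Primes) :
    |rfac φ r - 1| ≤ 9 * uu φ r := by
  have h1 := norm_ff_le_half hφ (χ := fun _ => 1) (by simp) r (s := 1) (by norm_num)
  have h2 := one_add_ff hφ (χ := fun _ => 1) (by simp) r (s := 1) (by norm_num)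
  have h3 : ((rfac φ r - 1 : ℝ) : ℂ) = ff φ (fun _ => 1) r 1 := by
    have : ff φ (fun _ => 1) r 1 = (1 + ff φ (fun _ => 1) r 1) - 1 := by ring
    rw [this, h2]
    unfold rfac tm
    rw [Complex.cpow_neg_one, Complex.cpow_neg_one]
    push_cast
    simp
  rw [← h3, Complex.norm_real, Real.norm_eq_abs] at h1
  exact h1

lemma one_le_kfac {φ : ℕ → ℕ} {C : ℝ} (hφ : Move φ C) (r : Nat.Primes) : 1 ≤ kfac φ r := by
  unfold kfac
  split_ifs with h
  · exact le_rfl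
  · have ha := hφ.two r r.2
    have hap : (2 : ℝ) ≤ (φ r : ℝ) := by exact_mod_cast ha
    have h1 : 1 < √(φ r : ℝ) := by
      rw [Real.lt_sqrt (by norm_num)]; linarith
    have h2 : 1 / √(φ r : ℝ) < 1 := by rw [div_lt_one (by linarith)]; exact h1
    have h3 : 0 < 1 / √(φ r : ℝ) := by positivity
    have h4 : 0 ≤ 1 / √((r : ℕ) : ℝ) := by positivity
    rw [le_div_iff₀ (by linarith)]
    linarith

lemma kfac_le {φ : ℕ → ℕ} {C : ℝ} (hφ : Move φ C) (r : Nat.Primes) : kfac φ r ≤ Real.exp (9 * uu φ r) := by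
  have key : kfac φ r ≤ 1 + 9 * uu φ r := by
    unfold kfac uu
    split_ifs with h
    · simp
    · have ha := hφ.two r r.2
      have hl := hφ.low r r.2
      have hap : (2 : ℝ) ≤ (φ r : ℝ) := by exact_mod_cast ha
      have hrp : (0 : ℝ) < ((r : ℕ) : ℝ) := by exact_mod_cast r.2.pos
      have h3 : 1 / √(φ r : ℝ) ≤ √2 / √((r : ℕ) : ℝ) := by
        rw [div_le_div_iff₀ (Real.sqrt_pos.2 (by linarith)) (Real.sqrt_pos.2 hrp), one_mul,
          ← Real.sqrt_mul (by norm_num)]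
        apply Real.sqrt_le_sqrt
        exact_mod_cast hl
      have h4 : 1 / √(φ r : ℝ) ≤ √2 / 2 := by
        have : √2 ≤ √(φ r : ℝ) := Real.sqrt_le_sqrt hap
        have h2 : √2 * √2 = 2 := Real.mul_self_sqrt (by norm_num)
        have h20 : 0 < √2 := by positivity
        rw [div_le_div_iff₀ (by linarith) (by norm_num)]
        nlinarith
      have h6 : √2 ≤ 1.4143 := by
        rw [Real.sqrt_le_left (by norm_num)]; norm_num
      have h9 : 0 < 1 / √((r : ℕ) : ℝ) := by positivity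
      have h10 : √2 / √((r : ℕ) : ℝ) = √2 * (1 / √((r : ℕ) : ℝ)) := by ring
      rw [h10] at h3
      rw [div_le_iff₀ (by linarith)]
      nlinarith
  linarith [Real.add_one_le_exp (9 * uu φ r)]

lemma prod_kfac_le {φ : ℕ → ℕ} {C : ℝ} (hφ : Move φ C) (F : Finset Nat.Primes) :
    ∏ r ∈ F, kfac φ r ≤ Real.exp (9 * ∑' r, uu φ r) := by
  calc ∏ r ∈ F, kfac φ r ≤ ∏ r ∈ F, Real.exp (9 * uu φ r) :=
        Finset.prod_le_prod (fun r _ => zero_le_one.trans (one_le_kfac hφ r)) fun r _ => kfac_le hφ r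
    _ = Real.exp (9 * ∑ r ∈ F, uu φ r) := by rw [← Real.exp_sum, Finset.mul_sum]
    _ ≤ _ := by
      gcongr
      exact hφ.sum.sum_le_tsum F fun r _ => uu_nonneg φ r

lemma T_eq_of_large {φ : ℕ → ℕ} {C : ℝ} (hφ : Move φ C) (x : ℝ) :
    ∀ᶠ F : Finset Nat.Primes in atTop, T φ x = T (wF φ F) x := by
  classical
  have hc : ∀ r : ℕ, r.Prime → r ≤ (φ r) ^ 3 := by
    intro r hr
    have h1 := hφ.two r hr
    have h2 := hφ.low r hr
    nlinarith [Nat.mul_le_mul h1 (le_refl (φ r)), Nat.mul_le_mul h1 (le_refl (φ r * φ r))]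
  have hfin : {r : Nat.Primes | (r : ℕ) ≤ ⌊x⌋₊ ^ 3}.Finite :=
    Set.Finite.of_finite_image (f := fun r : Nat.Primes => (r : ℕ))
      ((Set.finite_Iic (⌊x⌋₊ ^ 3)).subset (by rintro _ ⟨r, hr, rfl⟩; exact hr)) Subtype.val_injective.injOn
  filter_upwards [eventually_ge_atTop hfin.toFinset] with F hF
  have hg := good_F hφ.two hc F
  unfold T
  congr 1
  have hgen : ∀ n : ℕ, n ≠ 0 → n ≤ ⌊x⌋₊ ^ 3 → gen φ n = gen (wF φ F) n := by
    intro n h0 hn
    apply gen_congr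
    intro p hp hpn
    unfold wF
    rw [if_pos]
    have h5 : (⟨p, hp⟩ : Nat.Primes) ∈ hfin.toFinset :=
      (Set.Finite.mem_toFinset (a := (⟨p, hp⟩ : Nat.Primes)) hfin).2
        ((Nat.le_of_dvd (Nat.pos_of_ne_zero h0) hpn).trans hn)
    exact ⟨⟨p, hp⟩, hF h5, rfl⟩
  ext n
  constructor
  · rintro ⟨h0, hn⟩
    have h1 : n ≤ ⌊x⌋₊ ^ 3 := (le_gen_cube hc h0).trans (Nat.pow_le_pow_left (Nat.le_floor hn) 3)
    refine ⟨h0, ?_⟩
    rwa [← hgen n h0 h1]
  · rintro ⟨h0, hn⟩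
    have h1 : n ≤ ⌊x⌋₊ ^ 3 := (le_gen_cube hg.cube h0).trans (Nat.pow_le_pow_left (Nat.le_floor hn) 3)
    refine ⟨h0, ?_⟩
    rwa [hgen n h0 h1]

theorem count {φ : ℕ → ℕ} {C : ℝ} (hφ : Move φ C) :
    ∃ ρ : ℝ, |ρ - 1| ≤ Real.exp (9 * ∑' r, uu φ r) - 1 ∧
      ∀ x : ℝ, 0 ≤ x → |(T φ x : ℝ) - ρ * x| ≤ Real.exp (9 * ∑' r, uu φ r) * √x := by
  have hc : ∀ r : ℕ, r.Prime → r ≤ (φ r) ^ 3 := by
    intro r hr
    have h1 := hφ.two r hr
    have h2 := hφ.low r hr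
    nlinarith [Nat.mul_le_mul h1 (le_refl (φ r)), Nat.mul_le_mul h1 (le_refl (φ r * φ r))]
  have hs : Summable (fun r : Nat.Primes => ‖rfac φ r - 1‖) := by
    refine (hφ.sum.mul_left 9).of_nonneg_of_le (fun _ => norm_nonneg _) fun r => ?_
    rw [Real.norm_eq_abs]
    exact abs_rfac_sub_one_le hφ r
  have hm : HasProd (fun r : Nat.Primes => 1 + (rfac φ r - 1)) (∏' r : Nat.Primes, (1 + (rfac φ r - 1))) :=
    (multipliable_one_add_of_summable hs).hasProd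
  refine ⟨∏' r : Nat.Primes, (1 + (rfac φ r - 1)), ?_, fun x hx => ?_⟩
  · have h1 : Tendsto (fun F : Finset Nat.Primes => |∏ r ∈ F, (1 + (rfac φ r - 1)) - 1|) atTop
        (𝓝 |∏' r : Nat.Primes, (1 + (rfac φ r - 1)) - 1|) := (hm.sub_const 1).abs
    refine le_of_tendsto h1 (Eventually.of_forall fun F => ?_)
    rw [← Real.norm_eq_abs]
    refine (F.norm_prod_one_add_sub_one_le _).trans ?_
    gcongr
    calc ∑ r ∈ F, ‖rfac φ r - 1‖ ≤ ∑ r ∈ F, 9 * uu φ r :=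
          Finset.sum_le_sum fun r _ => by rw [Real.norm_eq_abs]; exact abs_rfac_sub_one_le hφ r
      _ = 9 * ∑ r ∈ F, uu φ r := by rw [Finset.mul_sum]
      _ ≤ _ := by
        gcongr
        exact hφ.sum.sum_le_tsum F fun r _ => uu_nonneg φ r
  · have h1 : Tendsto (fun F : Finset Nat.Primes => |(T φ x : ℝ) - (∏ r ∈ F, (1 + (rfac φ r - 1))) * x|) atTop
        (𝓝 |(T φ x : ℝ) - (∏' r : Nat.Primes, (1 + (rfac φ r - 1))) * x|) :=
      ((hm.mul_const x).const_sub _).abs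
    refine le_of_tendsto h1 ?_
    filter_upwards [T_eq_of_large hφ x] with F hF
    have hg := (good_F hφ.two hc F).bound x hx
    simp only [add_sub_cancel]
    rw [hF]
    refine hg.trans ?_
    gcongr
    exact prod_kfac_le hφ F

end Pool.Agent.H67.BB
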