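import Pool.Agent.H67.BB.Template2
import Pool.Agent.H67.BB.Thin
import Pool.Agent.H67.BB.Avoid
import Pool.Agent.H67.BB.Count
import Pool.Graph.R_seed8.Helper923.PPS.BT

set_option autoImplicit false

/-!
The sum of `1 / √p` over the primes `p ≡ 1` modulo `q` up to `(q log q)² / h`.
-/

namespace Pool.Agent.H67.BB

open Finset Filter Topology

/-- Abel summation -/
lemma abel_sqrt {A : Finset ℕ} {D : ℝ} (hD : 0 ≤ D)
    (hA : ∀ i : ℕ, 1 ≤ i → (((Ico 1 i).filter (· ∈ A)).card : ℝ) ≤ D * i) (N : ℕ) (hN : 1 ≤ N) :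
    ∑ k ∈ (Ico 1 N).filter (· ∈ A), 1 / √(k : ℝ) ≤
      (((Ico 1 N).filter (· ∈ A)).card : ℝ) / √(N : ℝ) + D * ∑ i ∈ Ico 1 N, 1 / √(i : ℝ) := by
  induction N, hN using Nat.le_induction with
  | base => simp
  | succ N hN ih =>
    have hN0 : (0 : ℝ) < N := by exact_mod_cast hN
    have h1 : (Ico 1 (N + 1)).filter (· ∈ A) = if N ∈ A then insert N ((Ico 1 N).filter (· ∈ A))
        else (Ico 1 N).filter (· ∈ A) := by
      rw [Nat.Ico_succ_right_eq_insert_Ico hN, filter_insert]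
    have hnot : N ∉ (Ico 1 N).filter (· ∈ A) := by simp
    set c := (((Ico 1 N).filter (· ∈ A)).card : ℝ) with hc
    set c' := (((Ico 1 (N + 1)).filter (· ∈ A)).card : ℝ) with hc'
    -- the sum after the step is at most `c' / √N + D ∑`
    have h2 : ∑ k ∈ (Ico 1 (N + 1)).filter (· ∈ A), 1 / √(k : ℝ) ≤ c' / √(N : ℝ) + D * ∑ i ∈ Ico 1 N, 1 / √(i : ℝ) := by
      rw [hc', h1]
      split_ifs with h
      · rw [sum_insert hnot, card_insert_of_notMem hnot]
        push_cast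
        rw [← hc, add_div]
        linarith
      · rw [← hc]
        exact ih
    refine h2.trans ?_
    rw [Finset.sum_Ico_succ_top hN, mul_add]
    -- `c' / √N - c' / √(N + 1) ≤ D / √N`
    have h3 : c' ≤ D * ((N + 1 : ℕ) : ℝ) := hA (N + 1) (by omega)
    push_cast at h3 ⊢
    have hs : 0 < √(N : ℝ) := Real.sqrt_pos.2 hN0
    have hs' : 0 < √((N : ℝ) + 1) := Real.sqrt_pos.2 (by linarith)
    have hsq : √(N : ℝ) * √(N : ℝ) = N := Real.mul_self_sqrt hN0.le
    have hsq' : √((N : ℝ) + 1) * √((N : ℝ) + 1) = N + 1 := Real.mul_self_sqrt (by linarith)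
    have hle : √(N : ℝ) ≤ √((N : ℝ) + 1) := Real.sqrt_le_sqrt (by linarith)
    have h4 : c' / √(N : ℝ) - c' / √((N : ℝ) + 1) = c' * ((√((N : ℝ) + 1) - √(N : ℝ)) / (√(N : ℝ) * √((N : ℝ) + 1))) := by
      field_simp
    have h5 : (√((N : ℝ) + 1) - √(N : ℝ)) * (√((N : ℝ) + 1) + √(N : ℝ)) = 1 := by
      have : (√((N : ℝ) + 1) - √(N : ℝ)) * (√((N : ℝ) + 1) + √(N : ℝ)) =
        √((N : ℝ) + 1) * √((N : ℝ) + 1) - √(N : ℝ) * √(N : ℝ) := by ring
      rw [this, hsq, hsq']; ring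
    have h6 : c' / √(N : ℝ) - c' / √((N : ℝ) + 1) ≤ D * (1 / √(N : ℝ)) := by
      rw [h4]
      have h7 : 0 ≤ (√((N : ℝ) + 1) - √(N : ℝ)) / (√(N : ℝ) * √((N : ℝ) + 1)) := by
        apply div_nonneg <;> nlinarith
      calc c' * ((√((N : ℝ) + 1) - √(N : ℝ)) / (√(N : ℝ) * √((N : ℝ) + 1)))
          ≤ (D * (N + 1)) * ((√((N : ℝ) + 1) - √(N : ℝ)) / (√(N : ℝ) * √((N : ℝ) + 1))) := by gcongr
        _ = D * (((N + 1) * (√((N : ℝ) + 1) - √(N : ℝ))) / (√(N : ℝ) * √((N : ℝ) + 1))) := by ring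
        _ ≤ D * (1 / √(N : ℝ)) := by
          gcongr ?_ * ?_
          rw [div_le_div_iff₀ (by positivity) hs]
          -- (N+1) (√(N+1) - √N) √N ≤ √N √(N+1)
          have h8 : (N + 1) * (√((N : ℝ) + 1) - √(N : ℝ)) ≤ √((N : ℝ) + 1) := by
            have h9 : √((N : ℝ) + 1) * (√((N : ℝ) + 1) - √(N : ℝ)) ≤ 1 := by nlinarith
            have h10 : √((N : ℝ) + 1) * (√((N : ℝ) + 1) * (√((N : ℝ) + 1) - √(N : ℝ))) ≤ √((N : ℝ) + 1) * 1 := by gcongr
            calc (N + 1) * (√((N : ℝ) + 1) - √(N : ℝ)) =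
                √((N : ℝ) + 1) * (√((N : ℝ) + 1) * (√((N : ℝ) + 1) - √(N : ℝ))) := by
                  rw [← mul_assoc, hsq']
              _ ≤ _ := by linarith
          nlinarith
    have h7 : c' / √(N : ℝ) ≤ c' / √((N : ℝ) + 1) + D * (1 / √(N : ℝ)) := by linarith
    linarith

lemma sum_inv_sqrt_le (N : ℕ) : ∑ i ∈ Ico 1 (N + 1), 1 / √(i : ℝ) ≤ 2 * √(N : ℝ) := by
  induction N with
  | zero => simp
  | succ N ih =>
    rw [Finset.sum_Ico_succ_top (by omega)]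
    have hN0 : (0 : ℝ) ≤ N := Nat.cast_nonneg N
    have hs : 0 ≤ √(N : ℝ) := Real.sqrt_nonneg _
    have hs' : 0 < √((N : ℝ) + 1) := Real.sqrt_pos.2 (by linarith)
    have hsq : √(N : ℝ) * √(N : ℝ) = N := Real.mul_self_sqrt hN0
    have hsq' : √((N : ℝ) + 1) * √((N : ℝ) + 1) = N + 1 := Real.mul_self_sqrt (by linarith)
    have hle : √(N : ℝ) ≤ √((N : ℝ) + 1) := Real.sqrt_le_sqrt (by linarith)
    push_cast
    have h1 : 1 / √((N : ℝ) + 1) ≤ 2 * √((N : ℝ) + 1) - 2 * √(N : ℝ) := by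
      rw [div_le_iff₀ hs']
      nlinarith
    linarith

lemma log_le_four {x : ℝ} (hx : 1 ≤ x) : Real.log x ≤ 4 * √(√x) := by
  have h0 : 0 < √(√x) := Real.sqrt_pos.2 (Real.sqrt_pos.2 (by linarith))
  have h1 : x = (√(√x)) ^ 4 := by
    have e1 : √(√x) ^ 2 = √x := Real.sq_sqrt (Real.sqrt_nonneg _)
    have e2 : √x ^ 2 = x := Real.sq_sqrt (by linarith)
    calc x = (√x) ^ 2 := e2.symm
      _ = (√(√x) ^ 2) ^ 2 := by rw [e1]
      _ = _ := by ring
  calc Real.log x = Real.log ((√(√x)) ^ 4) := by rw [← h1]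
    _ = 4 * Real.log (√(√x)) := by rw [Real.log_pow]; push_cast; ring
    _ ≤ 4 * √(√x) := by
      have := Real.log_le_sub_one_of_pos h0
      linarith

/-- the sum over a class -/
lemma class_sum : ∃ C : ℝ, 0 < C ∧ ∀ q N : ℕ, q.Prime → 2 ≤ N →
    ∑ k ∈ (Ico 1 N).filter (fun k => (1 + k * q).Prime), 1 / √(k : ℝ) ≤ C * √(N : ℝ) / Real.log N := by
  obtain ⟨C, hC, hbt⟩ := Pool.Agent.Helper923.PPS.brun_titchmarsh
  refine ⟨6 * C + 8, by linarith, fun q N hq hN => ?_⟩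
  have hN0 : (2 : ℝ) ≤ N := by exact_mod_cast hN
  have hl : 0 < Real.log N := Real.log_pos (by linarith)
  have hs : 0 < √(N : ℝ) := Real.sqrt_pos.2 (by linarith)
  obtain ⟨A, hA⟩ : ∃ A : Finset ℕ, A = (Ico 1 N).filter (fun k => (1 + k * q).Prime ∧ N < k ^ 2) := ⟨_, rfl⟩
  obtain ⟨D, hD⟩ : ∃ D : ℝ, D = 2 * C / Real.log N := ⟨_, rfl⟩
  have hD0 : 0 ≤ D := by rw [hD]; positivity
  have hcard : ∀ i : ℕ, 1 ≤ i → (((Ico 1 i).filter (· ∈ A)).card : ℝ) ≤ D * i := by
    intro i hi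
    have hi0 : (1 : ℝ) ≤ i := by exact_mod_cast hi
    rcases le_or_gt (i ^ 2) N with h | h
    · have : (Ico 1 i).filter (· ∈ A) = ∅ := by
        rw [Finset.filter_eq_empty_iff]
        intro k hk hkA
        rw [mem_Ico] at hk
        rw [hA, mem_filter] at hkA
        have := hkA.2.2
        nlinarith
      rw [this, card_empty, Nat.cast_zero]
      positivity
    · have hi2 : 2 ≤ i := by
        by_contra hc
        have : i = 1 := by omega
        subst this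
        omega
      have h1 : (((Ico 1 i).filter (· ∈ A)).card : ℝ) ≤ C * i / Real.log i := by
        refine le_trans ?_ (hbt 1 q i hi2 (Or.inr hq))
        have : (Ico 1 i).filter (· ∈ A) ⊆ (range i).filter (fun k => (1 + k * q).Prime) := by
          intro k hk
          rw [mem_filter, mem_Ico] at hk
          rw [mem_filter, mem_range]
          have h2 := hk.2
          rw [hA, mem_filter] at h2
          exact ⟨hk.1.2, h2.2.1⟩
        exact_mod_cast card_le_card this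
      refine h1.trans ?_
      have h2 : Real.log N ≤ 2 * Real.log i := by
        have h3 : Real.log N ≤ Real.log ((i : ℝ) ^ 2) := by
          apply Real.log_le_log (by linarith)
          exact_mod_cast h.le
        rw [Real.log_pow] at h3
        exact_mod_cast h3
      have hli : 0 < Real.log i := by linarith
      rw [hD, div_mul_eq_mul_div, div_le_div_iff₀ hli hl]
      have h4 : 0 ≤ C * i := by positivity
      nlinarith
  have h1 := abel_sqrt hD0 hcard N (by omega)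
  have h2 : (((Ico 1 N).filter (· ∈ A)).card : ℝ) / √(N : ℝ) ≤ D * √(N : ℝ) := by
    rw [div_le_iff₀ hs]
    have := hcard N (by omega)
    have h3 : √(N : ℝ) * √(N : ℝ) = N := Real.mul_self_sqrt (by linarith)
    calc _ ≤ D * N := this
      _ = D * √(N : ℝ) * √(N : ℝ) := by rw [mul_assoc, h3]
  have h3 : ∑ i ∈ Ico 1 N, 1 / √(i : ℝ) ≤ 2 * √(N : ℝ) := by
    have h4 := sum_inv_sqrt_le (N - 1)
    rw [Nat.sub_add_cancel (by omega)] at h4
    refine h4.trans ?_
    gcongr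
    exact_mod_cast Nat.sub_le N 1
  have h4 : ∑ k ∈ (Ico 1 N).filter (· ∈ A), 1 / √(k : ℝ) ≤ 3 * D * √(N : ℝ) := by
    have : D * ∑ i ∈ Ico 1 N, 1 / √(i : ℝ) ≤ D * (2 * √(N : ℝ)) := by gcongr
    linarith
  -- the small ones
  have h5 : ∑ k ∈ (Ico 1 N).filter (fun k => (1 + k * q).Prime), 1 / √(k : ℝ) ≤
      ∑ k ∈ (Ico 1 N).filter (· ∈ A), 1 / √(k : ℝ) + ∑ k ∈ Ico 1 (Nat.sqrt N + 1), 1 / √(k : ℝ) := by
    rw [← Finset.sum_filter_add_sum_filter_not ((Ico 1 N).filter (fun k => (1 + k * q).Prime)) (fun k => N < k ^ 2)]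
    apply add_le_add
    · apply Finset.sum_le_sum_of_subset_of_nonneg
      · intro k hk
        rw [mem_filter, mem_filter] at hk
        rw [mem_filter]
        refine ⟨hk.1.1, ?_⟩
        rw [hA, mem_filter]
        exact ⟨hk.1.1, hk.1.2, hk.2⟩
      · intros; positivity
    · apply Finset.sum_le_sum_of_subset_of_nonneg
      · intro k hk
        rw [mem_filter, mem_filter, mem_Ico] at hk
        rw [mem_Ico]
        refine ⟨hk.1.1.1, ?_⟩
        have h6 : k ≤ Nat.sqrt N := by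
          rw [Nat.le_sqrt']
          omega
        omega
      · intros; positivity
  have h6 : ∑ k ∈ Ico 1 (Nat.sqrt N + 1), 1 / √(k : ℝ) ≤ 2 * √(√(N : ℝ)) := by
    refine (sum_inv_sqrt_le (Nat.sqrt N)).trans ?_
    gcongr
    exact Real.nat_sqrt_le_real_sqrt
  have h7 : 2 * √(√(N : ℝ)) ≤ 8 * √(N : ℝ) / Real.log N := by
    rw [le_div_iff₀ hl]
    have h8 := log_le_four (by linarith : (1 : ℝ) ≤ N)
    have h9 : √(√(N : ℝ)) * √(√(N : ℝ)) = √(N : ℝ) := Real.mul_self_sqrt (Real.sqrt_nonneg _)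
    have h10 : 0 ≤ √(√(N : ℝ)) := Real.sqrt_nonneg _
    nlinarith
  have h8 : 3 * D * √(N : ℝ) = 6 * C * √(N : ℝ) / Real.log N := by rw [hD]; ring
  have h9 : (6 * C + 8) * √(N : ℝ) / Real.log N = 6 * C * √(N : ℝ) / Real.log N + 8 * √(N : ℝ) / Real.log N := by ring
  rw [h9]
  linarith

end Pool.Agent.H67.BB
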