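import Pool.Agent.H67.BB.Block
import Pool.Agent.H67.BB.Count

set_option autoImplicit false

/-!
The construction of the moved primes.
-/

namespace Pool.Agent.H67.BB

open Finset

lemma exists_seq {Good : ℕ → ℕ → Prop} (h : ∀ j N, ∃ p, N ≤ p ∧ Good j p) (F : ℕ → ℕ) :
    ∃ p : ℕ → ℕ, ∀ j, Good j (p j) ∧ F (p j) ≤ p (j + 1) := by
  choose g hg1 hg2 using h
  let p : ℕ → ℕ := fun n => Nat.rec (g 0 0) (fun j x => g (j + 1) (F x)) n
  refine ⟨p, fun j => ⟨?_, hg1 (j + 1) (F (p j))⟩⟩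
  cases j with
  | zero => exact hg2 0 0
  | succ j => exact hg2 (j + 1) (F (p j))

/-- the data of the construction -/
structure Data (d : ℕ) (C ε : ℝ) (p : ℕ → ℕ) (ψ : ℕ → ℕ → ℕ) : Prop where
  hd : 1 ≤ d
  hC : 0 < C
  prime : ∀ j, (p j).Prime
  prime' : ∀ j, (p j + d).Prime
  cons : ∀ j c, p j < c → c < p j + d → ¬ c.Prime
  large : ∀ j, 4 * d + 6 ≤ p j
  next : ∀ j, (p j + d) ^ 4 < p (j + 1)
  card : ∀ j, (((Ioo (p j ^ 2) ((p j + d) ^ 2)).filter Nat.Prime).card : ℝ) ≤ C * p j / Real.log (p j)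
  small : ∀ j, C / Real.log (p j) ≤ ε * (1 / 2) ^ (j + 1)
  inj : ∀ j, Set.InjOn (ψ j) {r | r.Prime ∧ p j ^ 2 < r ∧ r < (p j + d) ^ 2}
  map : ∀ j r, r.Prime → p j ^ 2 < r → r < (p j + d) ^ 2 →
    ψ j r ≡ r [MOD Nat.factorial j] ∧ ¬ (ψ j r).Prime ∧ p j ^ 2 - p j < ψ j r ∧ ψ j r < p j ^ 2

lemma exists_data : ∃ (d : ℕ) (C : ℝ), ∀ ε : ℝ, 0 < ε → ∃ p ψ, Data d C ε p ψ := by
  obtain ⟨d, hd, hinf⟩ := bounded_gap
  obtain ⟨C, hC, hblock⟩ := block d hd
  refine ⟨d, C, fun ε hε => ?_⟩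
  choose p₀ hp₀ using fun j : ℕ => hblock (Nat.factorial j) (Nat.factorial_pos j)
  have hex : ∀ j N : ℕ, ∃ p, N ≤ p ∧ (p.Prime ∧ (p + d).Prime ∧ (∀ c, p < c → c < p + d → ¬ c.Prime) ∧
      4 * d + 6 ≤ p ∧ p₀ j ≤ p ∧ C / Real.log p ≤ ε * (1 / 2) ^ (j + 1)) := by
    intro j N
    obtain ⟨K, hK⟩ : ∃ K : ℕ, Real.exp (C / (ε * (1 / 2) ^ (j + 1))) ≤ K := exists_nat_ge _
    obtain ⟨p, hp, hpN⟩ := hinf.exists_gt (N + (4 * d + 6) + p₀ j + K)
    refine ⟨p, by omega, hp.1, hp.2.1, hp.2.2, by omega, by omega, ?_⟩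
    have hpR : (0 : ℝ) < p := by exact_mod_cast (by omega : 0 < p)
    have h1 : (K : ℝ) ≤ p := by exact_mod_cast (by omega : K ≤ p)
    have h2 : C / (ε * (1 / 2) ^ (j + 1)) ≤ Real.log p := by
      rw [Real.le_log_iff_exp_le hpR]
      linarith
    have h3 : 0 < ε * (1 / 2 : ℝ) ^ (j + 1) := by positivity
    have h4 : 0 < Real.log p := lt_of_lt_of_le (by positivity) h2
    rw [div_le_iff₀ h3] at h2
    rw [div_le_iff₀ h4]
    linarith
  obtain ⟨p, hp⟩ := exists_seq hex (fun x => (x + d) ^ 4 + 1)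
  choose ψ hψ using fun j => (hp₀ j (p j) (hp j).1.2.2.2.2.1).2
  exact ⟨p, ψ, hd, hC, fun j => (hp j).1.1, fun j => (hp j).1.2.1, fun j => (hp j).1.2.2.1,
    fun j => (hp j).1.2.2.2.1, fun j => (hp j).2, fun j => (hp₀ j (p j) (hp j).1.2.2.2.2.1).1,
    fun j => (hp j).1.2.2.2.2.2, fun j => (hψ j).1, fun j => (hψ j).2⟩

section

variable {d : ℕ} {C ε : ℝ} {p : ℕ → ℕ} {ψ : ℕ → ℕ → ℕ}

/-- `r` is a prime in the block `j` -/
def InB (d : ℕ) (p : ℕ → ℕ) (j r : ℕ) : Prop := r.Prime ∧ p j ^ 2 < r ∧ r < (p j + d) ^ 2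

open Classical in
/-- the moved primes -/
noncomputable def phi (d : ℕ) (p : ℕ → ℕ) (ψ : ℕ → ℕ → ℕ) (r : ℕ) : ℕ :=
  if h : ∃ j, InB d p j r then ψ h.choose r else r

lemma Data.step (D : Data d C ε p ψ) {i j : ℕ} (hij : i < j) : (p i + d) ^ 4 < p j := by
  induction j with
  | zero => omega
  | succ j ih =>
    rcases Nat.lt_succ_iff_lt_or_eq.1 hij with h | h
    · have h1 := ih h
      have h2 := D.next j
      have h3 : p j ≤ (p j + d) ^ 4 := (Nat.le_add_right _ _).trans (Nat.le_self_pow (by norm_num) _)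
      omega
    · rw [h]; exact D.next j

lemma Data.strictMono (D : Data d C ε p ψ) : StrictMono p := by
  apply strictMono_nat_of_lt_succ
  intro j
  have h2 := D.next j
  have h3 : p j ≤ (p j + d) ^ 4 := (Nat.le_add_right _ _).trans (Nat.le_self_pow (by norm_num) _)
  omega

lemma Data.step2 (D : Data d C ε p ψ) {i j : ℕ} (hij : i < j) : (p i + d) ^ 2 < p j := by
  have h := D.step hij
  have h1 : (p i + d) ^ 2 ≤ (p i + d) ^ 4 := Nat.pow_le_pow_right (by have := D.large i; omega) (by norm_num)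
  omega

lemma Data.unique (D : Data d C ε p ψ) {i j r : ℕ} (hi : InB d p i r) (hj : InB d p j r) : i = j := by
  rcases lt_trichotomy i j with h | h | h
  · exfalso
    have h1 := D.step2 h
    have h2 := hi.2.2
    have h3 := hj.2.1
    have h4 : p j ≤ p j ^ 2 := Nat.le_self_pow (by norm_num) _
    omega
  · exact h
  · exfalso
    have h1 := D.step2 h
    have h2 := hj.2.2
    have h3 := hi.2.1
    have h4 : p i ≤ p i ^ 2 := Nat.le_self_pow (by norm_num) _
    omega

lemma Data.phi_of_inB (D : Data d C ε p ψ) {j r : ℕ} (h : InB d p j r) : phi d p ψ r = ψ j r := by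
  have hex : ∃ j, InB d p j r := ⟨j, h⟩
  unfold phi
  rw [dif_pos hex, D.unique hex.choose_spec h]

lemma phi_of_not {r : ℕ} (h : ¬ ∃ j, InB d p j r) : phi d p ψ r = r := by
  unfold phi
  rw [dif_neg h]

lemma Data.mapB (D : Data d C ε p ψ) {j r : ℕ} (h : InB d p j r) :
    phi d p ψ r ≡ r [MOD Nat.factorial j] ∧ ¬ (phi d p ψ r).Prime ∧ p j ^ 2 - p j < phi d p ψ r ∧
      phi d p ψ r < p j ^ 2 := by
  rw [D.phi_of_inB h]
  exact D.map j r h.1 h.2.1 h.2.2

lemma Data.pow_facts (D : Data d C ε p ψ) (j : ℕ) :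
    2 ≤ p j ^ 2 - p j ∧ (p j + d) ^ 2 ≤ 2 * (p j ^ 2 - p j) ∧ p j + d ≤ p j ^ 2 - p j ∧ p j ^ 2 ≤ (p j + d) ^ 2 := by
  have h := D.large j
  have hd := D.hd
  obtain ⟨k, hk⟩ : ∃ k, p j = 4 * d + 6 + k := ⟨p j - (4 * d + 6), by omega⟩
  have h2 : p j ^ 2 - p j = p j * (p j - 1) := by
    rw [Nat.mul_sub, sq, mul_one]
  obtain ⟨m, hm⟩ : ∃ m, p j = m + 1 := ⟨p j - 1, by omega⟩
  have h3 : p j - 1 = m := by omega
  rw [h2, h3]
  have h4 : 4 * d + 5 ≤ m := by omega
  rw [hm]
  refine ⟨?_, ?_, ?_, ?_⟩ <;> nlinarith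

lemma Data.two (D : Data d C ε p ψ) {r : ℕ} (hr : r.Prime) : 2 ≤ phi d p ψ r := by
  by_cases h : ∃ j, InB d p j r
  · obtain ⟨j, hj⟩ := h
    have h1 := (D.mapB hj).2.2.1
    have h2 := (D.pow_facts j).1
    omega
  · rw [phi_of_not h]; exact hr.two_le

lemma Data.low (D : Data d C ε p ψ) {r : ℕ} (_hr : r.Prime) : r ≤ 2 * phi d p ψ r := by
  by_cases h : ∃ j, InB d p j r
  · obtain ⟨j, hj⟩ := h
    have h1 := (D.mapB hj).2.2.1
    have h2 := (D.pow_facts j).2.1
    have h3 := hj.2.2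
    omega
  · rw [phi_of_not h]; omega

lemma Data.disp (D : Data d C ε p ψ) {r : ℕ} (_hr : r.Prime) :
    |(phi d p ψ r : ℝ) - r| ≤ (3 * d + 1) * √(r : ℝ) := by
  by_cases h : ∃ j, InB d p j r
  · obtain ⟨j, hj⟩ := h
    have h1 := (D.mapB hj).2.2.1
    have h1' := (D.mapB hj).2.2.2
    have h2 := hj.2.1
    have h3 := hj.2.2
    have hl := D.large j
    have h4 : p j ≤ p j ^ 2 := Nat.le_self_pow (by norm_num) _
    have h5 : (p j : ℝ) ≤ √(r : ℝ) := by
      apply Real.le_sqrt_of_sq_le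
      exact_mod_cast h2.le
    have h6 : (p j : ℝ) ^ 2 < phi d p ψ r + p j := by
      have : p j ^ 2 < phi d p ψ r + p j := by omega
      exact_mod_cast this
    have h7 : (r : ℝ) < ((p j : ℝ) + d) ^ 2 := by exact_mod_cast h3
    have h8 : (phi d p ψ r : ℝ) < r := by exact_mod_cast (by omega : phi d p ψ r < r)
    have h9 : (d : ℝ) ≤ p j := by exact_mod_cast (by omega : d ≤ p j)
    have h10 : (0 : ℝ) ≤ d := by positivity
    rw [abs_sub_comm, abs_of_pos (by linarith)]
    have h11 : (r : ℝ) - phi d p ψ r ≤ (3 * d + 1) * p j := by nlinarith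
    refine h11.trans ?_
    apply mul_le_mul_of_nonneg_left h5
    positivity
  · rw [phi_of_not h]; simp; positivity

lemma Data.fin (D : Data d C ε p ψ) (q : ℕ) (hq : 0 < q) :
    {r : ℕ | r.Prime ∧ ¬ phi d p ψ r ≡ r [MOD q]}.Finite := by
  refine (Set.finite_Iic ((p q + d) ^ 2)).subset ?_
  rintro r ⟨hr, hn⟩
  by_cases h : ∃ j, InB d p j r
  · obtain ⟨j, hj⟩ := h
    have hjq : j < q := by
      by_contra hc
      push Not at hc
      apply hn
      exact (D.mapB hj).1.of_dvd (Nat.dvd_factorial hq hc)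
    have h1 := D.step2 hjq
    have h2 := hj.2.2
    have h3 := (D.pow_facts q).2.2.2
    have h4 : p q ≤ p q ^ 2 := Nat.le_self_pow (by norm_num) _
    show r ≤ (p q + d) ^ 2
    omega
  · exfalso
    apply hn
    rw [phi_of_not h]

lemma Data.injOn (D : Data d C ε p ψ) : Set.InjOn (phi d p ψ) {r | r.Prime} := by
  intro r hr r' hr' h
  by_cases h1 : ∃ j, InB d p j r
  · obtain ⟨j, hj⟩ := h1
    by_cases h2 : ∃ j, InB d p j r'
    · obtain ⟨i, hi⟩ := h2
      have a1 := (D.mapB hj).2.2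
      have b1 := (D.mapB hi).2.2
      have hij : i = j := by
        rcases lt_trichotomy i j with hlt | heq | hlt
        · exfalso
          have e1 := D.step2 hlt
          have e2 := (D.pow_facts i).2.2.2
          have e3 := (D.pow_facts j).2.2.1
          omega
        · exact heq
        · exfalso
          have e1 := D.step2 hlt
          have e2 := (D.pow_facts j).2.2.2
          have e3 := (D.pow_facts i).2.2.1
          omega
      subst hij
      rw [D.phi_of_inB hj, D.phi_of_inB hi] at h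
      exact D.inj i hj hi h
    · exfalso
      rw [phi_of_not h2] at h
      exact (D.mapB hj).2.1 (h ▸ hr')
  · rw [phi_of_not h1] at h
    by_cases h2 : ∃ j, InB d p j r'
    · obtain ⟨i, hi⟩ := h2
      exfalso
      exact (D.mapB hi).2.1 (h ▸ hr)
    · rw [phi_of_not h2] at h
      exact h

/-- the finite set of the primes of a block -/
noncomputable def blockF (d : ℕ) (p : ℕ → ℕ) (j : ℕ) : Finset ℕ :=
  (Ioo (p j ^ 2) ((p j + d) ^ 2)).filter Nat.Prime

lemma mem_blockF {j r : ℕ} : r ∈ blockF d p j ↔ InB d p j r := by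
  unfold blockF InB
  rw [mem_filter, mem_Ioo]
  tauto

lemma Data.sum_le (D : Data d C ε p ψ) (hε : 0 < ε) (F : Finset Nat.Primes) :
    ∑ r ∈ F, uu (phi d p ψ) r ≤ ε := by
  classical
  obtain ⟨J, hJ⟩ : ∃ J : ℕ, ∀ r ∈ F, (r : ℕ) < J :=
    ⟨F.sup (fun r => (r : ℕ)) + 1, fun r hr => Nat.lt_succ_of_le (Finset.le_sup (f := fun r : Nat.Primes => (r : ℕ)) hr)⟩
  have hpt : ∀ r ∈ F, uu (phi d p ψ) r ≤ ∑ j ∈ range J, if InB d p j r then 1 / (p j : ℝ) else 0 := by
    intro r hr
    have hnn : ∀ j ∈ range J, (0 : ℝ) ≤ if InB d p j r then 1 / (p j : ℝ) else 0 := by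
      intro j _
      split_ifs
      · positivity
      · exact le_rfl
    unfold uu
    split_ifs with h
    · exact Finset.sum_nonneg hnn
    · by_cases h1 : ∃ j, InB d p j r
      · obtain ⟨j, hj⟩ := h1
        have hjJ : j ∈ range J := by
          rw [mem_range]
          have h2 := hj.2.1
          have h3 : j ≤ p j := D.strictMono.le_apply
          have h4 : p j ≤ p j ^ 2 := Nat.le_self_pow (by norm_num) _
          have h5 := hJ r hr
          omega
        refine le_trans ?_ (Finset.single_le_sum hnn hjJ)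
        rw [if_pos hj]
        have h5 : (p j : ℝ) ≤ √((r : ℕ) : ℝ) := by
          apply Real.le_sqrt_of_sq_le
          exact_mod_cast hj.2.1.le
        apply one_div_le_one_div_of_le _ h5
        exact_mod_cast (D.prime j).pos
      · exact absurd (phi_of_not h1) h
  calc ∑ r ∈ F, uu (phi d p ψ) r ≤ ∑ r ∈ F, ∑ j ∈ range J, if InB d p j r then 1 / (p j : ℝ) else 0 :=
        Finset.sum_le_sum hpt
    _ = ∑ j ∈ range J, ∑ r ∈ F, if InB d p j r then 1 / (p j : ℝ) else 0 := Finset.sum_comm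
    _ ≤ ∑ j ∈ range J, ε * (1 / 2) ^ (j + 1) := by
        refine Finset.sum_le_sum fun j _ => ?_
        rw [← Finset.sum_filter, Finset.sum_const, nsmul_eq_mul]
        have h1 : (F.filter (fun r : Nat.Primes => InB d p j r)).card ≤ (blockF d p j).card := by
          apply Finset.card_le_card_of_injOn (fun r : Nat.Primes => (r : ℕ))
          · intro r hr
            have hr := (mem_filter.1 (mem_coe.1 hr)).2
            exact mem_coe.2 (mem_blockF.2 hr)
          · exact Subtype.val_injective.injOn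
        have h2 : ((F.filter (fun r : Nat.Primes => InB d p j r)).card : ℝ) ≤ C * p j / Real.log (p j) :=
          le_trans (by exact_mod_cast h1) (D.card j)
        have h3 : (0 : ℝ) < p j := by exact_mod_cast (D.prime j).pos
        calc _ ≤ C * p j / Real.log (p j) * (1 / p j) := by gcongr
          _ = C / Real.log (p j) := by field_simp
          _ ≤ _ := D.small j
    _ = ε * (1 - (1 / 2) ^ J) := by
        rw [← Finset.mul_sum]
        congr 1
        induction J with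
        | zero => simp
        | succ J ih =>
          have h := geom_sum_eq (by norm_num : (1 / 2 : ℝ) ≠ 1) (J + 1)
          have h' : ∑ j ∈ range (J + 1), (1 / 2 : ℝ) ^ (j + 1) = (1 / 2) * ∑ j ∈ range (J + 1), (1 / 2 : ℝ) ^ j := by
            rw [Finset.mul_sum]
            exact Finset.sum_congr rfl fun j _ => by ring
          rw [h', h]
          ring
    _ ≤ ε := by
        have : (0 : ℝ) < (1 / 2) ^ J := by positivity
        nlinarith

lemma Data.summable (D : Data d C ε p ψ) (hε : 0 < ε) : Summable (uu (phi d p ψ)) :=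
  summable_of_sum_le (fun r => uu_nonneg _ r) (fun F => D.sum_le hε F)

lemma Data.tsum_le (D : Data d C ε p ψ) (hε : 0 < ε) : ∑' r, uu (phi d p ψ) r ≤ ε :=
  (D.summable hε).tsum_le_of_sum_le (fun F => D.sum_le hε F)

lemma Data.move (D : Data d C ε p ψ) (hε : 0 < ε) : Move (phi d p ψ) ((3 * d + 1) * 2) where
  two := fun _ hr => D.two hr
  low := fun _ hr => D.low hr
  disp := fun r hr => by
    refine (D.disp hr).trans ?_
    rw [mul_assoc]
    apply mul_le_mul_of_nonneg_left _ (by positivity)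
    have h1 : Real.log 2 ≤ Real.log r := Real.log_le_log (by norm_num) (by exact_mod_cast hr.two_le)
    have h2 := Real.log_two_gt_d9
    have h3 := Real.sqrt_nonneg (r : ℝ)
    nlinarith
  fin := fun q hq => D.fin q hq
  sum := D.summable hε

end

end Pool.Agent.H67.BB
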