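import Pool.Agent.H67.BB.Template

set_option autoImplicit false

/-!
Euler products with arbitrary bounded coefficients over the moved primes.
-/

namespace Pool.Agent.H67.BB

open Filter Topology

lemma multipliable_base {χ : ℕ → ℂ} (hχ : ∀ n, ‖χ n‖ ≤ 1) {s : ℂ} (hs : 1 < s.re) :
    Multipliable (fun r : Nat.Primes => (1 - tm χ r s)⁻¹) := by
  have h0 : 0 < s.re := by linarith
  have h1 : ∀ r : Nat.Primes, (1 - tm χ r s)⁻¹ = 1 + tm χ r s * (1 - tm χ r s)⁻¹ := by
    intro r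
    have h2 := one_sub_tm_ne hχ r.2.two_le h0
    field_simp
    ring
  rw [show (fun r : Nat.Primes => (1 - tm χ r s)⁻¹) = fun r : Nat.Primes => 1 + tm χ r s * (1 - tm χ r s)⁻¹ from funext h1]
  apply multipliable_one_add_of_summable
  have h3 : Summable (fun r : Nat.Primes => ((r : ℕ) : ℝ) ^ (-s.re) * (1 / (1 - (2 : ℝ) ^ (-s.re)))) :=
    (Nat.Primes.summable_rpow.2 (by linarith)).mul_right _
  refine h3.of_nonneg_of_le (fun _ => norm_nonneg _) fun r => ?_
  rw [norm_mul, norm_inv]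
  have h4 := norm_tm_le hχ r.2.pos s
  have h5 : 1 - (2 : ℝ) ^ (-s.re) ≤ ‖1 - tm χ r s‖ := by
    have h6 := norm_sub_norm_le (1 : ℂ) (tm χ r s)
    rw [norm_one] at h6
    have h7 := rpow_neg_le_two r.2.two_le h0.le
    linarith
  have h8 : 0 < 1 - (2 : ℝ) ^ (-s.re) := by
    have := two_rpow_neg_lt h0
    linarith
  rw [one_div]
  gcongr

theorem Out.eulerGen {T : ℕ → Set ℕ} {f : ℕ → ℝ} {φ X : ℕ → ℕ} (O : Out T f φ X) (c : ℕ → ℂ)
    (hc : ∀ n, ‖c n‖ ≤ 1) :
    ∃ G : ℂ → ℂ, DifferentiableOn ℂ G {s : ℂ | 0 < s.re} ∧ (∀ s : ℂ, 0 < s.re → G s ≠ 0) ∧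
      ∀ s : ℂ, 1 < s.re → ∃ P : ℂ, HasProd (fun r : Nat.Primes => (1 - c r * ((r : ℕ) : ℂ) ^ (-s))⁻¹) P ∧
        HasProd (fun r : Nat.Primes => (1 - c r * (φ r : ℂ) ^ (-s))⁻¹) (P * G s) := by
  classical
  have hφ := O.move
  obtain ⟨χ, hχdef⟩ : ∃ χ : ℕ → ℂ, χ = fun n => if n.Prime then c n else
    if h : ∃ r, r.Prime ∧ φ r = n then c h.choose else 0 := ⟨_, rfl⟩
  have hχ : ∀ n, ‖χ n‖ ≤ 1 := by
    intro n
    rw [hχdef]
    simp only
    split_ifs
    · exact hc n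
    · exact hc _
    · simp
  have h1 : ∀ r : ℕ, r.Prime → χ r = c r := by
    intro r hr
    rw [hχdef]
    simp [hr]
  have hnp : ∀ r : ℕ, r.Prime → φ r ≠ r → ¬ (φ r).Prime := by
    intro r hr hm
    rcases lt_or_ge r (X 0) with h | h
    · exact absurd (O.small r hr h) hm
    · obtain ⟨j, h3, h4⟩ : ∃ j, X j ≤ r ∧ r < X (j + 1) := by
        have hP : ∃ m, r < X m := ⟨r + 1, lt_of_lt_of_le (Nat.lt_succ_self r) O.mono.le_apply⟩
        have h1 := Nat.find_spec hP
        have h2 : Nat.find hP ≠ 0 := by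
          intro h0
          rw [h0] at h1
          omega
        refine ⟨Nat.find hP - 1, ?_, ?_⟩
        · have := Nat.find_min hP (m := Nat.find hP - 1) (by omega)
          omega
        · rw [Nat.sub_add_cancel (by omega)]
          exact h1
      exact (O.stage j r hr h3 h4).2.2.2.2.2 hm
  have h2 : ∀ r : ℕ, r.Prime → χ (φ r) = c r := by
    intro r hr
    by_cases hm : φ r = r
    · rw [hm]; exact h1 r hr
    · rw [hχdef]
      simp only
      rw [if_neg (hnp r hr hm)]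
      have hex : ∃ r', r'.Prime ∧ φ r' = φ r := ⟨r, hr, rfl⟩
      rw [dif_pos hex]
      have h3 := O.inj hex.choose_spec.1 hr hex.choose_spec.2
      rw [h3]
  have hcc : ∀ᶠ r : Nat.Primes in cofinite, χ (φ r) = χ r :=
    Eventually.of_forall fun r => by rw [h2 r r.2, h1 r r.2]
  refine ⟨GG φ χ, differentiableOn_GG2 hφ hχ hcc,
    fun s hs => tprod_one_add_ne_zero_of_summable (fun r => one_add_ff_ne2 hφ hχ r hs) (summable_ff2 hφ hχ hcc hs),
    fun s hs => ?_⟩
  have hb := (multipliable_base hχ hs).hasProd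
  have hG : HasProd (fun r : Nat.Primes => 1 + ff φ χ r s) (GG φ χ s) :=
    (multipliable_one_add_of_summable (summable_ff2 hφ hχ hcc (by linarith : 0 < s.re))).hasProd
  have h3 := hb.mul hG
  refine ⟨∏' r : Nat.Primes, (1 - tm χ r s)⁻¹, ?_, ?_⟩
  · convert! hb using 2 with r
    unfold tm
    rw [h1 r r.2]
  · convert! h3 using 2 with r
    rw [one_add_ff2 hφ hχ r (by linarith)]
    have h4 := one_sub_tm_ne hχ r.2.two_le (by linarith : 0 < s.re)
    have h5 := one_sub_tm_ne hχ (hφ.two r r.2) (by linarith : 0 < s.re)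
    unfold tm at h4 h5 ⊢
    rw [← mul_div_assoc, inv_mul_cancel₀ h4, one_div, h2 r r.2]

end Pool.Agent.H67.BB
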