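import Pool.Agent.H67.BB.Constr

set_option autoImplicit false

/-!
The number of moved primes, and the failure of Brocard's inequality.
-/

namespace Pool.Agent.H67.BB

open Finset

variable {d : ℕ} {C ε : ℝ} {p : ℕ → ℕ} {ψ : ℕ → ℕ → ℕ}

lemma log_le_two_sqrt {x : ℝ} (hx : 0 < x) : Real.log x ≤ 2 * √x := by
  have h1 : Real.log x = 2 * Real.log (√x) := by
    rw [Real.log_sqrt hx.le]; ring
  have h2 := Real.log_le_sub_one_of_pos (Real.sqrt_pos.2 hx)
  linarith

lemma Data.count_moved (D : Data d C ε p ψ) (x : ℝ) (hx : 2 ≤ x) :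
    ({r : ℕ | r.Prime ∧ (r : ℝ) ≤ x ∧ phi d p ψ r ≠ r}.ncard : ℝ) ≤ (2 * C + 4) * √x / Real.log x := by
  classical
  have hlogx : 0 < Real.log x := Real.log_pos (by linarith)
  have hC := D.hC
  have hrhs : 0 ≤ (2 * C + 4) * √x / Real.log x := by positivity
  have hex : ∃ j, ¬ ((p j : ℝ) ^ 2 < x) := by
    refine ⟨⌈x⌉₊, ?_⟩
    push Not
    have h3 : ⌈x⌉₊ ≤ p ⌈x⌉₊ := D.strictMono.le_apply
    have h4 : x ≤ (p ⌈x⌉₊ : ℝ) := (Nat.le_ceil x).trans (by exact_mod_cast h3)
    nlinarith
  obtain ⟨m, hm1, hm2⟩ : ∃ m, ¬ ((p m : ℝ) ^ 2 < x) ∧ ∀ j < m, (p j : ℝ) ^ 2 < x :=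
    ⟨Nat.find hex, Nat.find_spec hex, fun j hj => by
      have := Nat.find_min hex hj
      push Not at this
      exact this⟩
  have hlt : ∀ j r, InB d p j r → (r : ℝ) ≤ x → j < m := by
    intro j r hj hr
    by_contra hc
    push Not at hc
    have h1 : p m ≤ p j := D.strictMono.monotone hc
    have h2 : (p m : ℝ) ≤ p j := by exact_mod_cast h1
    have h3 : ((p j : ℝ)) ^ 2 < r := by exact_mod_cast hj.2.1
    apply hm1
    have h4 : (0 : ℝ) ≤ p m := by positivity
    nlinarith
  cases m with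
  | zero =>
    have : {r : ℕ | r.Prime ∧ (r : ℝ) ≤ x ∧ phi d p ψ r ≠ r} = ∅ := by
      rw [Set.eq_empty_iff_forall_notMem]
      rintro r ⟨_, h2, h3⟩
      by_cases h : ∃ j, InB d p j r
      · obtain ⟨j, hj⟩ := h
        have := hlt j r hj h2
        omega
      · exact h3 (phi_of_not h)
    rw [this, Set.ncard_empty]
    simpa using hrhs
  | succ J =>
    have hJ := hm2 J (Nat.lt_succ_self J)
    have hpJ : (6 : ℝ) ≤ p J := by exact_mod_cast (by have := D.large J; omega : 6 ≤ p J)
    have hpJ0 : (0 : ℝ) < p J := by linarith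
    have hlogJ : 0 < Real.log (p J) := Real.log_pos (by linarith)
    -- the elements of the earlier blocks
    obtain ⟨E, hE, hEc⟩ : ∃ E : Finset ℕ, (∀ i < J, ∀ r, InB d p i r → r ∈ E) ∧
        (E.card : ℝ) ≤ 2 * (p J / Real.log (p J)) := by
      cases J with
      | zero => exact ⟨∅, fun i hi => by omega, by simp; positivity⟩
      | succ J =>
        refine ⟨range ((p J + d) ^ 2), fun i hi r hr => ?_, ?_⟩
        · rw [mem_range]
          have h1 : p i ≤ p J := D.strictMono.monotone (Nat.lt_succ_iff.1 hi)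
          have h2 := hr.2.2
          have h3 : (p i + d) ^ 2 ≤ (p J + d) ^ 2 := Nat.pow_le_pow_left (by omega) 2
          omega
        · rw [card_range]
          have h1 := D.next J
          have h2 : (((p J + d) ^ 2 : ℕ) : ℝ) ≤ √(p (J + 1) : ℝ) := by
            apply Real.le_sqrt_of_sq_le
            have : ((p J + d) ^ 2) ^ 2 ≤ p (J + 1) := by
              rw [← pow_mul]
              exact h1.le
            exact_mod_cast this
          refine h2.trans ?_
          rw [← mul_div_assoc, le_div_iff₀ hlogJ]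
          have h3 := log_le_two_sqrt hpJ0
          have h4 : √(p (J + 1) : ℝ) * √(p (J + 1) : ℝ) = p (J + 1) := Real.mul_self_sqrt hpJ0.le
          have h5 := Real.sqrt_nonneg (p (J + 1) : ℝ)
          nlinarith
    have hsub : {r : ℕ | r.Prime ∧ (r : ℝ) ≤ x ∧ phi d p ψ r ≠ r} ⊆ ↑(E ∪ blockF d p J) := by
      rintro r ⟨_, h2, h3⟩
      by_cases h : ∃ j, InB d p j r
      · obtain ⟨j, hj⟩ := h
        have h4 := hlt j r hj h2
        rw [mem_coe, mem_union]
        rcases Nat.lt_succ_iff_lt_or_eq.1 h4 with h5 | h5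
        · exact Or.inl (hE j h5 r hj)
        · right
          rw [← h5]
          exact mem_blockF.2 hj
      · exact absurd (phi_of_not h) h3
    have h1 : {r : ℕ | r.Prime ∧ (r : ℝ) ≤ x ∧ phi d p ψ r ≠ r}.ncard ≤ E.card + (blockF d p J).card := by
      refine (Set.ncard_le_ncard hsub (Finset.finite_toSet _)).trans ?_
      rw [Set.ncard_coe_finset]
      exact card_union_le _ _
    have h2 : ({r : ℕ | r.Prime ∧ (r : ℝ) ≤ x ∧ phi d p ψ r ≠ r}.ncard : ℝ) ≤ (C + 2) * (p J / Real.log (p J)) := by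
      have h3 : ({r : ℕ | r.Prime ∧ (r : ℝ) ≤ x ∧ phi d p ψ r ≠ r}.ncard : ℝ) ≤ E.card + (blockF d p J).card := by
        exact_mod_cast h1
      have h4 : ((blockF d p J).card : ℝ) ≤ C * p J / Real.log (p J) := D.card J
      have h5 : C * p J / Real.log (p J) = C * (p J / Real.log (p J)) := by ring
      linarith
    refine h2.trans ?_
    have hsx : (p J : ℝ) ≤ √x := Real.le_sqrt_of_sq_le hJ.le
    have hsx6 : (6 : ℝ) ≤ √x := hpJ.trans hsx
    have hlogs : 0 < Real.log (√x) := Real.log_pos (by linarith)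
    have he : Real.exp 1 ≤ 6 := by
      have := Real.exp_one_lt_d9
      linarith
    have hanti := Real.log_div_self_antitoneOn (a := (p J : ℝ)) (b := √x) (by show Real.exp 1 ≤ _; linarith)
      (by show Real.exp 1 ≤ _; linarith) hsx
    have h6 : (p J : ℝ) / Real.log (p J) ≤ √x / Real.log (√x) := by
      simp only at hanti
      rw [div_le_div_iff₀ (by linarith) hpJ0] at hanti
      rw [div_le_div_iff₀ hlogJ hlogs]
      linarith
    have h7 : √x / Real.log (√x) = 2 * (√x / Real.log x) := by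
      rw [Real.log_sqrt (by linarith)]
      field_simp
    rw [h7] at h6
    calc (C + 2) * (p J / Real.log (p J)) ≤ (C + 2) * (2 * (√x / Real.log x)) := by gcongr
      _ = _ := by ring

lemma Data.not_inB (D : Data d C ε p ψ) (j : ℕ) (e : ℕ) (he : e ≤ d) : ¬ ∃ i, InB d p i (p j + e) := by
  rintro ⟨i, hi⟩
  have h1 := hi.2.1
  have h2 := hi.2.2
  have hl := D.pow_facts i
  rcases lt_or_ge i j with h | h
  · have h3 := D.step2 h
    omega
  · have h3 : p j ≤ p i := D.strictMono.monotone h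
    omega

lemma Data.fail (D : Data d C ε p ψ) (j : ℕ) :
    (p j ∈ phi d p ψ '' {r | r.Prime} ∧ p j + d ∈ phi d p ψ '' {r | r.Prime} ∧ p j < p j + d ∧
      ∀ c ∈ phi d p ψ '' {r | r.Prime}, ¬ (p j < c ∧ c < p j + d)) ∧
    ∀ c ∈ phi d p ψ '' {r | r.Prime}, ¬ (p j ^ 2 < c ∧ c < (p j + d) ^ 2) := by
  have hd := D.hd
  refine ⟨⟨⟨p j, D.prime j, phi_of_not (by simpa using D.not_inB j 0 (Nat.zero_le _))⟩,
    ⟨p j + d, D.prime' j, phi_of_not (D.not_inB j d le_rfl)⟩, by omega, ?_⟩, ?_⟩
  · rintro _ ⟨r, hr, rfl⟩ ⟨h1, h2⟩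
    by_cases h : ∃ i, InB d p i r
    · obtain ⟨i, hi⟩ := h
      have h3 := (D.mapB hi).2.2
      have hf := D.pow_facts i
      rcases lt_or_ge i j with h | h
      · have h4 := D.step2 h
        omega
      · have h4 : p j ≤ p i := D.strictMono.monotone h
        omega
    · rw [phi_of_not h] at h1 h2
      exact D.cons j r h1 h2 hr
  · rintro _ ⟨r, hr, rfl⟩ ⟨h1, h2⟩
    by_cases h : ∃ i, InB d p i r
    · obtain ⟨i, hi⟩ := h
      have h3 := (D.mapB hi).2.2
      have hf := D.pow_facts i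
      have hf' := D.pow_facts j
      rcases lt_trichotomy i j with h | h | h
      · have h4 := D.step2 h
        have h5 : p j ≤ p j ^ 2 := Nat.le_self_pow (by norm_num) _
        omega
      · subst h
        omega
      · have h4 := D.step2 h
        omega
    · rw [phi_of_not h] at h1 h2
      exact h ⟨j, hr, h1, h2⟩

end Pool.Agent.H67.BB
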