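import Pool.Agent.H67.BB.Block
import Pool.Agent.H67.BB.Euler2

set_option autoImplicit false

/-!
Moving all primes by little into prescribed sets.
-/

namespace Pool.Agent.H67.BB

open Finset Filter Topology

/-- `T` meets every interval of length `K` in every residue class modulo `M` -/
def Syn (T : Set ℕ) (M K : ℕ) : Prop := ∀ x v : ℕ, ∃ m ∈ T, x ≤ m ∧ m < x + K ∧ m ≡ v [MOD M]

lemma card_syn {T : Set ℕ} {M K : ℕ} (hK : 1 ≤ K) (h : Syn T M K) (a N v : ℕ) :
    ∃ S : Finset ℕ, N ≤ S.card ∧ ∀ m ∈ S, m ∈ T ∧ a ≤ m ∧ m < a + K * N ∧ m ≡ v [MOD M] := by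
  choose g h1 h2 h3 h4 using h
  refine ⟨(range N).image (fun i => g (a + K * i) v), ?_, ?_⟩
  · rw [card_image_of_injOn, card_range]
    intro i _ j _ hij
    simp only at hij
    have a1 := h2 (a + K * i) v
    have a2 := h3 (a + K * i) v
    have b1 := h2 (a + K * j) v
    have b2 := h3 (a + K * j) v
    rw [hij] at a1 a2
    by_contra hne
    rcases Nat.lt_or_gt_of_ne hne with h | h
    · have : K * (i + 1) ≤ K * j := Nat.mul_le_mul_left K h
      rw [mul_add, mul_one] at this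
      omega
    · have : K * (j + 1) ≤ K * i := Nat.mul_le_mul_left K h
      rw [mul_add, mul_one] at this
      omega
  · intro m hm
    rw [mem_image] at hm
    obtain ⟨i, hi, rfl⟩ := hm
    rw [mem_range] at hi
    refine ⟨h1 _ _, ?_, ?_, h4 _ _⟩
    · exact le_trans (Nat.le_add_right _ _) (h2 _ _)
    · refine lt_of_lt_of_le (h3 _ _) ?_
      have : K * (i + 1) ≤ K * N := Nat.mul_le_mul_left K hi
      rw [mul_add, mul_one] at this
      omega

/-- one block -/
lemma block2 {T : Set ℕ} {M K : ℕ} (hK : 1 ≤ K) (h : Syn T M K) :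
    ∃ N₀ : ℕ, ∀ N : ℕ, N₀ ≤ N → ∀ a : ℕ, 1 ≤ a → ∃ ψ : ℕ → ℕ,
      Set.InjOn ψ {r | r.Prime ∧ a ≤ r ∧ r < a + K * N} ∧
      ∀ r, r.Prime → a ≤ r → r < a + K * N → ψ r ≡ r [MOD M] ∧ ¬ (ψ r).Prime ∧ a ≤ ψ r ∧ ψ r < a + K * N ∧
        ψ r ∈ T := by
  classical
  obtain ⟨Y₀, hY₀, hbt⟩ := bt3
  obtain ⟨N₁, hN₁⟩ : ∃ N₁ : ℕ, Real.exp (6 * K) ≤ N₁ := exists_nat_ge _
  refine ⟨Y₀ + N₁ + 1, fun N hN a ha => ?_⟩
  have hKN : N ≤ K * N := Nat.le_mul_of_pos_left N hK
  have hKR : (1 : ℝ) ≤ K := by exact_mod_cast hK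
  have hNR : (1 : ℝ) ≤ N := by exact_mod_cast (by omega : 1 ≤ N)
  have hDR : ((K * N : ℕ) : ℝ) = (K : ℝ) * N := by push_cast; ring
  have hD0 : (0 : ℝ) < ((K * N : ℕ) : ℝ) := by rw [hDR]; positivity
  have hlog : 6 * (K : ℝ) ≤ Real.log ((K * N : ℕ) : ℝ) := by
    rw [Real.le_log_iff_exp_le hD0]
    refine hN₁.trans ?_
    exact_mod_cast (by omega : N₁ ≤ K * N)
  have hlog0 : 0 < Real.log ((K * N : ℕ) : ℝ) := by linarith
  have h1 := hbt (a - 1) (K * N) (by omega)
  set B := (Ioc (a - 1) (a - 1 + K * N)).filter Nat.Prime with hB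
  have h2 : 2 * (B.card : ℝ) ≤ N := by
    have h3 : 3 * ((K * N : ℕ) : ℝ) / Real.log ((K * N : ℕ) : ℝ) ≤ N / 2 := by
      rw [div_le_iff₀ hlog0]
      have : (N : ℝ) / 2 * (6 * (K : ℝ)) ≤ N / 2 * Real.log ((K * N : ℕ) : ℝ) :=
        mul_le_mul_of_nonneg_left hlog (by positivity)
      rw [hDR] at this ⊢
      linarith
    linarith
  have h2' : 2 * B.card ≤ N := by exact_mod_cast h2
  have hmem : ∀ r : ℕ, r.Prime → a ≤ r → r < a + K * N → r ∈ B := by
    intro r h1 h2 h3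
    rw [hB, mem_filter, mem_Ioc]
    exact ⟨⟨by omega, by omega⟩, h1⟩
  choose S hS1 hS2 using fun r : ℕ => card_syn hK h a N r
  let t : {r // r ∈ B} → Finset ℕ := fun r => (S r).filter (fun m => ¬ m.Prime)
  have ht : ∀ r : {r // r ∈ B}, B.card ≤ (t r).card := by
    intro r
    have h3 : (S r).card ≤ (t r).card + B.card := by
      refine le_trans (card_le_card ?_) (card_union_le _ _)
      intro m hm
      rw [mem_union]
      by_cases hmp : m.Prime
      · right
        have := hS2 r m hm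
        exact hmem m hmp this.2.1 this.2.2.1
      · left
        rw [mem_filter]
        exact ⟨hm, hmp⟩
    have h4 := hS1 (r : ℕ)
    omega
  obtain ⟨f, hf, hft⟩ := (Finset.all_card_le_biUnion_card_iff_exists_injective t).1 (by
    intro s
    rcases s.eq_empty_or_nonempty with h | ⟨r, hr⟩
    · simp [h]
    · calc s.card ≤ Fintype.card {r // r ∈ B} := s.card_le_univ
        _ = B.card := Fintype.card_coe B
        _ ≤ (t r).card := ht r
        _ ≤ (s.biUnion t).card := card_le_card (subset_biUnion_of_mem t hr))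
  refine ⟨fun r => if h : r ∈ B then f ⟨r, h⟩ else 0, ?_, ?_⟩
  · rintro r ⟨h1, h2, h3⟩ r' ⟨h1', h2', h3'⟩ hrr
    have hr := hmem r h1 h2 h3
    have hr' := hmem r' h1' h2' h3'
    simp only [hr, hr', dif_pos] at hrr
    have := hf hrr
    exact congrArg Subtype.val this
  · intro r h1 h2 h3
    have hr := hmem r h1 h2 h3
    simp only [hr, dif_pos]
    have h4 := hft ⟨r, hr⟩
    rw [mem_filter] at h4
    obtain ⟨h5, h6⟩ := h4
    have h7 := hS2 r _ h5
    exact ⟨h7.2.2.2, h6, h7.2.1, h7.2.2.1, h7.1⟩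

lemma exists_seq2 {Good : ℕ → ℕ → Prop} (h : ∀ j N, ∃ p, N ≤ p ∧ Good j p) (F : ℕ → ℕ → ℕ) :
    ∃ p : ℕ → ℕ, ∀ j, Good j (p j) ∧ F j (p j) ≤ p (j + 1) := by
  choose g hg1 hg2 using h
  let p : ℕ → ℕ := fun n => Nat.rec (g 0 0) (fun j x => g (j + 1) (F j x)) n
  refine ⟨p, fun j => ⟨?_, hg1 (j + 1) (F j (p j))⟩⟩
  cases j with
  | zero => exact hg2 0 0
  | succ j => exact hg2 (j + 1) (F j (p j))

/-- the output of the template -/
structure Out (T : ℕ → Set ℕ) (f : ℕ → ℝ) (φ X : ℕ → ℕ) : Prop where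
  mono : StrictMono X
  inj : Set.InjOn φ {r | r.Prime}
  small : ∀ r, r.Prime → r < X 0 → φ r = r
  dispf : ∀ r, r.Prime → |(φ r : ℝ) - r| ≤ f r
  displog : ∀ r, r.Prime → |(φ r : ℝ) - r| ≤ Real.log r
  stage : ∀ j r, r.Prime → X j ≤ r → r < X (j + 1) → X j ≤ φ r ∧ φ r < X (j + 1) ∧
    φ r ≡ r [MOD Nat.factorial j] ∧ φ r ∈ T j ∧ (r ∈ T j → φ r = r) ∧ (φ r ≠ r → ¬ (φ r).Prime)

theorem template (T : ℕ → Set ℕ) (hT : ∀ j M : ℕ, 1 ≤ M → ∃ K : ℕ, 1 ≤ K ∧ Syn (T j) M K) (f : ℕ → ℝ)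
    (hf0 : ∀ n, 0 ≤ f n) (hf : Tendsto f atTop atTop) (g : ℕ → ℕ → ℕ) :
    ∃ φ X : ℕ → ℕ, (∀ j, g j (X j) ≤ X (j + 1)) ∧ Out T f φ X := by
  classical
  choose K hK1 hK using fun j : ℕ => hT j (Nat.factorial j) (Nat.factorial_pos j)
  choose N₀ hN₀ using fun j : ℕ => block2 (hK1 j) (hK j)
  -- the lengths of the blocks
  obtain ⟨D, hD⟩ : ∃ D : ℕ → ℕ, D = fun j => ∏ i ∈ range (j + 1), (K i * (N₀ i + 1)) := ⟨_, rfl⟩
  have hDdvd : ∀ j, D j ∣ D (j + 1) := by
    intro j
    simp only [hD]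
    rw [prod_range_succ _ (j + 1)]
    exact dvd_mul_right _ _
  have hDpos : ∀ j, 1 ≤ D j := by
    intro j
    simp only [hD]
    exact Finset.one_le_prod' fun i _ => by have := hK1 i; nlinarith
  have hDK : ∀ j, ∃ N, N₀ j ≤ N ∧ D j = K j * N := by
    intro j
    refine ⟨(N₀ j + 1) * ∏ i ∈ range j, (K i * (N₀ i + 1)), ?_, ?_⟩
    · have h1 : 1 ≤ ∏ i ∈ range j, (K i * (N₀ i + 1)) :=
        Finset.one_le_prod' fun i _ => by have := hK1 i; nlinarith
      nlinarith
    · simp only [hD]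
      rw [prod_range_succ]
      ring
  choose N hN hDN using hDK
  have hex : ∀ j M : ℕ, ∃ x, M ≤ x ∧ (D j ∣ x ∧ 1 ≤ x ∧ ∀ n ≥ x, (D j : ℝ) ≤ f n ∧ (D j : ℝ) ≤ Real.log n) := by
    intro j M
    have h1 : ∀ᶠ n : ℕ in atTop, (D j : ℝ) ≤ f n ∧ (D j : ℝ) ≤ Real.log n :=
      (hf.eventually_ge_atTop _).and ((Real.tendsto_log_atTop.comp tendsto_natCast_atTop_atTop).eventually_ge_atTop _)
    obtain ⟨n₀, hn₀⟩ := eventually_atTop.1 h1
    refine ⟨D j * (M + n₀ + 1), ?_, dvd_mul_right _ _, ?_, ?_⟩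
    · have := hDpos j; nlinarith
    · have := hDpos j; nlinarith
    · intro n hn
      apply hn₀
      have := hDpos j
      nlinarith
  obtain ⟨X, hX⟩ := exists_seq2 hex (fun j x => max (x + 1) (g j x))
  have hXmono : StrictMono X := strictMono_nat_of_lt_succ fun j => by
    have h1 := (hX j).2
    have h2 := le_max_left (X j + 1) (g j (X j))
    omega
  have hXg : ∀ j, g j (X j) ≤ X (j + 1) := fun j => (le_max_right _ _).trans (hX j).2
  have hψ : ∀ j u : ℕ, ∃ ψ : ℕ → ℕ, 1 ≤ u → (Set.InjOn ψ {r | r.Prime ∧ D j * u ≤ r ∧ r < D j * u + D j} ∧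
      ∀ r, r.Prime → D j * u ≤ r → r < D j * u + D j → ψ r ≡ r [MOD Nat.factorial j] ∧ ¬ (ψ r).Prime ∧
        D j * u ≤ ψ r ∧ ψ r < D j * u + D j ∧ ψ r ∈ T j) := by
    intro j u
    by_cases hu : 1 ≤ u
    · obtain ⟨ψ, h1, h2⟩ := hN₀ j (N j) (hN j) (D j * u) (by have := hDpos j; nlinarith)
      rw [← hDN j] at h1 h2
      exact ⟨ψ, fun _ => ⟨h1, h2⟩⟩
    · exact ⟨id, fun h => absurd h hu⟩
  choose ψ hψ using hψ
  -- a prime of the stage `j` and its block
  have hblk : ∀ j r, X j ≤ r → r < X (j + 1) → 1 ≤ r / D j ∧ D j * (r / D j) ≤ r ∧ r < D j * (r / D j) + D j ∧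
      X j ≤ D j * (r / D j) ∧ D j * (r / D j) + D j ≤ X (j + 1) := by
    intro j r h1 h2
    have hp := hDpos j
    obtain ⟨c, hc⟩ := (hX j).1.1
    obtain ⟨c', hc'⟩ := (hDdvd j).trans (hX (j + 1)).1.1
    have hx1 := (hX j).1.2.1
    have hc1 : 1 ≤ c := by
      rcases Nat.eq_zero_or_pos c with h | h
      · rw [h] at hc; omega
      · exact h
    have h3 : c ≤ r / D j := by
      rw [Nat.le_div_iff_mul_le hp, mul_comm, ← hc]; exact h1
    have h4 : r / D j < c' := by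
      rw [Nat.div_lt_iff_lt_mul hp, mul_comm, ← hc']; exact h2
    refine ⟨by omega, Nat.mul_div_le r (D j), ?_, ?_, ?_⟩
    · have := Nat.div_add_mod r (D j)
      have := Nat.mod_lt r hp
      omega
    · rw [hc]; exact Nat.mul_le_mul_left _ h3
    · rw [hc']
      calc D j * (r / D j) + D j = D j * (r / D j + 1) := by ring
        _ ≤ D j * c' := Nat.mul_le_mul_left _ h4
  obtain ⟨Ψ, hΨ⟩ : ∃ Ψ : ℕ → ℕ → ℕ, Ψ = fun j r => ψ j (r / D j) r := ⟨_, rfl⟩
  have hΨ1 : ∀ j r, r.Prime → X j ≤ r → r < X (j + 1) → Ψ j r ≡ r [MOD Nat.factorial j] ∧ ¬ (Ψ j r).Prime ∧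
      D j * (r / D j) ≤ Ψ j r ∧ Ψ j r < D j * (r / D j) + D j ∧ Ψ j r ∈ T j := by
    intro j r hr h1 h2
    obtain ⟨a1, a2, a3, a4, a5⟩ := hblk j r h1 h2
    rw [hΨ]
    exact (hψ j (r / D j) a1).2 r hr a2 a3
  have hΨinj : ∀ j r r', r.Prime → r'.Prime → X j ≤ r → r < X (j + 1) → X j ≤ r' → r' < X (j + 1) →
      Ψ j r = Ψ j r' → r = r' := by
    intro j r r' hr hr' h1 h2 h1' h2' h
    have b := hΨ1 j r hr h1 h2
    have b' := hΨ1 j r' hr' h1' h2'
    have hp := hDpos j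
    have e1 : Ψ j r / D j = r / D j := by
      rw [Nat.div_eq_iff hp]
      constructor
      · rw [mul_comm]; exact b.2.2.1
      · have := b.2.2.2.1
        rw [mul_comm]
        omega
    have e2 : Ψ j r' / D j = r' / D j := by
      rw [Nat.div_eq_iff hp]
      constructor
      · rw [mul_comm]; exact b'.2.2.1
      · have := b'.2.2.2.1
        rw [mul_comm]
        omega
    have e3 : r / D j = r' / D j := by rw [← e1, ← e2, h]
    obtain ⟨a1, a2, a3, _, _⟩ := hblk j r h1 h2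
    obtain ⟨_, a2', a3', _, _⟩ := hblk j r' h1' h2'
    rw [hΨ] at h
    simp only at h
    rw [← e3] at h a2' a3'
    exact (hψ j (r / D j) a1).1 ⟨hr, a2, a3⟩ ⟨hr', a2', a3'⟩ h
  have huniq : ∀ i j r, X i ≤ r → r < X (i + 1) → X j ≤ r → r < X (j + 1) → i = j := by
    intro i j r h1 h2 h3 h4
    rcases lt_trichotomy i j with h | h | h
    · exfalso
      have := hXmono.monotone (show i + 1 ≤ j by omega)
      omega
    · exact h
    · exfalso
      have := hXmono.monotone (show j + 1 ≤ i by omega)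
      omega
  have hexst : ∀ r, X 0 ≤ r → ∃ j, X j ≤ r ∧ r < X (j + 1) := by
    intro r hr
    have hP : ∃ m, r < X m := ⟨r + 1, lt_of_lt_of_le (Nat.lt_succ_self r) hXmono.le_apply⟩
    have h1 := Nat.find_spec hP
    have h2 : Nat.find hP ≠ 0 := by
      intro h0
      rw [h0] at h1
      omega
    refine ⟨Nat.find hP - 1, ?_, ?_⟩
    · have := Nat.find_min hP (m := Nat.find hP - 1) (by omega)
      omega
    · rw [Nat.sub_add_cancel (by omega)]
      exact h1
  obtain ⟨φ, hφ⟩ : ∃ φ : ℕ → ℕ, φ = fun r => if h : ∃ j, X j ≤ r ∧ r < X (j + 1) then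
      (if r ∈ T h.choose then r else Ψ h.choose r) else r := ⟨_, rfl⟩
  have hφs : ∀ j r, X j ≤ r → r < X (j + 1) → φ r = if r ∈ T j then r else Ψ j r := by
    intro j r h1 h2
    have h : ∃ j, X j ≤ r ∧ r < X (j + 1) := ⟨j, h1, h2⟩
    have he : h.choose = j := huniq _ _ r h.choose_spec.1 h.choose_spec.2 h1 h2
    rw [hφ]
    simp only [h, dif_pos]
    rw [he]
  have hφ0 : ∀ r, r < X 0 → φ r = r := by
    intro r hr
    rw [hφ]
    simp only
    rw [dif_neg]
    rintro ⟨j, h1, _⟩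
    have := hXmono.monotone (Nat.zero_le j)
    omega
  have hstage : ∀ j r, r.Prime → X j ≤ r → r < X (j + 1) → X j ≤ φ r ∧ φ r < X (j + 1) ∧
      φ r ≡ r [MOD Nat.factorial j] ∧ φ r ∈ T j ∧ (r ∈ T j → φ r = r) ∧ (φ r ≠ r → ¬ (φ r).Prime) := by
    intro j r hr h1 h2
    rw [hφs j r h1 h2]
    obtain ⟨a1, a2, a3, a4, a5⟩ := hblk j r h1 h2
    obtain ⟨b1, b2, b3, b4, b5⟩ := hΨ1 j r hr h1 h2
    split_ifs with h
    · exact ⟨h1, h2, rfl, h, fun _ => rfl, fun h => absurd rfl h⟩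
    · exact ⟨by omega, by omega, b1, b5, fun h' => absurd h' h, fun _ => b2⟩
  have hdisp : ∀ j r, r.Prime → X j ≤ r → r < X (j + 1) → |(φ r : ℝ) - r| ≤ D j := by
    intro j r hr h1 h2
    rw [hφs j r h1 h2]
    obtain ⟨a1, a2, a3, a4, a5⟩ := hblk j r h1 h2
    obtain ⟨b1, b2, b3, b4, b5⟩ := hΨ1 j r hr h1 h2
    split_ifs with h
    · simp
    · rw [abs_le]
      have c1 : Ψ j r ≤ r + D j := by omega
      have c2 : r ≤ Ψ j r + D j := by omega
      have c1' : (Ψ j r : ℝ) ≤ r + D j := by exact_mod_cast c1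
      have c2' : (r : ℝ) ≤ Ψ j r + D j := by exact_mod_cast c2
      constructor <;> linarith
  refine ⟨φ, X, hXg, hXmono, ?_, fun r _ hr => hφ0 r hr, ?_, ?_, hstage⟩
  · intro r hr r' hr' h
    have hr : r.Prime := hr
    have hr' : r'.Prime := hr'
    rcases lt_or_ge r (X 0) with c | c
    · rcases lt_or_ge r' (X 0) with c' | c'
      · rwa [hφ0 r c, hφ0 r' c'] at h
      · exfalso
        obtain ⟨j, h1, h2⟩ := hexst r' c'
        have := (hstage j r' hr' h1 h2).1
        rw [hφ0 r c] at h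
        have := hXmono.monotone (Nat.zero_le j)
        omega
    · obtain ⟨j, h1, h2⟩ := hexst r c
      have s1 := hstage j r hr h1 h2
      rcases lt_or_ge r' (X 0) with c' | c'
      · exfalso
        rw [hφ0 r' c'] at h
        have := hXmono.monotone (Nat.zero_le j)
        omega
      · obtain ⟨i, h1', h2'⟩ := hexst r' c'
        have s2 := hstage i r' hr' h1' h2'
        have hij : i = j := huniq i j (φ r) (by rw [h]; exact s2.1) (by rw [h]; exact s2.2.1) s1.1 s1.2.1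
        subst hij
        by_cases e1 : φ r = r
        · by_cases e2 : φ r' = r'
          · rw [← e1, h, e2]
          · exfalso
            apply s2.2.2.2.2.2 e2
            rw [← h, e1]
            exact hr
        · by_cases e2 : φ r' = r'
          · exfalso
            apply s1.2.2.2.2.2 e1
            rw [h, e2]
            exact hr'
          · apply hΨinj i r r' hr hr' h1 h2 h1' h2'
            have n1 : r ∉ T i := fun h => e1 (s1.2.2.2.2.1 h)
            have n2 : r' ∉ T i := fun h => e2 (s2.2.2.2.2.1 h)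
            rw [hφs i r h1 h2, hφs i r' h1' h2', if_neg n1, if_neg n2] at h
            exact h
  · intro r hr
    rcases lt_or_ge r (X 0) with c | c
    · rw [hφ0 r c]; simpa using hf0 r
    · obtain ⟨j, h1, h2⟩ := hexst r c
      exact (hdisp j r hr h1 h2).trans ((hX j).1.2.2 r h1).1
  · intro r hr
    rcases lt_or_ge r (X 0) with c | c
    · rw [hφ0 r c]
      simp only [sub_self, abs_zero]
      exact Real.log_nonneg (by exact_mod_cast hr.one_le)
    · obtain ⟨j, h1, h2⟩ := hexst r c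
      exact (hdisp j r hr h1 h2).trans ((hX j).1.2.2 r h1).2

lemma log_le_half {r : ℕ} (hr : 2 ≤ r) : Real.log r ≤ r / 2 := by
  have hr0 : (0 : ℝ) < r := by exact_mod_cast (by omega : 0 < r)
  have h2 : (2 : ℝ) ≤ r := by exact_mod_cast hr
  have h1 := Real.log_le_sub_one_of_pos (show (0 : ℝ) < r / 2 by linarith)
  rw [Real.log_div hr0.ne' (by norm_num)] at h1
  have h3 := Real.log_two_lt_d9
  linarith

lemma Out.move {T : ℕ → Set ℕ} {f : ℕ → ℝ} {φ X : ℕ → ℕ} (O : Out T f φ X) : Move2 φ where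
  two := by
    intro r hr
    have h1 := O.displog r hr
    have h2 := log_le_half hr.two_le
    have hr2 : (2 : ℝ) ≤ r := by exact_mod_cast hr.two_le
    rw [abs_le] at h1
    by_contra hc
    push Not at hc
    have h4 : φ r ≤ 1 := by omega
    have h5 : (φ r : ℝ) ≤ 1 := by exact_mod_cast h4
    have h6 := Real.log_le_sub_one_of_pos (show (0 : ℝ) < r by linarith)
    -- r - φ r ≤ log r ≤ r - 1, strict unless r = 1
    have h7 : Real.log r < r - 1 := Real.log_lt_sub_one_of_pos (by linarith) (by linarith)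
    linarith [h1.1]
  low := by
    intro r hr
    have h1 := O.displog r hr
    have h2 := log_le_half hr.two_le
    rw [abs_le] at h1
    have h3 : (r : ℝ) ≤ 2 * φ r := by linarith [h1.1]
    exact_mod_cast h3
  disp := O.displog
  fin := by
    intro q hq
    refine (Set.finite_Iio (X q)).subset ?_
    rintro r ⟨hr, hn⟩
    show r < X q
    by_contra hc
    push Not at hc
    have h0 : X 0 ≤ r := (O.mono.monotone (Nat.zero_le q)).trans hc
    have hP : ∃ m, r < X m := ⟨r + 1, lt_of_lt_of_le (Nat.lt_succ_self r) O.mono.le_apply⟩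
    have h1 := Nat.find_spec hP
    have h2 : Nat.find hP ≠ 0 := by
      intro h0
      rw [h0] at h1
      omega
    obtain ⟨j, h3, h4⟩ : ∃ j, X j ≤ r ∧ r < X (j + 1) := by
      refine ⟨Nat.find hP - 1, ?_, ?_⟩
      · have := Nat.find_min hP (m := Nat.find hP - 1) (by omega)
        omega
      · rw [Nat.sub_add_cancel (by omega)]
        exact h1
    have hqj : q ≤ j := by
      by_contra h
      push Not at h
      have := O.mono.monotone (show j + 1 ≤ q by omega)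
      omega
    exact hn ((O.stage j r hr h3 h4).2.2.1.of_dvd (Nat.dvd_factorial hq hqj))

end Pool.Agent.H67.BB
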