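import Pool.Agent.H67.BB.Block
import Pool.Agent.H67.BB.Count
import Pool.Agent.H67.BB.Template

set_option autoImplicit false

/-!
Emptying intervals `(x, x + H]` with `H = o(√x log x)`.
-/

namespace Pool.Agent.H67.BB

open Finset Filter Topology

/-- one block -/
theorem block3 (M : ℕ) (hM : 1 ≤ M) : ∃ x₀ : ℕ, 2 ≤ x₀ ∧ ∀ x H : ℕ, x₀ ≤ x → √(x : ℝ) ≤ H → 2 * H ≤ x →
    (((Ioc x (x + H)).filter Nat.Prime).card : ℝ) ≤ 6 * H / Real.log x ∧
    ∃ ψ : ℕ → ℕ, Set.InjOn ψ {r | r.Prime ∧ x < r ∧ r ≤ x + H} ∧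
      ∀ r, r.Prime → x < r → r ≤ x + H → ψ r ≡ r [MOD M] ∧ ¬ (ψ r).Prime ∧ x - H < ψ r ∧ ψ r ≤ x := by
  classical
  obtain ⟨Y₀, hY₀, hbt⟩ := bt3
  obtain ⟨N, hN⟩ : ∃ N : ℕ, Real.exp (12 * M) ≤ N := exists_nat_ge _
  refine ⟨(Y₀ + N + 2 * M) ^ 2 + 2, by omega, fun x H hx hH hHx => ?_⟩
  have hxR : ((Y₀ + N + 2 * M : ℕ) : ℝ) ^ 2 ≤ x := by exact_mod_cast (by omega : (Y₀ + N + 2 * M) ^ 2 ≤ x)
  have hx1 : (2 : ℝ) ≤ x := by exact_mod_cast (by omega : 2 ≤ x)
  have hH1 : ((Y₀ + N + 2 * M : ℕ) : ℝ) ≤ H := (Real.le_sqrt_of_sq_le hxR).trans hH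
  have hH2 : Y₀ + N + 2 * M ≤ H := by exact_mod_cast hH1
  have hHR : (0 : ℝ) < H := by exact_mod_cast (by omega : 0 < H)
  have hMR : (1 : ℝ) ≤ M := by exact_mod_cast hM
  have hlogH : 12 * (M : ℝ) ≤ Real.log H := by
    rw [Real.le_log_iff_exp_le hHR]
    refine hN.trans ?_
    exact_mod_cast (by omega : N ≤ H)
  have hlogH0 : 0 < Real.log H := by linarith
  have hlogx : 0 < Real.log x := Real.log_pos (by linarith)
  have hlogHx : Real.log x ≤ 2 * Real.log H := by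
    have h1 : Real.log (√(x : ℝ)) ≤ Real.log H := Real.log_le_log (Real.sqrt_pos.2 (by linarith)) hH
    rw [Real.log_sqrt (by linarith)] at h1
    linarith
  have hcard : ∀ A : ℕ, (((Ioc A (A + H)).filter Nat.Prime).card : ℝ) ≤ 3 * H / Real.log H :=
    fun A => hbt A H (by omega)
  have hB : (((Ioc x (x + H)).filter Nat.Prime).card : ℝ) ≤ 6 * H / Real.log x := by
    refine (hcard x).trans ?_
    rw [div_le_div_iff₀ hlogH0 hlogx]
    nlinarith
  refine ⟨hB, ?_⟩
  set B := (Ioc x (x + H)).filter Nat.Prime with hBdef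
  let t : {r // r ∈ B} → Finset ℕ := fun r =>
    (Ioc (x - H) (x - H + H)).filter (fun m => m ≡ (r : ℕ) [MOD M] ∧ ¬ m.Prime)
  have ht : ∀ r : {r // r ∈ B}, B.card ≤ (t r).card := by
    intro r
    have h1 := card_modEq_ge (x - H) H M (r : ℕ) (by omega)
    have h2 := hcard (x - H)
    have h3 : ((Ioc (x - H) (x - H + H)).filter (fun m => m ≡ (r : ℕ) [MOD M])).card ≤
        (t r).card + ((Ioc (x - H) (x - H + H)).filter Nat.Prime).card := by
      refine le_trans (card_le_card ?_) (card_union_le _ _)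
      intro m hm
      rw [mem_filter] at hm
      rw [mem_union]
      by_cases hmp : m.Prime
      · right
        rw [mem_filter]
        exact ⟨hm.1, hmp⟩
      · left
        rw [mem_filter]
        exact ⟨hm.1, hm.2, hmp⟩
    have h3' : (((Ioc (x - H) (x - H + H)).filter (fun m => m ≡ (r : ℕ) [MOD M])).card : ℝ) ≤
        ((t r).card : ℝ) + (((Ioc (x - H) (x - H + H)).filter Nat.Prime).card : ℝ) := by exact_mod_cast h3
    have h5 : (H : ℝ) / (2 * M) ≤ (H : ℝ) / M - 1 := by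
      rw [div_le_iff₀ (by positivity)]
      have h6 : ((H : ℝ) / M - 1) * (2 * M) = 2 * H - 2 * M := by
        field_simp
      rw [h6]
      have : (2 * M : ℝ) ≤ H := by exact_mod_cast (by omega : 2 * M ≤ H)
      linarith
    have h7 : 6 * (H : ℝ) / Real.log H ≤ (H : ℝ) / (2 * M) := by
      rw [div_le_div_iff₀ hlogH0 (by positivity)]
      nlinarith
    have h8 : 6 * (H : ℝ) / Real.log H = 3 * H / Real.log H + 3 * H / Real.log H := by ring
    have h9 := hcard x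
    have h10 : (B.card : ℝ) ≤ ((t r).card : ℝ) := by linarith
    exact_mod_cast h10
  obtain ⟨f, hf, hft⟩ := (Finset.all_card_le_biUnion_card_iff_exists_injective t).1 (by
    intro s
    rcases s.eq_empty_or_nonempty with h | ⟨r, hr⟩
    · simp [h]
    · calc s.card ≤ Fintype.card {r // r ∈ B} := s.card_le_univ
        _ = B.card := Fintype.card_coe B
        _ ≤ (t r).card := ht r
        _ ≤ (s.biUnion t).card := card_le_card (subset_biUnion_of_mem t hr))
  have hmem : ∀ r : ℕ, r.Prime → x < r → r ≤ x + H → r ∈ B := by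
    intro r h1 h2 h3
    rw [hBdef, mem_filter, mem_Ioc]
    exact ⟨⟨h2, h3⟩, h1⟩
  refine ⟨fun r => if h : r ∈ B then f ⟨r, h⟩ else 0, ?_, ?_⟩
  · rintro r ⟨h1, h2, h3⟩ r' ⟨h1', h2', h3'⟩ hrr
    have hr := hmem r h1 h2 h3
    have hr' := hmem r' h1' h2' h3'
    simp only [hr, hr', dif_pos] at hrr
    have := hf hrr
    exact congrArg Subtype.val this
  · intro r h1 h2 h3
    have hr := hmem r h1 h2 h3
    simp only [hr, dif_pos]
    have h4 := hft ⟨r, hr⟩
    rw [mem_filter, mem_Ioc] at h4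
    obtain ⟨⟨h5, h6⟩, h7, h8⟩ := h4
    refine ⟨h7, h8, h5, ?_⟩
    omega

/-- the data of the construction -/
structure Data2 (ε : ℝ) (h : ℕ → ℝ) (x H : ℕ → ℕ) (ψ : ℕ → ℕ → ℕ) : Prop where
  big : ∀ j, 16 ≤ x j
  large : ∀ j, 4 * H j ≤ x j
  next : ∀ j, 4 * x j < x (j + 1)
  card : ∀ j, (((Ioc (x j) (x j + H j)).filter Nat.Prime).card : ℝ) ≤ 6 * H j / Real.log (x j)
  size : ∀ j, (H j : ℝ) ≤ ε * (1 / 2) ^ (j + 1) * (√(x j : ℝ) * Real.log (x j))
  target : ∀ j t, t ≤ x j → h t ≤ H j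
  inj : ∀ j, Set.InjOn (ψ j) {r | r.Prime ∧ x j < r ∧ r ≤ x j + H j}
  map : ∀ j r, r.Prime → x j < r → r ≤ x j + H j →
    ψ j r ≡ r [MOD Nat.factorial j] ∧ ¬ (ψ j r).Prime ∧ x j - H j < ψ j r ∧ ψ j r ≤ x j

lemma exists_data2 (ε : ℝ) (hε : 0 < ε) (h : ℕ → ℝ)
    (hh : ∀ δ : ℝ, 0 < δ → ∀ᶠ n : ℕ in atTop, h n ≤ δ * (√(n : ℝ) * Real.log n)) :
    ∃ x H ψ, Data2 ε h x H ψ := by
  choose x₀ hx₀2 hx₀ using fun j : ℕ => block3 (Nat.factorial j) (Nat.factorial_pos j)
  have hex : ∀ j N : ℕ, ∃ x, N ≤ x ∧ (x₀ j ≤ x ∧ 16 ≤ x ∧ ∃ H : ℕ, 4 * H ≤ x ∧ √(x : ℝ) ≤ H ∧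
      (H : ℝ) ≤ ε * (1 / 2) ^ (j + 1) * (√(x : ℝ) * Real.log x) ∧ ∀ t, t ≤ x → h t ≤ H) := by
    intro j N
    have hδ : 0 < ε * (1 / 2 : ℝ) ^ (j + 1) := by positivity
    set δ := ε * (1 / 2 : ℝ) ^ (j + 1) with hδdef
    obtain ⟨T₀, hT₀⟩ := eventually_atTop.1 (hh (δ / 2) (by positivity))
    -- a bound of the first values
    obtain ⟨B, hB⟩ : ∃ B : ℝ, ∀ t < T₀, h t ≤ B :=
      ⟨∑ t ∈ range T₀, |h t|, fun t ht => (le_abs_self _).trans
        (Finset.single_le_sum (f := fun t => |h t|) (fun _ _ => abs_nonneg _) (mem_range.2 ht))⟩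
    -- all requirements for large `x`
    have hlog : Tendsto (fun n : ℕ => Real.log (n : ℝ)) atTop atTop :=
      Real.tendsto_log_atTop.comp tendsto_natCast_atTop_atTop
    have hsq : Tendsto (fun n : ℕ => √(n : ℝ)) atTop atTop :=
      Real.tendsto_sqrt_atTop.comp tendsto_natCast_atTop_atTop
    have e1 : ∀ᶠ n : ℕ in atTop, 4 / δ ≤ Real.log n := hlog.eventually_ge_atTop _
    have e2 : ∀ᶠ n : ℕ in atTop, |B| + 2 ≤ √(n : ℝ) := hsq.eventually_ge_atTop _
    have e3 : ∀ᶠ n : ℕ in atTop, 4 * δ * (√(n : ℝ) * Real.log n) ≤ n := by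
      have h1 : (fun y : ℝ => Real.log y) =o[atTop] fun y => y ^ (1 / 2 : ℝ) := isLittleO_log_rpow_atTop (by norm_num)
      have h2 := (h1.comp_tendsto tendsto_natCast_atTop_atTop).bound (show 0 < 1 / (4 * δ) by positivity)
      filter_upwards [h2, eventually_ge_atTop 1] with n hn hn1
      have hn0 : (1 : ℝ) ≤ n := by exact_mod_cast hn1
      simp only [Function.comp_apply, Real.norm_eq_abs] at hn
      rw [← Real.sqrt_eq_rpow, abs_of_nonneg (Real.log_nonneg hn0), abs_of_nonneg (Real.sqrt_nonneg _)] at hn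
      have h3 : √(n : ℝ) * √(n : ℝ) = n := Real.mul_self_sqrt (by linarith)
      have h4 := Real.sqrt_nonneg (n : ℝ)
      calc 4 * δ * (√(n : ℝ) * Real.log n) ≤ 4 * δ * (√(n : ℝ) * (1 / (4 * δ) * √(n : ℝ))) := by gcongr
        _ = √(n : ℝ) * √(n : ℝ) := by field_simp
        _ = n := h3
    obtain ⟨x, hx1, hx2, hx3, hx4⟩ := (e1.and (e2.and (e3.and (eventually_ge_atTop (N + x₀ j + 16))))).exists
    have hxR : (16 : ℝ) ≤ x := by exact_mod_cast (by omega : 16 ≤ x)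
    have hsx : (4 : ℝ) ≤ √(x : ℝ) := Real.le_sqrt_of_sq_le (by linarith)
    have hlx : 4 ≤ δ * Real.log x := by
      rw [div_le_iff₀ hδ] at hx1
      linarith
    have hkey : 4 * √(x : ℝ) ≤ δ * (√(x : ℝ) * Real.log x) := by nlinarith
    have hnn : 0 ≤ δ * (√(x : ℝ) * Real.log x) := by linarith
    refine ⟨x, by omega, by omega, by omega, ⌊δ * (√(x : ℝ) * Real.log x)⌋₊, ?_, ?_, Nat.floor_le hnn, ?_⟩
    · have h1 := Nat.floor_le hnn
      have h2 : (4 : ℝ) * (⌊δ * (√(x : ℝ) * Real.log x)⌋₊ : ℝ) ≤ x := by linarith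
      exact_mod_cast h2
    · have h1 := Nat.lt_floor_add_one (δ * (√(x : ℝ) * Real.log x))
      linarith
    · intro t ht
      have h1 := Nat.lt_floor_add_one (δ * (√(x : ℝ) * Real.log x))
      rcases lt_or_ge t T₀ with h2 | h2
      · have h3 := hB t h2
        have h4 := le_abs_self B
        linarith
      · have h3 := hT₀ t h2
        rcases Nat.eq_zero_or_pos t with h4 | h4
        · subst h4
          simp at h3
          linarith
        · have h5 : √(t : ℝ) * Real.log t ≤ √(x : ℝ) * Real.log x := by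
            have ht1 : (1 : ℝ) ≤ t := by exact_mod_cast h4
            have htx : (t : ℝ) ≤ x := by exact_mod_cast ht
            apply mul_le_mul (Real.sqrt_le_sqrt htx) (Real.log_le_log (by linarith) htx) (Real.log_nonneg ht1)
              (Real.sqrt_nonneg _)
          have h6 : h t ≤ δ / 2 * (√(x : ℝ) * Real.log x) := h3.trans (by gcongr)
          linarith
  obtain ⟨x, hx⟩ := exists_seq2 hex (fun _ y => 4 * y + 1)
  choose H hH using fun j => (hx j).1.2.2
  choose ψ hψ using fun j => (hx₀ j (x j) (H j) (hx j).1.1 (hH j).2.1 (by have := (hH j).1; omega)).2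
  exact ⟨x, H, ψ, fun j => (hx j).1.2.1, fun j => (hH j).1, fun j => (hx j).2,
    fun j => (hx₀ j (x j) (H j) (hx j).1.1 (hH j).2.1 (by have := (hH j).1; omega)).1,
    fun j => (hH j).2.2.1, fun j => (hH j).2.2.2, fun j => (hψ j).1, fun j => (hψ j).2⟩

section

variable {ε : ℝ} {h : ℕ → ℝ} {x H : ℕ → ℕ} {ψ : ℕ → ℕ → ℕ}

/-- `r` is a prime in the block `j` -/
def InC (x H : ℕ → ℕ) (j r : ℕ) : Prop := r.Prime ∧ x j < r ∧ r ≤ x j + H j

open Classical in
/-- the moved primes -/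
noncomputable def phi2 (x H : ℕ → ℕ) (ψ : ℕ → ℕ → ℕ) (r : ℕ) : ℕ :=
  if h : ∃ j, InC x H j r then ψ h.choose r else r

lemma Data2.strictMono (D : Data2 ε h x H ψ) : StrictMono x :=
  strictMono_nat_of_lt_succ fun j => by have := D.next j; omega

lemma Data2.step (D : Data2 ε h x H ψ) {i j : ℕ} (hij : i < j) : x i + H i < x j - H j := by
  have h1 := D.next i
  have h2 := D.strictMono.monotone (show i + 1 ≤ j from hij)
  have h3 := D.large i
  have h4 := D.large j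
  omega

lemma Data2.unique (D : Data2 ε h x H ψ) {i j r : ℕ} (hi : InC x H i r) (hj : InC x H j r) : i = j := by
  rcases lt_trichotomy i j with hlt | heq | hlt
  · exfalso
    have := D.step hlt
    have := hi.2.2
    have := hj.2.1
    omega
  · exact heq
  · exfalso
    have := D.step hlt
    have := hj.2.2
    have := hi.2.1
    omega

lemma Data2.phi_of_inC (D : Data2 ε h x H ψ) {j r : ℕ} (hr : InC x H j r) : phi2 x H ψ r = ψ j r := by
  have hex : ∃ j, InC x H j r := ⟨j, hr⟩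
  unfold phi2
  rw [dif_pos hex, D.unique hex.choose_spec hr]

lemma phi2_of_not {r : ℕ} (hr : ¬ ∃ j, InC x H j r) : phi2 x H ψ r = r := by
  unfold phi2
  rw [dif_neg hr]

lemma Data2.mapC (D : Data2 ε h x H ψ) {j r : ℕ} (hr : InC x H j r) :
    phi2 x H ψ r ≡ r [MOD Nat.factorial j] ∧ ¬ (phi2 x H ψ r).Prime ∧ x j - H j < phi2 x H ψ r ∧
      phi2 x H ψ r ≤ x j := by
  rw [D.phi_of_inC hr]
  exact D.map j r hr.1 hr.2.1 hr.2.2

lemma Data2.two (D : Data2 ε h x H ψ) {r : ℕ} (hr : r.Prime) : 2 ≤ phi2 x H ψ r := by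
  by_cases hc : ∃ j, InC x H j r
  · obtain ⟨j, hj⟩ := hc
    have h1 := (D.mapC hj).2.2.1
    have h2 := D.large j
    have h3 := D.big j
    omega
  · rw [phi2_of_not hc]; exact hr.two_le

lemma Data2.low (D : Data2 ε h x H ψ) {r : ℕ} (_hr : r.Prime) : r ≤ 2 * phi2 x H ψ r := by
  by_cases hc : ∃ j, InC x H j r
  · obtain ⟨j, hj⟩ := hc
    have h1 := (D.mapC hj).2.2.1
    have h2 := D.large j
    have h3 := hj.2.2
    omega
  · rw [phi2_of_not hc]; omega

lemma Data2.disp (D : Data2 ε h x H ψ) (hε : 0 < ε) {r : ℕ} (hr : r.Prime) :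
    |(phi2 x H ψ r : ℝ) - r| ≤ ε * (√(r : ℝ) * Real.log r) := by
  have hr1 : (1 : ℝ) ≤ r := by exact_mod_cast hr.one_le
  by_cases hc : ∃ j, InC x H j r
  · obtain ⟨j, hj⟩ := hc
    have h1 := (D.mapC hj).2.2.1
    have h1' := (D.mapC hj).2.2.2
    have h2 := hj.2.1
    have h3 := hj.2.2
    have h4 := D.size j
    have hb := D.big j
    have h5 : (r : ℝ) - phi2 x H ψ r ≤ 2 * H j := by
      have : r ≤ phi2 x H ψ r + 2 * H j := by omega
      have : (r : ℝ) ≤ phi2 x H ψ r + 2 * H j := by exact_mod_cast this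
      linarith
    have h6 : (phi2 x H ψ r : ℝ) ≤ r := by exact_mod_cast (by omega : phi2 x H ψ r ≤ r)
    rw [abs_sub_comm, abs_of_nonneg (by linarith)]
    have hx1 : (1 : ℝ) ≤ x j := by exact_mod_cast (by omega : 1 ≤ x j)
    have hxr : (x j : ℝ) ≤ r := by exact_mod_cast h2.le
    have h7 : √(x j : ℝ) * Real.log (x j) ≤ √(r : ℝ) * Real.log r :=
      mul_le_mul (Real.sqrt_le_sqrt hxr) (Real.log_le_log (by linarith) hxr) (Real.log_nonneg hx1) (Real.sqrt_nonneg _)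
    have h8 : (1 / 2 : ℝ) ^ (j + 1) ≤ 1 / 2 := by
      rw [pow_succ]
      have : (1 / 2 : ℝ) ^ j ≤ 1 := pow_le_one₀ (by norm_num) (by norm_num)
      linarith
    have h9 : 0 ≤ √(x j : ℝ) * Real.log (x j) := mul_nonneg (Real.sqrt_nonneg _) (Real.log_nonneg hx1)
    calc (r : ℝ) - phi2 x H ψ r ≤ 2 * H j := h5
      _ ≤ 2 * (ε * (1 / 2) ^ (j + 1) * (√(x j : ℝ) * Real.log (x j))) := by linarith
      _ ≤ 2 * (ε * (1 / 2) * (√(x j : ℝ) * Real.log (x j))) := by gcongr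
      _ = ε * (√(x j : ℝ) * Real.log (x j)) := by ring
      _ ≤ _ := by gcongr
  · rw [phi2_of_not hc]
    simp only [sub_self, abs_zero]
    have := Real.log_nonneg hr1
    positivity

lemma Data2.fin (D : Data2 ε h x H ψ) (q : ℕ) (hq : 0 < q) :
    {r : ℕ | r.Prime ∧ ¬ phi2 x H ψ r ≡ r [MOD q]}.Finite := by
  refine (Set.finite_Iic (x q)).subset ?_
  rintro r ⟨hr, hn⟩
  by_cases hc : ∃ j, InC x H j r
  · obtain ⟨j, hj⟩ := hc
    have hjq : j < q := by
      by_contra hc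
      push Not at hc
      apply hn
      exact (D.mapC hj).1.of_dvd (Nat.dvd_factorial hq hc)
    have h1 := D.step hjq
    have h2 := hj.2.2
    show r ≤ x q
    omega
  · exfalso
    apply hn
    rw [phi2_of_not hc]

lemma Data2.injOn (D : Data2 ε h x H ψ) : Set.InjOn (phi2 x H ψ) {r | r.Prime} := by
  intro r hr r' hr' he
  by_cases h1 : ∃ j, InC x H j r
  · obtain ⟨j, hj⟩ := h1
    by_cases h2 : ∃ j, InC x H j r'
    · obtain ⟨i, hi⟩ := h2
      have a1 := (D.mapC hj).2.2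
      have b1 := (D.mapC hi).2.2
      have hij : i = j := by
        rcases lt_trichotomy i j with hlt | heq | hlt
        · exfalso
          have := D.step hlt
          omega
        · exact heq
        · exfalso
          have := D.step hlt
          omega
      subst hij
      rw [D.phi_of_inC hj, D.phi_of_inC hi] at he
      exact D.inj i hj hi he
    · exfalso
      rw [phi2_of_not h2] at he
      exact (D.mapC hj).2.1 (he ▸ hr')
  · rw [phi2_of_not h1] at he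
    by_cases h2 : ∃ j, InC x H j r'
    · obtain ⟨i, hi⟩ := h2
      exfalso
      exact (D.mapC hi).2.1 (he ▸ hr)
    · rw [phi2_of_not h2] at he
      exact he

/-- the finite set of the primes of a block -/
noncomputable def blockC (x H : ℕ → ℕ) (j : ℕ) : Finset ℕ := (Ioc (x j) (x j + H j)).filter Nat.Prime

lemma mem_blockC {j r : ℕ} : r ∈ blockC x H j ↔ InC x H j r := by
  unfold blockC InC
  rw [mem_filter, mem_Ioc]
  tauto

lemma Data2.card_block (D : Data2 ε h x H ψ) (j : ℕ) :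
    ((blockC x H j).card : ℝ) ≤ 6 * ε * (1 / 2) ^ (j + 1) * √(x j : ℝ) := by
  have h1 := D.card j
  have h2 := D.size j
  have hx1 : (1 : ℝ) < x j := by exact_mod_cast (by have := D.big j; omega : 1 < x j)
  have hl := Real.log_pos hx1
  refine h1.trans ?_
  rw [div_le_iff₀ hl]
  nlinarith

lemma sum_geom (J : ℕ) : ∑ j ∈ range J, (1 / 2 : ℝ) ^ (j + 1) ≤ 1 := by
  have h1 : ∑ j ∈ range J, (1 / 2 : ℝ) ^ (j + 1) = 1 - (1 / 2) ^ J := by
    induction J with
    | zero => simp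
    | succ J ih => rw [sum_range_succ, ih]; ring
  rw [h1]
  have : (0 : ℝ) < (1 / 2) ^ J := by positivity
  linarith

lemma Data2.sum_le (D : Data2 ε h x H ψ) (hε : 0 < ε) (F : Finset Nat.Primes) :
    ∑ r ∈ F, uu (phi2 x H ψ) r ≤ 6 * ε := by
  classical
  obtain ⟨J, hJ⟩ : ∃ J : ℕ, ∀ r ∈ F, (r : ℕ) < J :=
    ⟨F.sup (fun r => (r : ℕ)) + 1, fun r hr => Nat.lt_succ_of_le (Finset.le_sup (f := fun r : Nat.Primes => (r : ℕ)) hr)⟩
  have hpt : ∀ r ∈ F, uu (phi2 x H ψ) r ≤ ∑ j ∈ range J, if InC x H j r then 1 / √(x j : ℝ) else 0 := by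
    intro r hr
    have hnn : ∀ j ∈ range J, (0 : ℝ) ≤ if InC x H j r then 1 / √(x j : ℝ) else 0 := by
      intro j _
      split_ifs
      · positivity
      · exact le_rfl
    unfold uu
    split_ifs with hh
    · exact Finset.sum_nonneg hnn
    · by_cases h1 : ∃ j, InC x H j r
      · obtain ⟨j, hj⟩ := h1
        have hjJ : j ∈ range J := by
          rw [mem_range]
          have h2 := hj.2.1
          have h3 : j ≤ x j := D.strictMono.le_apply
          have h5 := hJ r hr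
          omega
        refine le_trans ?_ (Finset.single_le_sum hnn hjJ)
        rw [if_pos hj]
        have h5 : √(x j : ℝ) ≤ √((r : ℕ) : ℝ) := Real.sqrt_le_sqrt (by exact_mod_cast hj.2.1.le)
        apply one_div_le_one_div_of_le _ h5
        exact Real.sqrt_pos.2 (by exact_mod_cast (by have := D.big j; omega : 0 < x j))
      · exact absurd (phi2_of_not h1) hh
  calc ∑ r ∈ F, uu (phi2 x H ψ) r ≤ ∑ r ∈ F, ∑ j ∈ range J, if InC x H j r then 1 / √(x j : ℝ) else 0 :=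
        Finset.sum_le_sum hpt
    _ = ∑ j ∈ range J, ∑ r ∈ F, if InC x H j r then 1 / √(x j : ℝ) else 0 := Finset.sum_comm
    _ ≤ ∑ j ∈ range J, 6 * ε * (1 / 2) ^ (j + 1) := by
        refine Finset.sum_le_sum fun j _ => ?_
        rw [← Finset.sum_filter, Finset.sum_const, nsmul_eq_mul]
        have h1 : (F.filter (fun r : Nat.Primes => InC x H j r)).card ≤ (blockC x H j).card := by
          apply Finset.card_le_card_of_injOn (fun r : Nat.Primes => (r : ℕ))
          · intro r hr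
            have hr := (mem_filter.1 (mem_coe.1 hr)).2
            exact mem_coe.2 (mem_blockC.2 hr)
          · exact Subtype.val_injective.injOn
        have h2 : ((F.filter (fun r : Nat.Primes => InC x H j r)).card : ℝ) ≤ 6 * ε * (1 / 2) ^ (j + 1) * √(x j : ℝ) :=
          le_trans (by exact_mod_cast h1) (D.card_block j)
        have h3 : 0 < √(x j : ℝ) := Real.sqrt_pos.2 (by exact_mod_cast (by have := D.big j; omega : 0 < x j))
        calc _ ≤ 6 * ε * (1 / 2) ^ (j + 1) * √(x j : ℝ) * (1 / √(x j : ℝ)) := by gcongr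
          _ = 6 * ε * (1 / 2) ^ (j + 1) := by field_simp
    _ = 6 * ε * ∑ j ∈ range J, (1 / 2) ^ (j + 1) := by rw [Finset.mul_sum]
    _ ≤ 6 * ε * 1 := by
        gcongr
        exact sum_geom J
    _ = 6 * ε := by ring

lemma Data2.summable (D : Data2 ε h x H ψ) (hε : 0 < ε) : Summable (uu (phi2 x H ψ)) :=
  summable_of_sum_le (fun r => uu_nonneg _ r) (fun F => D.sum_le hε F)

lemma Data2.tsum_le (D : Data2 ε h x H ψ) (hε : 0 < ε) : ∑' r, uu (phi2 x H ψ) r ≤ 6 * ε :=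
  (D.summable hε).tsum_le_of_sum_le (fun F => D.sum_le hε F)

lemma Data2.move (D : Data2 ε h x H ψ) (hε : 0 < ε) : Move (phi2 x H ψ) ε where
  two := fun _ hr => D.two hr
  low := fun _ hr => D.low hr
  disp := fun _ hr => D.disp hε hr
  fin := fun q hq => D.fin q hq
  sum := D.summable hε

lemma Data2.count_moved (D : Data2 ε h x H ψ) (hε : 0 < ε) (y : ℝ) (hy : 0 ≤ y) :
    ({r : ℕ | r.Prime ∧ (r : ℝ) ≤ y ∧ phi2 x H ψ r ≠ r}.ncard : ℝ) ≤ 6 * ε * √y := by
  classical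
  -- the blocks which start below `y`
  obtain ⟨J, hJ⟩ : ∃ J : ℕ, ∀ j, (x j : ℝ) < y → j < J := by
    refine ⟨⌈y⌉₊ + 1, fun j hj => ?_⟩
    have h1 : (j : ℝ) ≤ x j := by exact_mod_cast D.strictMono.le_apply
    have h2 : (j : ℝ) < ⌈y⌉₊ := lt_of_lt_of_le (by linarith) (Nat.le_ceil y)
    have : j < ⌈y⌉₊ := by exact_mod_cast h2
    omega
  have hsub : {r : ℕ | r.Prime ∧ (r : ℝ) ≤ y ∧ phi2 x H ψ r ≠ r} ⊆
      ↑(((range J).filter (fun j => (x j : ℝ) < y)).biUnion (fun j => blockC x H j)) := by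
    rintro r ⟨_, h2, h3⟩
    by_cases hc : ∃ j, InC x H j r
    · obtain ⟨j, hj⟩ := hc
      have h4 : (x j : ℝ) < y := lt_of_lt_of_le (by exact_mod_cast hj.2.1) h2
      rw [mem_coe, mem_biUnion]
      exact ⟨j, mem_filter.2 ⟨mem_range.2 (hJ j h4), h4⟩, mem_blockC.2 hj⟩
    · exact absurd (phi2_of_not hc) h3
  have h1 : {r : ℕ | r.Prime ∧ (r : ℝ) ≤ y ∧ phi2 x H ψ r ≠ r}.ncard ≤
      ∑ j ∈ (range J).filter (fun j => (x j : ℝ) < y), (blockC x H j).card := by
    refine (Set.ncard_le_ncard hsub (finite_toSet _)).trans ?_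
    rw [Set.ncard_coe_finset]
    exact card_biUnion_le
  calc ({r : ℕ | r.Prime ∧ (r : ℝ) ≤ y ∧ phi2 x H ψ r ≠ r}.ncard : ℝ)
      ≤ ∑ j ∈ (range J).filter (fun j => (x j : ℝ) < y), ((blockC x H j).card : ℝ) := by exact_mod_cast h1
    _ ≤ ∑ j ∈ (range J).filter (fun j => (x j : ℝ) < y), 6 * ε * (1 / 2) ^ (j + 1) * √y := by
        refine Finset.sum_le_sum fun j hj => ?_
        rw [mem_filter] at hj
        refine (D.card_block j).trans ?_
        have : √(x j : ℝ) ≤ √y := Real.sqrt_le_sqrt hj.2.le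
        gcongr
    _ ≤ ∑ j ∈ range J, 6 * ε * (1 / 2) ^ (j + 1) * √y := by
        apply Finset.sum_le_sum_of_subset_of_nonneg (filter_subset _ _)
        intro j _ _
        positivity
    _ = 6 * ε * √y * ∑ j ∈ range J, (1 / 2) ^ (j + 1) := by
        rw [Finset.mul_sum]
        exact Finset.sum_congr rfl fun j _ => by ring
    _ ≤ 6 * ε * √y * 1 := by
        gcongr
        exact sum_geom J
    _ = _ := by ring

/-- the interval is empty -/
lemma Data2.empty (D : Data2 ε h x H ψ) (j c : ℕ) (hc : c ∈ phi2 x H ψ '' {r | r.Prime}) :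
    ¬ (x j < c ∧ c ≤ x j + H j) := by
  obtain ⟨r, hr, rfl⟩ := hc
  rintro ⟨h1, h2⟩
  by_cases hc : ∃ i, InC x H i r
  · obtain ⟨i, hi⟩ := hc
    have h3 := (D.mapC hi).2.2
    rcases lt_trichotomy i j with hlt | heq | hlt
    · have := D.step hlt
      omega
    · subst heq
      omega
    · have := D.step hlt
      omega
  · rw [phi2_of_not hc] at h1 h2
    exact hc ⟨j, hr, h1, h2⟩

lemma Data2.exists_pair (D : Data2 ε h x H ψ) (N : ℕ) : ∃ a b : ℕ, N ≤ a ∧ a ∈ phi2 x H ψ '' {r | r.Prime} ∧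
    b ∈ phi2 x H ψ '' {r | r.Prime} ∧ a < b ∧ (∀ c ∈ phi2 x H ψ '' {r | r.Prime}, ¬ (a < c ∧ c < b)) ∧
    h a ≤ (b : ℝ) - a := by
  classical
  set P := phi2 x H ψ '' {r | r.Prime} with hP
  have hinf : P.Infinite := Nat.infinite_setOfPred_prime.image D.injOn
  obtain ⟨c, hc, hcN⟩ := hinf.exists_gt N
  obtain ⟨j, hj⟩ : ∃ j, c ≤ x j := ⟨c, D.strictMono.le_apply⟩
  -- the largest element up to `x j`
  obtain ⟨a, ⟨haP, hax⟩, hamax⟩ : ∃ a, (a ∈ P ∧ a ≤ x j) ∧ ∀ m, m ∈ P → m ≤ x j → m ≤ a := by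
    have hne : ((range (x j + 1)).filter (fun m => m ∈ P)).Nonempty := ⟨c, mem_filter.2 ⟨mem_range.2 (by omega), hc⟩⟩
    refine ⟨((range (x j + 1)).filter (fun m => m ∈ P)).max' hne, ?_, ?_⟩
    · have := Finset.max'_mem _ hne
      rw [mem_filter, mem_range] at this
      exact ⟨this.2, by omega⟩
    · intro m hm hmx
      exact Finset.le_max' _ _ (mem_filter.2 ⟨mem_range.2 (by omega), hm⟩)
  have hexb : ∃ b, b ∈ P ∧ x j < b := by
    obtain ⟨b, hb, hb2⟩ := hinf.exists_gt (x j)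
    exact ⟨b, hb, hb2⟩
  have hb1 := Nat.find_spec hexb
  have hb2 : ∀ m, m ∈ P → x j < m → Nat.find hexb ≤ m := fun m hm hmx => Nat.find_min' hexb ⟨hm, hmx⟩
  have hb3 : x j + H j < Nat.find hexb := by
    by_contra hcc
    exact D.empty j _ hb1.1 ⟨hb1.2, by omega⟩
  refine ⟨a, Nat.find hexb, ?_, haP, hb1.1, by omega, ?_, ?_⟩
  · have := hamax c hc hj
    omega
  · rintro m hm ⟨h1, h2⟩
    rcases lt_or_ge (x j) m with h3 | h3
    · have := hb2 m hm h3
      omega
    · have := hamax m hm h3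
      omega
  · have h1 := D.target j a hax
    have h2 : a + H j ≤ Nat.find hexb := by omega
    have h3 : (a : ℝ) + H j ≤ Nat.find hexb := by exact_mod_cast h2
    linarith

end

end Pool.Agent.H67.BB
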