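import Mathlib

set_option autoImplicit false

/-!
Generalised integers: the prime factors `p` of `n` are replaced by `w p`.
-/

namespace Pool.Agent.H67.BB

open Finset Filter Topology

/-- The generalised integer attached to `n`: every prime factor `p` of `n` is replaced by `w p`. -/
noncomputable def gen (w : ℕ → ℕ) (n : ℕ) : ℕ := n.factorization.prod fun p k => (w p) ^ k

lemma gen_mul (w : ℕ → ℕ) {m n : ℕ} (hm : m ≠ 0) (hn : n ≠ 0) : gen w (m * n) = gen w m * gen w n := by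
  unfold gen
  rw [Nat.factorization_mul hm hn]
  exact Finsupp.prod_add_index' (by simp) (by intro a b c; exact pow_add _ _ _)

lemma gen_prime (w : ℕ → ℕ) {p : ℕ} (hp : p.Prime) : gen w p = w p := by
  simp [gen, hp.factorization]

lemma gen_id (n : ℕ) (hn : n ≠ 0) : gen (fun p => p) n = n :=
  Nat.prod_factorization_pow_eq_self hn

lemma gen_congr {w w' : ℕ → ℕ} {n : ℕ} (h : ∀ p : ℕ, p.Prime → p ∣ n → w p = w' p) : gen w n = gen w' n := by
  unfold gen
  refine Finset.prod_congr rfl fun p hp => ?_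
  show w p ^ _ = w' p ^ _
  rw [h p (Nat.prime_of_mem_primeFactors hp) (Nat.dvd_of_mem_primeFactors hp)]

lemma le_gen_cube {w : ℕ → ℕ} (hw : ∀ p : ℕ, p.Prime → p ≤ (w p) ^ 3) {n : ℕ} (hn : n ≠ 0) :
    n ≤ (gen w n) ^ 3 := by
  conv_lhs => rw [← Nat.prod_factorization_pow_eq_self hn]
  unfold gen
  rw [Finsupp.prod, Finsupp.prod, ← Finset.prod_pow]
  refine Finset.prod_le_prod' fun p hp => ?_
  rw [← pow_mul, mul_comm, pow_mul]
  exact Nat.pow_le_pow_left (hw p (Nat.prime_of_mem_primeFactors hp)) _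

/-- the set of the `n ≥ 1` with generalised integer at most `x` -/
def A (w : ℕ → ℕ) (x : ℝ) : Set ℕ := {n : ℕ | n ≠ 0 ∧ (gen w n : ℝ) ≤ x}

lemma A_finite {w : ℕ → ℕ} (hw : ∀ p : ℕ, p.Prime → p ≤ (w p) ^ 3) (x : ℝ) : (A w x).Finite := by
  refine (Set.finite_Iic (⌊x⌋₊ ^ 3)).subset fun n hn => ?_
  exact (le_gen_cube hw hn.1).trans (Nat.pow_le_pow_left (Nat.le_floor hn.2) 3)

/-- the number of generalised integers at most `x` -/
noncomputable def T (w : ℕ → ℕ) (x : ℝ) : ℕ := (A w x).ncard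

lemma T_rec {w : ℕ → ℕ} (hw : ∀ p : ℕ, p.Prime → p ≤ (w p) ^ 3) {r : ℕ} (hr : r.Prime) (x : ℝ) :
    T w x = {n : ℕ | n ≠ 0 ∧ ¬ r ∣ n ∧ (gen w n : ℝ) ≤ x}.ncard + T w (x / (w r : ℝ)) := by
  have hwr : 0 < w r := by
    rcases Nat.eq_zero_or_pos (w r) with h | h
    · have := hw r hr
      rw [h] at this
      have := hr.pos
      omega
    · exact h
  have hwr' : (0 : ℝ) < (w r : ℝ) := by exact_mod_cast hwr
  have h1 : A w x = {n : ℕ | n ≠ 0 ∧ ¬ r ∣ n ∧ (gen w n : ℝ) ≤ x} ∪ (fun n => r * n) '' A w (x / (w r : ℝ)) := by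
    ext n
    constructor
    · rintro ⟨h0, hx⟩
      by_cases hd : r ∣ n
      · right
        obtain ⟨m, rfl⟩ := hd
        have hm : m ≠ 0 := by rintro rfl; simp at h0
        refine ⟨m, ⟨hm, ?_⟩, rfl⟩
        rw [gen_mul w hr.ne_zero hm, gen_prime w hr] at hx
        rw [le_div_iff₀ hwr']
        push_cast at hx
        linarith [mul_comm (w r : ℝ) (gen w m : ℝ)]
      · left
        exact ⟨h0, hd, hx⟩
    · rintro (⟨h0, _, hx⟩ | ⟨m, ⟨hm, hx⟩, rfl⟩)
      · exact ⟨h0, hx⟩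
      · refine ⟨mul_ne_zero hr.ne_zero hm, ?_⟩
        rw [gen_mul w hr.ne_zero hm, gen_prime w hr]
        rw [le_div_iff₀ hwr'] at hx
        push_cast
        linarith [mul_comm (w r : ℝ) (gen w m : ℝ)]
  have hfin := A_finite hw x
  have hfin1 : {n : ℕ | n ≠ 0 ∧ ¬ r ∣ n ∧ (gen w n : ℝ) ≤ x}.Finite :=
    hfin.subset fun n hn => ⟨hn.1, hn.2.2⟩
  unfold T
  rw [h1, Set.ncard_union_eq _ hfin1 ((A_finite hw _).image _),
    Set.ncard_image_of_injective _ (mul_right_injective₀ hr.ne_zero)]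
  rw [Set.disjoint_left]
  rintro n ⟨_, hn, _⟩ ⟨m, _, rfl⟩
  exact hn (dvd_mul_right _ _)

lemma T_update {w w' : ℕ → ℕ} (hw : ∀ p : ℕ, p.Prime → p ≤ (w p) ^ 3) (hw' : ∀ p : ℕ, p.Prime → p ≤ (w' p) ^ 3)
    {r : ℕ} (hr : r.Prime) (h : ∀ p, p.Prime → p ≠ r → w p = w' p) (x : ℝ) :
    (T w' x : ℝ) = T w x - T w (x / (w r : ℝ)) + T w' (x / (w' r : ℝ)) := by
  have h1 := T_rec hw hr x
  have h2 := T_rec hw' hr x
  have h3 : {n : ℕ | n ≠ 0 ∧ ¬ r ∣ n ∧ (gen w n : ℝ) ≤ x} = {n : ℕ | n ≠ 0 ∧ ¬ r ∣ n ∧ (gen w' n : ℝ) ≤ x} := by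
    ext n
    simp only [Set.mem_ofPred_eq]
    constructor
    · rintro ⟨a, b, c⟩
      refine ⟨a, b, ?_⟩
      rwa [← gen_congr (w := w) (w' := w')]
      intro p hp hpn
      exact h p hp (fun h => b (h ▸ hpn))
    · rintro ⟨a, b, c⟩
      refine ⟨a, b, ?_⟩
      rwa [gen_congr (w := w) (w' := w')]
      intro p hp hpn
      exact h p hp (fun h => b (h ▸ hpn))
  rw [h3] at h1
  rw [h1, h2]
  push_cast
  ring

lemma T_eq_zero {w : ℕ → ℕ} (hw : ∀ p : ℕ, p.Prime → p ≤ (w p) ^ 3) {x : ℝ} (hx : x < 1) : T w x = 0 := by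
  unfold T
  have : A w x = ∅ := by
    rw [Set.eq_empty_iff_forall_notMem]
    rintro n ⟨h0, hn⟩
    have h1 := le_gen_cube hw h0
    have h2 : 1 ≤ gen w n := by
      by_contra h
      have : gen w n = 0 := by omega
      rw [this] at h1
      omega
    have : (1 : ℝ) ≤ gen w n := by exact_mod_cast h2
    linarith
  rw [this, Set.ncard_empty]

/-- `T w x = ρ x + O(√x)` with constant `K` -/
structure Good (w : ℕ → ℕ) (ρ K : ℝ) : Prop where
  cube : ∀ p : ℕ, p.Prime → p ≤ (w p) ^ 3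
  nonneg : 0 ≤ ρ
  le : ρ ≤ K
  bound : ∀ x : ℝ, 0 ≤ x → |(T w x : ℝ) - ρ * x| ≤ K * √x

lemma good_id : Good (fun p => p) 1 1 where
  cube := fun p hp => Nat.le_self_pow (by norm_num) p
  nonneg := zero_le_one
  le := le_rfl
  bound := by
    intro x hx
    have h1 : T (fun p => p) x = ⌊x⌋₊ := by
      unfold T
      have : A (fun p => p) x = ↑(Finset.Icc 1 ⌊x⌋₊) := by
        ext n
        simp only [A, Set.mem_ofPred_eq, Finset.coe_Icc, Set.mem_Icc]
        constructor
        · rintro ⟨h0, h⟩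
          rw [gen_id n h0] at h
          exact ⟨by omega, Nat.le_floor h⟩
        · rintro ⟨h0, h⟩
          have h0 : n ≠ 0 := by omega
          refine ⟨h0, ?_⟩
          rw [gen_id n h0]
          exact (Nat.le_floor_iff hx).1 h
      rw [this, Set.ncard_coe_finset, Nat.card_Icc]
      simp
    rw [h1, one_mul, one_mul]
    have h2 := Nat.floor_le hx
    have h3 := Nat.lt_floor_add_one x
    rw [abs_le]
    rcases lt_or_ge x 1 with h | h
    · have h4 : ⌊x⌋₊ = 0 := Nat.floor_eq_zero.2 h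
      rw [h4]
      have h5 : x ≤ √x := by
        have h6 := Real.sq_sqrt hx
        have h7 := Real.sqrt_nonneg x
        have h8 : √x ≤ 1 := Real.sqrt_le_one.2 h.le
        nlinarith
      constructor
      · push_cast; linarith
      · push_cast
        linarith [Real.sqrt_nonneg x]
    · have : 1 ≤ √x := Real.one_le_sqrt.2 h
      constructor <;> linarith

lemma good_step {w w' : ℕ → ℕ} {ρ K : ℝ} (hg : Good w ρ K) {r : ℕ} (hr : r.Prime) (hwr : w r = r)
    (h2 : 2 ≤ w' r) (hcube : r ≤ (w' r) ^ 3) (h : ∀ p, p.Prime → p ≠ r → w p = w' p) :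
    Good w' (ρ * ((1 - 1 / (r : ℝ)) / (1 - 1 / (w' r : ℝ))))
      (K * ((1 + 1 / √(r : ℝ)) / (1 - 1 / √(w' r : ℝ)))) := by
  obtain ⟨a, ha⟩ : ∃ a : ℕ, a = w' r := ⟨_, rfl⟩
  rw [← ha] at h2 hcube ⊢
  have hcube' : ∀ p : ℕ, p.Prime → p ≤ (w' p) ^ 3 := by
    intro p hp
    by_cases hpr : p = r
    · subst hpr; rw [← ha]; exact hcube
    · rw [← h p hp hpr]; exact hg.cube p hp
  have hr2 : (2 : ℝ) ≤ r := by exact_mod_cast hr.two_le
  have ha2 : (2 : ℝ) ≤ a := by exact_mod_cast h2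
  have hrp : (0 : ℝ) < r := by linarith
  have hap : (0 : ℝ) < a := by linarith
  have hsr : 1 < √(r : ℝ) := by
    rw [Real.lt_sqrt (by norm_num)]; linarith
  have hsa : 1 < √(a : ℝ) := by
    rw [Real.lt_sqrt (by norm_num)]; linarith
  have h1a : 1 / √(a : ℝ) < 1 := by
    rw [div_lt_one (by linarith)]; exact hsa
  have h1r : 1 / √(r : ℝ) < 1 := by
    rw [div_lt_one (by linarith)]; exact hsr
  have h1a0 : 0 < 1 / √(a : ℝ) := by positivity
  have h1r0 : 0 < 1 / √(r : ℝ) := by positivity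
  have h2a : 1 / (a : ℝ) ≤ 1 / √(a : ℝ) := by
    apply one_div_le_one_div_of_le (by linarith)
    have := Real.sq_sqrt hap.le
    nlinarith
  have h2r0 : 0 < 1 / (r : ℝ) := by positivity
  have h2r1 : 1 / (r : ℝ) < 1 := by rw [div_lt_one hrp]; linarith
  have h2a0 : 0 < 1 / (a : ℝ) := by positivity
  have hK : 0 ≤ K := hg.nonneg.trans hg.le
  set κ := K * ((1 + 1 / √(r : ℝ)) / (1 - 1 / √(a : ℝ))) with hκ
  set ρ' := ρ * ((1 - 1 / (r : ℝ)) / (1 - 1 / (a : ℝ))) with hρ'
  have hfrac : (1 - 1 / (r : ℝ)) / (1 - 1 / (a : ℝ)) ≤ (1 + 1 / √(r : ℝ)) / (1 - 1 / √(a : ℝ)) := by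
    apply div_le_div₀ <;> linarith
  have hfrac0 : 0 ≤ (1 - 1 / (r : ℝ)) / (1 - 1 / (a : ℝ)) := by
    apply div_nonneg <;> linarith
  have hle : ρ' ≤ κ := by
    rw [hρ', hκ]
    exact mul_le_mul hg.le hfrac hfrac0 hK
  have hρ0 : 0 ≤ ρ' := mul_nonneg hg.nonneg hfrac0
  have hκ0 : 0 ≤ κ := hρ0.trans hle
  have hκe : κ * (1 / √(a : ℝ)) + K * (1 + 1 / √(r : ℝ)) = κ := by
    have : κ * (1 - 1 / √(a : ℝ)) = K * (1 + 1 / √(r : ℝ)) := by
      rw [hκ, mul_assoc, div_mul_cancel₀ _ (by linarith)]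
    linarith
  have hρe : ρ' * (1 - 1 / (a : ℝ)) = ρ * (1 - 1 / (r : ℝ)) := by
    rw [hρ', mul_assoc, div_mul_cancel₀ _ (by linarith)]
  refine ⟨hcube', hρ0, hle, ?_⟩
  have key : ∀ N : ℕ, ∀ x : ℝ, 0 ≤ x → x < N + 1 → |(T w' x : ℝ) - ρ' * x| ≤ κ * √x := by
    intro N
    induction N with
    | zero =>
      intro x hx hx1
      rw [T_eq_zero hcube' (by simpa using hx1)]
      have h6 := Real.sq_sqrt hx
      have h7 := Real.sqrt_nonneg x
      have h8 : √x ≤ 1 := Real.sqrt_le_one.2 (by have : x < 1 := by simpa using hx1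
                                                 linarith)
      have h5 : x ≤ √x := by nlinarith
      rw [Nat.cast_zero, zero_sub, abs_neg, abs_of_nonneg (mul_nonneg hρ0 hx)]
      exact mul_le_mul hle h5 hx hκ0
    | succ N ih =>
      intro x hx hx1
      rcases lt_or_ge x 1 with h1 | h1
      · rw [T_eq_zero hcube' h1]
        have h6 := Real.sq_sqrt hx
        have h7 := Real.sqrt_nonneg x
        have h8 : √x ≤ 1 := Real.sqrt_le_one.2 h1.le
        have h5 : x ≤ √x := by nlinarith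
        rw [Nat.cast_zero, zero_sub, abs_neg, abs_of_nonneg (mul_nonneg hρ0 hx)]
        exact mul_le_mul hle h5 hx hκ0
      have hu := T_update hg.cube hcube' hr h x
      rw [hwr, ← ha] at hu
      have e1 := hg.bound x hx
      have e2 := hg.bound (x / r) (by positivity)
      have e3 := ih (x / a) (by positivity) (by
        push_cast at hx1
        rw [div_lt_iff₀ hap]
        nlinarith)
      rw [Real.sqrt_div hx] at e2 e3
      rw [hu]
      have e4 : (T w x : ℝ) - (T w (x / r) : ℝ) + (T w' (x / a) : ℝ) - ρ' * x =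
          ((T w x : ℝ) - ρ * x) - ((T w (x / r) : ℝ) - ρ * (x / r)) + ((T w' (x / a) : ℝ) - ρ' * (x / a)) := by
        have : ρ' * x = ρ' * (x / a) + (ρ' * (1 - 1 / (a : ℝ))) * x := by field_simp; ring
        rw [this, hρe]
        field_simp
        ring
      rw [e4]
      calc _ ≤ K * √x + K * (√x / √(r : ℝ)) + κ * (√x / √(a : ℝ)) := by
            refine (abs_add_le _ _).trans ?_
            refine add_le_add ((abs_sub _ _).trans (add_le_add e1 e2)) e3
        _ = (κ * (1 / √(a : ℝ)) + K * (1 + 1 / √(r : ℝ))) * √x := by ring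
        _ = κ * √x := by rw [hκe]
  intro x hx
  exact key ⌊x⌋₊ x hx (Nat.lt_floor_add_one x)

/-- the factor of a prime in the density -/
noncomputable def rfac (φ : ℕ → ℕ) (r : ℕ) : ℝ := (1 - 1 / (r : ℝ)) / (1 - 1 / (φ r : ℝ))

/-- the factor of a prime in the constant -/
noncomputable def kfac (φ : ℕ → ℕ) (r : ℕ) : ℝ :=
  if φ r = r then 1 else (1 + 1 / √(r : ℝ)) / (1 - 1 / √(φ r : ℝ))

open Classical in
/-- only the primes in `F` are moved -/
noncomputable def wF (φ : ℕ → ℕ) (F : Finset Nat.Primes) (p : ℕ) : ℕ :=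
  if ∃ r ∈ F, (r : ℕ) = p then φ p else p

lemma good_F {φ : ℕ → ℕ} (h2 : ∀ r : ℕ, r.Prime → 2 ≤ φ r) (hc : ∀ r : ℕ, r.Prime → r ≤ (φ r) ^ 3)
    (F : Finset Nat.Primes) :
    Good (wF φ F) (∏ r ∈ F, rfac φ r) (∏ r ∈ F, kfac φ r) := by
  classical
  induction F using Finset.induction_on with
  | empty =>
    have : wF φ ∅ = fun p => p := by
      funext p
      simp [wF]
    rw [this]
    simpa using good_id
  | insert r F hr ih =>
    rw [Finset.prod_insert hr, Finset.prod_insert hr, mul_comm (rfac φ r), mul_comm (kfac φ r)]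
    have hwr : wF φ F r = r := by
      unfold wF
      rw [if_neg]
      rintro ⟨s, hs, hsr⟩
      exact hr (by rwa [← Subtype.ext hsr])
    have hwr' : wF φ (insert r F) r = φ r := by
      unfold wF
      rw [if_pos ⟨r, Finset.mem_insert_self _ _, rfl⟩]
    have hoff : ∀ p : ℕ, p.Prime → p ≠ (r : ℕ) → wF φ F p = wF φ (insert r F) p := by
      intro p hp hpr
      unfold wF
      have : (∃ s ∈ F, (s : ℕ) = p) ↔ (∃ s ∈ insert r F, (s : ℕ) = p) := by
        constructor
        · rintro ⟨s, hs, h⟩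
          exact ⟨s, Finset.mem_insert_of_mem hs, h⟩
        · rintro ⟨s, hs, h⟩
          rcases Finset.mem_insert.1 hs with h1 | h1
          · exfalso
            apply hpr
            rw [← h, h1]
          · exact ⟨s, h1, h⟩
      simp only [this]
    by_cases hfix : φ r = r
    · have e1 : rfac φ r = 1 := by
        unfold rfac
        rw [hfix]
        have : (2 : ℝ) ≤ (r : ℕ) := by exact_mod_cast r.2.two_le
        have h3 : 1 / ((r : ℕ) : ℝ) < 1 := by rw [div_lt_one (by linarith)]; linarith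
        exact div_self (by linarith)
      have e2 : kfac φ r = 1 := by unfold kfac; rw [if_pos hfix]
      rw [e1, e2, mul_one, mul_one]
      have : wF φ (insert r F) = wF φ F := by
        funext p
        by_cases hpr : p = r
        · rw [hpr, hwr, hwr', hfix]
        · unfold wF
          have : (∃ s ∈ F, (s : ℕ) = p) ↔ (∃ s ∈ insert r F, (s : ℕ) = p) := by
            constructor
            · rintro ⟨s, hs, h⟩
              exact ⟨s, Finset.mem_insert_of_mem hs, h⟩
            · rintro ⟨s, hs, h⟩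
              rcases Finset.mem_insert.1 hs with h1 | h1
              · exfalso
                apply hpr
                rw [← h, h1]
              · exact ⟨s, h1, h⟩
          simp only [this]
      rw [this]
      exact ih
    · have := good_step (w' := wF φ (insert r F)) ih r.2 hwr (by rw [hwr']; exact h2 r r.2)
        (by rw [hwr']; exact hc r r.2) hoff
      rw [hwr'] at this
      have e2 : kfac φ r = (1 + 1 / √((r : ℕ) : ℝ)) / (1 - 1 / √(φ r : ℝ)) := by
        unfold kfac; rw [if_neg hfix]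
      rw [e2]
      exact this

end Pool.Agent.H67.BB
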