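import Pool.Agent.H67.BB.ClassSum

set_option autoImplicit false

/-!
Moving the small primes `p ≡ 1` modulo `q`.
-/

namespace Pool.Agent.H67.BB

open Finset Filter Topology

/-- the class `1` modulo `q` up to `Y` -/
def cls (q Y : ℕ) : Finset ℕ := (Icc 1 Y).filter (fun r => r.Prime ∧ r ≡ 1 [MOD q])

/-- the bound -/
noncomputable def YY (h : ℕ → ℝ) (q : ℕ) : ℕ := ⌊(((q : ℝ) - 1) * Real.log q) ^ 2 / h q⌋₊

lemma exists_modulus {h : ℕ → ℝ} (hh : Tendsto h atTop atTop) (hl : ∀ n, h n ≤ Real.log n) {δ : ℝ} (hδ : 0 < δ)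
    (N₀ : ℕ) : ∃ q : ℕ, q.Prime ∧ N₀ ≤ q ∧ ∑ r ∈ cls q (YY h q), 1 / √(r : ℝ) ≤ δ := by
  obtain ⟨C, hC, hcs⟩ := class_sum
  -- `h` is large
  obtain ⟨N₁, hN₁⟩ := eventually_atTop.1 (hh.eventually_ge_atTop (max 8 (2 * (C / δ) ^ 2)))
  obtain ⟨q, hq, hqp⟩ := Nat.exists_infinite_primes (N₀ + N₁ + 2)
  have hhq := hN₁ q (by omega)
  have hh8 : 8 ≤ h q := (le_max_left _ _).trans hhq
  have hhC : 2 * (C / δ) ^ 2 ≤ h q := (le_max_right _ _).trans hhq
  have hlq : h q ≤ Real.log q := hl q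
  have hl8 : 8 ≤ Real.log q := by linarith
  have hq2 : (2 : ℝ) ≤ q := by exact_mod_cast hqp.two_le
  have hq0 : (0 : ℝ) < q := by linarith
  refine ⟨q, hqp, by omega, ?_⟩
  obtain ⟨Y, hY⟩ : ∃ Y : ℕ, Y = YY h q := ⟨_, rfl⟩
  rw [← hY]
  have hYle : (Y : ℝ) ≤ (((q : ℝ) - 1) * Real.log q) ^ 2 / h q := by
    rw [hY]; exact Nat.floor_le (by positivity)
  have hYge : (((q : ℝ) - 1) * Real.log q) ^ 2 / h q < Y + 1 := by
    rw [hY]; exact Nat.lt_floor_add_one _
  obtain ⟨N, hN⟩ : ∃ N : ℕ, N = Y / q + 1 := ⟨_, rfl⟩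
  -- bounds for `N`
  have h1 : (q : ℝ) ^ 2 ≤ Y := by
    have h2 : ((q : ℝ) - 1) ^ 2 * Real.log q ≤ (((q : ℝ) - 1) * Real.log q) ^ 2 / h q := by
      rw [le_div_iff₀ (by linarith), mul_pow]
      have : 0 ≤ ((q : ℝ) - 1) ^ 2 * Real.log q := by positivity
      calc ((q : ℝ) - 1) ^ 2 * Real.log q * h q ≤ ((q : ℝ) - 1) ^ 2 * Real.log q * Real.log q := by gcongr
        _ = _ := by ring
    have h3 : ((q : ℝ) - 1) ^ 2 * 8 ≤ ((q : ℝ) - 1) ^ 2 * Real.log q := by gcongr
    nlinarith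
  have hqN : (q : ℝ) ≤ N := by
    have h2 : q ≤ Y / q := by
      rw [Nat.le_div_iff_mul_le hqp.pos]
      have : ((q * q : ℕ) : ℝ) ≤ Y := by push_cast; rw [← sq]; exact h1
      exact_mod_cast this
    exact_mod_cast (by omega : q ≤ N)
  have hN2 : 2 ≤ N := by
    have := hqp.two_le
    have h2 : (q : ℝ) ≤ N := hqN
    have h3 : q ≤ N := by exact_mod_cast h2
    omega
  have hNle : (N : ℝ) ≤ 2 * (q * Real.log q ^ 2 / h q) := by
    have h2 : ((Y / q : ℕ) : ℝ) ≤ Y / q := Nat.cast_div_le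
    have h3 : (Y : ℝ) / q ≤ q * Real.log q ^ 2 / h q := by
      rw [div_le_div_iff₀ hq0 (by linarith)]
      rw [le_div_iff₀ (by linarith)] at hYle
      calc (Y : ℝ) * h q ≤ (((q : ℝ) - 1) * Real.log q) ^ 2 := hYle
        _ ≤ ((q : ℝ) * Real.log q) ^ 2 := by
          have : 0 ≤ ((q : ℝ) - 1) * Real.log q := by
            apply mul_nonneg <;> linarith
          gcongr
          linarith
        _ = _ := by ring
    have h4 : 1 ≤ q * Real.log q ^ 2 / h q := by
      rw [le_div_iff₀ (by linarith)]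
      nlinarith
    rw [hN]
    push_cast
    linarith
  -- the sum
  have hsum : ∑ r ∈ cls q Y, 1 / √(r : ℝ) ≤
      ∑ k ∈ (Ico 1 N).filter (fun k => (1 + k * q).Prime), 1 / √q * (1 / √(k : ℝ)) := by
    have hinj : Set.InjOn (fun r : ℕ => (r - 1) / q) (cls q Y : Set ℕ) := by
      intro r hr r' hr' hrr
      rw [mem_coe, cls, mem_filter, mem_Icc] at hr hr'
      have e1 := (Nat.modEq_iff_dvd' hr.1.1).1 hr.2.2.symm
      have e2 := (Nat.modEq_iff_dvd' hr'.1.1).1 hr'.2.2.symm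
      have e3 := Nat.div_mul_cancel e1
      have e4 := Nat.div_mul_cancel e2
      simp only at hrr
      rw [hrr, e4] at e3
      omega
    have himg : ∑ r ∈ cls q Y, 1 / √(r : ℝ) ≤ ∑ k ∈ (cls q Y).image (fun r => (r - 1) / q), 1 / √q * (1 / √(k : ℝ)) := by
      rw [sum_image hinj]
      apply sum_le_sum
      intro r hr
      rw [cls, mem_filter, mem_Icc] at hr
      have e1 := (Nat.modEq_iff_dvd' hr.1.1).1 hr.2.2.symm
      have e3 := Nat.div_mul_cancel e1
      obtain ⟨k, hk⟩ : ∃ k, k = (r - 1) / q := ⟨_, rfl⟩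
      rw [← hk] at e3 ⊢
      have hk1 : 1 ≤ k := by
        rcases Nat.eq_zero_or_pos k with h | h
        · rw [h, zero_mul] at e3
          have := hr.2.1.two_le
          omega
        · exact h
      have hk0 : (0 : ℝ) < k := by exact_mod_cast hk1
      rw [div_mul_div_comm, one_mul, ← Real.sqrt_mul hq0.le]
      apply one_div_le_one_div_of_le (Real.sqrt_pos.2 (by positivity))
      apply Real.sqrt_le_sqrt
      have : q * k ≤ r := by rw [mul_comm]; omega
      exact_mod_cast this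
    refine himg.trans (sum_le_sum_of_subset_of_nonneg ?_ fun _ _ _ => by positivity)
    intro k hk
    rw [mem_image] at hk
    obtain ⟨r, hr, rfl⟩ := hk
    rw [cls, mem_filter, mem_Icc] at hr
    have e1 := (Nat.modEq_iff_dvd' hr.1.1).1 hr.2.2.symm
    have e3 := Nat.div_mul_cancel e1
    rw [mem_filter, mem_Ico]
    refine ⟨⟨?_, ?_⟩, ?_⟩
    · rcases Nat.eq_zero_or_pos ((r - 1) / q) with h | h
      · rw [h, zero_mul] at e3
        have := hr.2.1.two_le
        omega
      · exact h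
    · have : (r - 1) / q ≤ Y / q := Nat.div_le_div_right (by omega)
      omega
    · rw [e3]
      have : 1 + (r - 1) = r := by omega
      rw [this]
      exact hr.2.1
  refine hsum.trans ?_
  rw [← mul_sum]
  have h5 := hcs q N hqp hN2
  have hsq : 0 < √(q : ℝ) := Real.sqrt_pos.2 hq0
  have hlN : Real.log q ≤ Real.log N := Real.log_le_log hq0 hqN
  have h6 : C * √(N : ℝ) / Real.log N ≤ C * √(2 * (q * Real.log q ^ 2 / h q)) / Real.log q := by
    gcongr
  have h7 : √(2 * (q * Real.log q ^ 2 / h q)) = √(2 / h q) * √q * Real.log q := by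
    have : 2 * (q * Real.log q ^ 2 / h q) = 2 / h q * q * Real.log q ^ 2 := by ring
    rw [this, Real.sqrt_mul (by positivity), Real.sqrt_mul (by positivity), Real.sqrt_sq (by linarith)]
  have h8 : √(2 / h q) ≤ δ / C := by
    apply Real.sqrt_le_iff.2
    refine ⟨by positivity, ?_⟩
    rw [div_le_iff₀ (by linarith)]
    have : (δ / C) ^ 2 * (2 * (C / δ) ^ 2) = 2 := by field_simp
    calc (2 : ℝ) = (δ / C) ^ 2 * (2 * (C / δ) ^ 2) := this.symm
      _ ≤ (δ / C) ^ 2 * h q := by gcongr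
  calc 1 / √q * ∑ k ∈ (Ico 1 N).filter (fun k => (1 + k * q).Prime), 1 / √(k : ℝ)
      ≤ 1 / √q * (C * √(2 * (q * Real.log q ^ 2 / h q)) / Real.log q) := by
        gcongr
        exact h5.trans h6
    _ = C * √(2 / h q) := by
        rw [h7]
        have : Real.log q ≠ 0 := by linarith
        field_simp
    _ ≤ C * (δ / C) := by gcongr
    _ = δ := by field_simp

/-- the data -/
structure LP (ε : ℝ) (h : ℕ → ℝ) (f : ℕ → ℝ) (φ X q : ℕ → ℕ) : Prop where
  prime : ∀ j, (q j).Prime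
  large : ∀ j, X j < q j
  next : ∀ j, YY h (q j) < X (j + 1) ∧ q j < X (j + 1)
  sum : ∀ j, ∑ r ∈ cls (q j) (YY h (q j)), 1 / √(r : ℝ) ≤ ε * (1 / 2) ^ (j + 1)
  out : Out (fun j => {m | ¬ m ≡ 1 [MOD q j] ∨ YY h (q j) < m}) f φ X

theorem exists_LP {h : ℕ → ℝ} (hh : Tendsto h atTop atTop) (hl : ∀ n, h n ≤ Real.log n) {ε : ℝ} (hε : 0 < ε)
    (f : ℕ → ℝ) (hf0 : ∀ n, 0 ≤ f n) (hf : Tendsto f atTop atTop) : ∃ φ X q, LP ε h f φ X q := by
  choose Q hQ1 hQ2 hQ3 using fun (j x : ℕ) => exists_modulus hh hl (δ := ε * (1 / 2) ^ (j + 1)) (by positivity)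
    (x + Nat.factorial j + 1)
  obtain ⟨φ, X, hX, O⟩ := template2 (fun j x => {m | ¬ m ≡ 1 [MOD Q j x] ∨ YY h (Q j x) < m})
    (fun j => ⟨2 * Nat.factorial j, by have := Nat.factorial_pos j; omega, fun x y v => by
      have hfp := Nat.factorial_pos j
      obtain ⟨m, hm1, hm2, hm3⟩ : ∃ m, y ≤ m ∧ m < y + Nat.factorial j ∧ m ≡ v [MOD Nat.factorial j] := by
        refine ⟨y + (v + (Nat.factorial j - y % Nat.factorial j)) % Nat.factorial j, by omega,
          by have := Nat.mod_lt (v + (Nat.factorial j - y % Nat.factorial j)) hfp; omega, ?_⟩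
        have h1 : y % Nat.factorial j < Nat.factorial j := Nat.mod_lt _ hfp
        unfold Nat.ModEq
        rw [Nat.add_mod, Nat.mod_mod, ← Nat.add_mod]
        have h2 : y + (v + (Nat.factorial j - y % Nat.factorial j)) =
            v + (Nat.factorial j * (y / Nat.factorial j) + Nat.factorial j) := by
          have := Nat.div_add_mod y (Nat.factorial j)
          omega
        rw [h2, ← Nat.mul_succ, Nat.add_mul_mod_self_left]
      by_cases hc : m ≡ 1 [MOD Q j x]
      · refine ⟨m + Nat.factorial j, Or.inl ?_, by omega, by omega, ?_⟩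
        · intro hc'
          have h2 : m ≡ m + Nat.factorial j [MOD Q j x] := hc.trans hc'.symm
          have h3 := (Nat.modEq_iff_dvd' (by omega)).1 h2
          have h4 : m + Nat.factorial j - m = Nat.factorial j := by omega
          rw [h4] at h3
          have h5 := Nat.le_of_dvd hfp h3
          have h6 := hQ2 j x
          omega
        · have : m + Nat.factorial j ≡ m [MOD Nat.factorial j] := by
            unfold Nat.ModEq; simp
          exact this.trans hm3
      · exact ⟨m, Or.inl hc, hm1, by omega, hm3⟩⟩)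
    f hf0 hf (fun j x => YY h (Q j x) + Q j x + 1)
  refine ⟨φ, X, fun j => Q j (X j), fun j => hQ1 _ _, fun j => ?_, fun j => ?_, fun j => hQ3 _ _, O⟩
  · have := hQ2 j (X j)
    show X j < Q j (X j)
    omega
  · have := hX j
    constructor
    · show YY h (Q j (X j)) < X (j + 1)
      omega
    · show Q j (X j) < X (j + 1)
      omega

section

variable {ε : ℝ} {h f : ℕ → ℝ} {φ X q : ℕ → ℕ}

lemma LP.moved (L : LP ε h f φ X q) {r : ℕ} (hr : r.Prime) (hm : φ r ≠ r) : ∃ j, r ∈ cls (q j) (YY h (q j)) ∧ X j ≤ r := by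
  rcases lt_or_ge r (X 0) with c | c
  · exact absurd (L.out.small r hr c) hm
  · obtain ⟨j, h1, h2⟩ := L.out.exists_stage' c
    refine ⟨j, ?_, h1⟩
    have h3 := (L.out.stage j r hr h1 h2).2.2.2.2.1
    have h4 : ¬ (¬ r ≡ 1 [MOD q j] ∨ YY h (q j) < r) := fun hc => hm (h3 hc)
    push Not at h4
    rw [cls, mem_filter, mem_Icc]
    exact ⟨⟨hr.one_le, h4.2⟩, hr, h4.1⟩

lemma LP.sum_le (L : LP ε h f φ X q) (hε : 0 < ε) (F : Finset Nat.Primes) : ∑ r ∈ F, uu φ r ≤ ε := by
  classical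
  obtain ⟨J, hJ⟩ : ∃ J : ℕ, ∀ r ∈ F, (r : ℕ) < J :=
    ⟨F.sup (fun r => (r : ℕ)) + 1, fun r hr => Nat.lt_succ_of_le (Finset.le_sup (f := fun r : Nat.Primes => (r : ℕ)) hr)⟩
  have hnn : ∀ (r : Nat.Primes) (j : ℕ), 0 ≤ if (r : ℕ) ∈ cls (q j) (YY h (q j)) then 1 / √((r : ℕ) : ℝ) else 0 := by
    intro r j
    split_ifs
    · positivity
    · exact le_rfl
  have hpt : ∀ r ∈ F, uu φ r ≤ ∑ j ∈ range J, if (r : ℕ) ∈ cls (q j) (YY h (q j)) then 1 / √((r : ℕ) : ℝ) else 0 := by
    intro r hr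
    unfold uu
    split_ifs with hfix
    · exact Finset.sum_nonneg fun j _ => hnn r j
    · obtain ⟨j, h1, h2⟩ := L.moved r.2 hfix
      have hjJ : j ∈ range J := by
        rw [mem_range]
        have h3 : j ≤ X j := L.out.mono.le_apply
        have h4 := hJ r hr
        omega
      refine le_trans ?_ (Finset.single_le_sum (fun j _ => hnn r j) hjJ)
      rw [if_pos h1]
  calc ∑ r ∈ F, uu φ r ≤ ∑ r ∈ F, ∑ j ∈ range J, (if (r : ℕ) ∈ cls (q j) (YY h (q j)) then 1 / √((r : ℕ) : ℝ) else 0) :=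
        Finset.sum_le_sum hpt
    _ = ∑ j ∈ range J, ∑ r ∈ F, (if (r : ℕ) ∈ cls (q j) (YY h (q j)) then 1 / √((r : ℕ) : ℝ) else 0) := Finset.sum_comm
    _ ≤ ∑ j ∈ range J, ε * (1 / 2) ^ (j + 1) := by
        refine Finset.sum_le_sum fun j _ => ?_
        refine le_trans ?_ (L.sum j)
        rw [← Finset.sum_filter]
        have himg : ∑ r ∈ F.filter (fun r : Nat.Primes => (r : ℕ) ∈ cls (q j) (YY h (q j))), 1 / √((r : ℕ) : ℝ) =
            ∑ m ∈ (F.filter (fun r : Nat.Primes => (r : ℕ) ∈ cls (q j) (YY h (q j)))).image (fun r : Nat.Primes => (r : ℕ)),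
              1 / √(m : ℝ) := by
          rw [Finset.sum_image]
          intro a _ b _ hab
          exact Subtype.ext hab
        rw [himg]
        apply Finset.sum_le_sum_of_subset_of_nonneg
        · intro m hm
          rw [mem_image] at hm
          obtain ⟨r, hr, rfl⟩ := hm
          exact (mem_filter.1 hr).2
        · intros; positivity
    _ = ε * ∑ j ∈ range J, (1 / 2 : ℝ) ^ (j + 1) := by rw [mul_sum]
    _ ≤ ε * 1 := by
        gcongr
        exact sum_geom' J
    _ = ε := mul_one _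

lemma LP.summable (L : LP ε h f φ X q) (hε : 0 < ε) : Summable (uu φ) :=
  summable_of_sum_le (fun r => uu_nonneg φ r) (L.sum_le hε)

lemma LP.tsum_le (L : LP ε h f φ X q) (hε : 0 < ε) : ∑' r, uu φ r ≤ ε :=
  (L.summable hε).tsum_le_of_sum_le (L.sum_le hε)

lemma LP.move (L : LP ε h f φ X q) (hε : 0 < ε) : Move φ 1 where
  two := L.out.move.two
  low := L.out.move.low
  disp := by
    intro r hr
    refine (L.out.displog r hr).trans ?_
    have h1 : (1 : ℝ) ≤ r := by exact_mod_cast hr.one_le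
    have h2 : 0 ≤ Real.log r := Real.log_nonneg h1
    have h3 : 1 ≤ √(r : ℝ) := Real.one_le_sqrt.2 h1
    nlinarith
  fin := L.out.move.fin
  sum := L.summable hε

/-- the class `1` modulo `q j` is empty up to `YY` -/
lemma LP.empty (L : LP ε h f φ X q) (j : ℕ) {r : ℕ} (hr : r.Prime) (hc : φ r ≡ 1 [MOD q j]) : YY h (q j) < φ r := by
  have hone : ∀ m : ℕ, m < q j → 2 ≤ m → ¬ m ≡ 1 [MOD q j] := by
    intro m h1 h2 h3
    have h4 := (L.prime j).two_le
    unfold Nat.ModEq at h3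
    rw [Nat.mod_eq_of_lt h1, Nat.mod_eq_of_lt (by omega)] at h3
    omega
  have h2φ := L.out.move.two r hr
  have hXq := L.large j
  rcases lt_or_ge r (X 0) with c | c
  · exfalso
    have h1 : φ r = r := L.out.small r hr c
    have h0 := L.out.mono.monotone (Nat.zero_le j)
    exact hone (φ r) (by omega) h2φ hc
  · obtain ⟨i, h1, h2⟩ := L.out.exists_stage' c
    have s := L.out.stage i r hr h1 h2
    rcases lt_trichotomy i j with hij | hij | hij
    · exfalso
      have h0 := L.out.mono.monotone (show i + 1 ≤ j from hij)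
      exact hone (φ r) (by omega) h2φ hc
    · subst hij
      rcases s.2.2.2.1 with h3 | h3
      · exact absurd hc h3
      · exact h3
    · have h0 := L.out.mono.monotone (show j + 1 ≤ i from hij)
      have h3 := (L.next j).1
      omega

end

end Pool.Agent.H67.BB
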