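import Pool.Agent.H67.BB.Avoid

set_option autoImplicit false

/-!
Values of integer polynomials of degree at least two are thin.
-/

namespace Pool.Agent.H67.BB

open Finset Filter Topology Polynomial

/-- the values of a sequence of integers -/
def Val (u : ℕ → ℤ) : Set ℕ := {m | ∃ n : ℕ, u n = (m : ℤ)}

lemma banachZero_of_sep {u : ℕ → ℤ} (h : ∀ L : ℕ, ∃ N : ℕ, ∀ n n' : ℕ, N ≤ n → n ≤ n' → (L : ℤ) * (n' - n) ≤ u n' - u n) :
    BanachZero (Val u) := by
  classical
  intro ε hε
  obtain ⟨L, hL⟩ := exists_nat_gt (2 / ε)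
  have hL0 : (0 : ℝ) < L := lt_trans (by positivity) hL
  have hL1 : 0 < L := by exact_mod_cast hL0
  obtain ⟨N, hN⟩ := h L
  obtain ⟨K₀, hK₀⟩ := exists_nat_ge (2 * ((N : ℝ) + 2) / ε)
  refine ⟨K₀, fun K hK x => ?_⟩
  have hKR : 2 * ((N : ℝ) + 2) / ε ≤ K := hK₀.trans (by exact_mod_cast hK)
  rw [div_le_iff₀ hε] at hKR
  -- a choice of indices
  obtain ⟨S, hS⟩ : ∃ S : Finset ℕ, (S : Set ℕ) = {m | m ∈ Val u ∧ x ≤ m ∧ m < x + K} :=
    ⟨(finite_window (Val u) x K).toFinset, Set.Finite.coe_toFinset _⟩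
  rw [← hS, Set.ncard_coe_finset]
  have hmem : ∀ m : ℕ, m ∈ S ↔ m ∈ Val u ∧ x ≤ m ∧ m < x + K := by
    intro m
    rw [← mem_coe, hS]
    exact Iff.rfl
  have hch : ∀ m : ℕ, ∃ n : ℕ, m ∈ S → u n = (m : ℤ) := by
    intro m
    by_cases hm : m ∈ S
    · obtain ⟨n, hn⟩ := ((hmem m).1 hm).1
      exact ⟨n, fun _ => hn⟩
    · exact ⟨0, fun h => absurd h hm⟩
  choose c hc using hch
  have hinj : Set.InjOn c S := by
    intro m hm m' hm' hmm
    have h1 := hc m hm
    have h2 := hc m' hm'
    rw [hmm, h2] at h1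
    exact_mod_cast h1.symm
  rw [← card_image_of_injOn hinj]
  -- the indices below `N` and the others
  have h3 : (S.image c).card ≤ N + ((S.image c).filter (fun n => N ≤ n)).card := by
    have : S.image c ⊆ range N ∪ (S.image c).filter (fun n => N ≤ n) := by
      intro n hn
      rw [mem_union, mem_range, mem_filter]
      rcases lt_or_ge n N with h | h
      · exact Or.inl h
      · exact Or.inr ⟨hn, h⟩
    refine (card_le_card this).trans ((card_union_le _ _).trans ?_)
    rw [card_range]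
  have h4 : ((S.image c).filter (fun n => N ≤ n)).card ≤ K / L + 1 := by
    rcases ((S.image c).filter (fun n => N ≤ n)).eq_empty_or_nonempty with he | hne
    · rw [he, card_empty]; exact Nat.zero_le _
    · obtain ⟨a, ha, hmin⟩ := exists_min_image _ id hne
      have hsub : (S.image c).filter (fun n => N ≤ n) ⊆ Icc a (a + K / L) := by
        intro n hn
        have hle : a ≤ n := hmin n hn
        rw [mem_Icc]
        refine ⟨hle, ?_⟩
        rw [mem_filter, mem_image] at ha hn
        obtain ⟨⟨m, hm, rfl⟩, haN⟩ := ha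
        obtain ⟨⟨m', hm', rfl⟩, hnN⟩ := hn
        have h5 := hN _ _ haN hle
        rw [hc m hm, hc m' hm'] at h5
        have h6 := (hmem m).1 hm
        have h7 := (hmem m').1 hm'
        have h8 : (L : ℤ) * ((c m' : ℤ) - c m) ≤ K := by
          have e1 : (m' : ℤ) < x + K := by exact_mod_cast h7.2.2
          have e2 : (x : ℤ) ≤ m := by exact_mod_cast h6.2.1
          linarith
        have h9 : L * (c m' - c m) ≤ K := by
          have : ((L * (c m' - c m) : ℕ) : ℤ) ≤ K := by
            push_cast [Nat.cast_sub hle]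
            exact h8
          exact_mod_cast this
        have h10 : c m' - c m ≤ K / L := by
          rw [Nat.le_div_iff_mul_le hL1, mul_comm]
          exact h9
        omega
      refine (card_le_card hsub).trans ?_
      rw [Nat.card_Icc]
      generalize K / L = t
      omega
  have h5 : ((S.image c).card : ℝ) ≤ N + (K / L + 1) := by
    have : (S.image c).card ≤ N + (K / L + 1) := h3.trans (by omega)
    have h6 : ((K / L : ℕ) : ℝ) ≤ (K : ℝ) / L := Nat.cast_div_le
    calc ((S.image c).card : ℝ) ≤ ((N + (K / L + 1) : ℕ) : ℝ) := by exact_mod_cast this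
      _ ≤ _ := by push_cast; linarith
  have h6 : (K : ℝ) / L ≤ ε / 2 * K := by
    rw [div_le_iff₀ hL0]
    have h7 : 2 < L * ε := by rwa [div_lt_iff₀ hε] at hL
    have : (0 : ℝ) ≤ K := Nat.cast_nonneg K
    nlinarith
  linarith

lemma banachZero_of_neg {u : ℕ → ℤ} (h : ∃ N : ℕ, ∀ n : ℕ, N ≤ n → u n < 0) : BanachZero (Val u) := by
  obtain ⟨N, hN⟩ := h
  intro ε hε
  obtain ⟨K₀, hK₀⟩ := exists_nat_ge ((N : ℝ) / ε)
  refine ⟨K₀, fun K hK x => ?_⟩
  have hKR : (N : ℝ) / ε ≤ K := hK₀.trans (by exact_mod_cast hK)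
  rw [div_le_iff₀ hε] at hKR
  have h1 : {m | m ∈ Val u ∧ x ≤ m ∧ m < x + K} ⊆ (fun n : ℕ => (u n).toNat) '' (Set.Iio N) := by
    rintro m ⟨⟨n, hn⟩, _, _⟩
    refine ⟨n, ?_, ?_⟩
    · show n < N
      by_contra hc
      push Not at hc
      have := hN n hc
      rw [hn] at this
      omega
    · show (u n).toNat = m
      rw [hn]; simp
  have h2 : {m | m ∈ Val u ∧ x ≤ m ∧ m < x + K}.ncard ≤ N := by
    refine (Set.ncard_le_ncard h1 ((Set.finite_Iio N).image _)).trans ?_
    refine (Set.ncard_image_le (Set.finite_Iio N)).trans ?_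
    rw [← Finset.coe_range, Set.ncard_coe_finset, card_range]
  have h3 : ({m | m ∈ Val u ∧ x ≤ m ∧ m < x + K}.ncard : ℝ) ≤ N := by exact_mod_cast h2
  linarith [mul_comm ε (K : ℝ)]

lemma eval_cast (F : ℤ[X]) (n : ℤ) : (F.map (Int.castRingHom ℝ)).eval (n : ℝ) = ((F.eval n : ℤ) : ℝ) := by
  simp

lemma eval_cast' (F : ℤ[X]) (n : ℕ) : (F.map (Int.castRingHom ℝ)).eval (n : ℝ) = ((F.eval (n : ℤ) : ℤ) : ℝ) := by
  simp

lemma banachZero_poly {F : ℤ[X]} (hF : 2 ≤ F.natDegree) : BanachZero (Val fun n => F.eval (n : ℤ)) := by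
  have hinj : Function.Injective (Int.castRingHom ℝ) := Int.cast_injective
  set P : ℝ[X] := F.map (Int.castRingHom ℝ) with hP
  have hdeg : P.natDegree = F.natDegree := natDegree_map_eq_of_injective hinj F
  have hlc : P.leadingCoeff = (F.leadingCoeff : ℝ) := by
    rw [hP, leadingCoeff_map_of_injective hinj]; simp
  have hF0 : F ≠ 0 := by rintro rfl; simp at hF
  have hlc0 : F.leadingCoeff ≠ 0 := leadingCoeff_ne_zero.2 hF0
  rcases lt_or_gt_of_ne hlc0 with hneg | hpos
  · apply banachZero_of_neg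
    have h1 : Tendsto (fun x => eval x P) atTop atBot := by
      apply tendsto_atBot_of_leadingCoeff_nonpos
      · rw [← natDegree_pos_iff_degree_pos, hdeg]; omega
      · rw [hlc]; exact_mod_cast hneg.le
    have h2 : Tendsto (fun n : ℕ => eval (n : ℝ) P) atTop atBot := h1.comp tendsto_natCast_atTop_atTop
    obtain ⟨N, hN⟩ := eventually_atTop.1 (h2.eventually_lt_atBot 0)
    refine ⟨N, fun n hn => ?_⟩
    have := hN n hn
    rw [hP, eval_cast'] at this
    exact_mod_cast this
  · apply banachZero_of_sep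
    intro L
    have h1 : Tendsto (fun x => eval x (derivative P)) atTop atTop := by
      apply tendsto_atTop_of_leadingCoeff_nonneg
      · rw [← natDegree_pos_iff_degree_pos, natDegree_derivative, hdeg]
        omega
      · rw [leadingCoeff, natDegree_derivative, coeff_derivative]
        have : P.natDegree - 1 + 1 = P.natDegree := by rw [hdeg]; omega
        rw [this]
        have h2 : 0 ≤ P.coeff P.natDegree := by
          change 0 ≤ P.leadingCoeff
          rw [hlc]; exact_mod_cast hpos.le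
        positivity
    obtain ⟨B, hB⟩ := eventually_atTop.1 (h1.eventually_ge_atTop (L : ℝ))
    obtain ⟨N, hN⟩ := exists_nat_ge B
    refine ⟨N, fun n n' hn hnn => ?_⟩
    have h2 : (L : ℝ) * ((n' : ℝ) - n) ≤ eval (n' : ℝ) P - eval (n : ℝ) P := by
      apply Convex.mul_sub_le_image_sub_of_le_deriv (convex_Ici B) (P.continuous.continuousOn)
        (P.differentiable.differentiableOn)
      · intro x hx
        rw [interior_Ici] at hx
        rw [Polynomial.deriv]
        exact hB x (le_of_lt hx)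
      · show B ≤ (n : ℝ)
        exact hN.trans (by exact_mod_cast hn)
      · show B ≤ (n' : ℝ)
        exact hN.trans (by exact_mod_cast (hn.trans hnn))
      · exact_mod_cast hnn
    rw [hP, eval_cast', eval_cast'] at h2
    exact_mod_cast h2

lemma summable_val {u : ℕ → ℤ} {c : ℝ} (hc : 0 < c) (hu : ∀ᶠ n : ℕ in atTop, c * (n : ℝ) ^ 2 ≤ |(u n : ℝ)|) {σ : ℝ}
    (hσ : 1 / 2 < σ) : Summable (wt (Val u) σ) := by
  have h1 : Summable (fun n : ℕ => |(u n : ℝ)| ^ (-σ)) := by
    have h2 : Summable (fun n : ℕ => c ^ (-σ) * (n : ℝ) ^ (-(2 * σ))) :=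
      (Real.summable_nat_rpow.2 (by linarith)).mul_left _
    refine Summable.of_norm_bounded_eventually_nat h2 ?_
    filter_upwards [hu, eventually_ge_atTop 1] with n hn hn1
    have hn0 : (0 : ℝ) < n := by exact_mod_cast hn1
    rw [Real.norm_of_nonneg (by positivity)]
    calc |(u n : ℝ)| ^ (-σ) ≤ (c * (n : ℝ) ^ 2) ^ (-σ) :=
          Real.rpow_le_rpow_of_nonpos (by positivity) hn (by linarith)
      _ = c ^ (-σ) * (n : ℝ) ^ (-(2 * σ)) := by
        rw [Real.mul_rpow hc.le (by positivity), ← Real.rpow_natCast, ← Real.rpow_mul hn0.le]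
        congr 2
        push_cast
        ring
  rw [wt, ← summable_subtype_iff_indicator]
  have hch : ∀ m : Val u, ∃ n : ℕ, u n = ((m : ℕ) : ℤ) := fun m => m.2
  choose k hk using hch
  have hinj : Function.Injective k := by
    intro m m' h
    have h1 := hk m
    rw [h, hk m'] at h1
    exact Subtype.ext (by exact_mod_cast h1.symm)
  refine (h1.comp_injective hinj).congr fun m => ?_
  show |(u (k m) : ℝ)| ^ (-σ) = ((m : ℕ) : ℝ) ^ (-σ)
  rw [hk m]
  simp

lemma poly_growth {F : ℤ[X]} (hF : 2 ≤ F.natDegree) :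
    ∃ c : ℝ, 0 < c ∧ ∀ᶠ n : ℕ in atTop, c * (n : ℝ) ^ 2 ≤ |((F.eval (n : ℤ) : ℤ) : ℝ)| := by
  have hinj : Function.Injective (Int.castRingHom ℝ) := Int.cast_injective
  have hdeg : (F.map (Int.castRingHom ℝ)).degree = F.degree := degree_map_eq_of_injective hinj F
  have h1 : (fun x : ℝ => eval x (X ^ 2 : ℝ[X])) =O[atTop] fun x => eval x (F.map (Int.castRingHom ℝ)) := by
    apply isBigO_atTop_of_degree_le
    rw [hdeg, degree_X_pow]
    have hF0 : F ≠ 0 := by rintro rfl; simp at hF
    rw [degree_eq_natDegree hF0]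
    exact_mod_cast hF
  obtain ⟨C, hC, h2⟩ := h1.exists_pos
  have h3 := (h2.bound)
  have h4 := tendsto_natCast_atTop_atTop (R := ℝ) |>.eventually h3
  refine ⟨C⁻¹, by positivity, ?_⟩
  filter_upwards [h4] with n hn
  rw [eval_cast', eval_pow, eval_X, Real.norm_of_nonneg (by positivity), Real.norm_eq_abs] at hn
  rw [inv_mul_le_iff₀ hC]
  exact hn

lemma countable_poly : Countable ℤ[X] := by
  rw [← Cardinal.mk_le_aleph0_iff]
  refine (Polynomial.cardinalMk_le_max (R := ℤ)).trans ?_
  rw [max_le_iff]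
  exact ⟨Cardinal.mk_le_aleph0, le_rfl⟩

/-- the non-negative values of an integer polynomial at integers -/
def PV (F : ℤ[X]) : Set ℕ := {m | ∃ n : ℤ, F.eval n = (m : ℤ)}

lemma PV_eq (F : ℤ[X]) : PV F = Val (fun n => F.eval (n : ℤ)) ∪ Val (fun n => (F.comp (-X)).eval (n : ℤ)) := by
  ext m
  constructor
  · rintro ⟨n, hn⟩
    rcases Int.eq_nat_or_neg n with ⟨k, rfl | rfl⟩
    · exact Or.inl ⟨k, hn⟩
    · right
      refine ⟨k, ?_⟩
      show (F.comp (-X)).eval (k : ℤ) = m
      rw [eval_comp]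
      simpa using hn
  · rintro (⟨n, hn⟩ | ⟨n, hn⟩)
    · exact ⟨n, hn⟩
    · refine ⟨-n, ?_⟩
      have hn : (F.comp (-X)).eval (n : ℤ) = m := hn
      rw [eval_comp] at hn
      simpa using hn

lemma natDegree_comp_neg (F : ℤ[X]) : (F.comp (-X)).natDegree = F.natDegree := by
  rw [natDegree_comp]
  simp

lemma banachZero_PV {F : ℤ[X]} (hF : 2 ≤ F.natDegree) : BanachZero (PV F) := by
  rw [PV_eq]
  exact (banachZero_poly hF).union (banachZero_poly (by rw [natDegree_comp_neg]; exact hF))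

lemma summable_wt_union {V W : Set ℕ} {σ : ℝ} (hV : Summable (wt V σ)) (hW : Summable (wt W σ)) :
    Summable (wt (V ∪ W) σ) := by
  refine Summable.of_nonneg_of_le (fun m => wt_nonneg _ _ _) (fun m => ?_) (hV.add hW)
  have h1 := wt_nonneg V σ m
  have h2 := wt_nonneg W σ m
  by_cases hm : m ∈ V ∪ W
  · rcases hm with h | h
    · have : wt (V ∪ W) σ m = wt V σ m := by
        unfold wt
        rw [Set.indicator_of_mem (show m ∈ V ∪ W from Or.inl h), Set.indicator_of_mem h]
      rw [this]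
      linarith
    · have : wt (V ∪ W) σ m = wt W σ m := by
        unfold wt
        rw [Set.indicator_of_mem (show m ∈ V ∪ W from Or.inr h), Set.indicator_of_mem h]
      rw [this]
      linarith
  · have : wt (V ∪ W) σ m = 0 := by
      unfold wt
      rw [Set.indicator_of_notMem hm]
    rw [this]
    linarith

lemma summable_PV {F : ℤ[X]} (hF : 2 ≤ F.natDegree) {σ : ℝ} (hσ : 1 / 2 < σ) : Summable (wt (PV F) σ) := by
  rw [PV_eq]
  obtain ⟨c, hc, h⟩ := poly_growth hF
  obtain ⟨c', hc', h'⟩ := poly_growth (F := F.comp (-X)) (by rw [natDegree_comp_neg]; exact hF)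
  exact summable_wt_union (summable_val hc h hσ) (summable_val hc' h' hσ)

end Pool.Agent.H67.BB
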